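import Pool.Agent.T6.H85.NL.Stm

/-!
# Nodal length of planar waves: the singular zeros are countable
-/

set_option autoImplicit false
open MeasureTheory Metric Filter Topology
open scoped ContDiff ENNReal NNReal

namespace Pool.Agent.T6.H85.NL.SING

variable {V : Set E}

/-- smooth on `V` -/
abbrev Sm (V : Set E) (f : E → ℝ) : Prop := ContDiffOn ℝ ∞ f V

theorem sm_pd (hV : IsOpen V) {f : E → ℝ} (hf : Sm V f) (i : Fin 2) : Sm V (pd i f) := by
  have h1 : ContDiffOn ℝ ∞ (fderiv ℝ f) V := hf.fderiv_of_isOpen hV le_rfl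
  exact h1.clm_apply contDiffOn_const

theorem sm_dl (hV : IsOpen V) {f : E → ℝ} (hf : Sm V f) : ∀ l : List (Fin 2), Sm V (dl l f)
  | [] => hf
  | i :: l => sm_pd hV (sm_dl hV hf l) i

theorem diffAt (hV : IsOpen V) {f : E → ℝ} (hf : Sm V f) {y : E} (hy : y ∈ V) :
    DifferentiableAt ℝ f y :=
  (hf.contDiffAt (hV.mem_nhds hy)).differentiableAt (by simp)

theorem pd_congr (hV : IsOpen V) {f g : E → ℝ} (h : ∀ y ∈ V, f y = g y) (i : Fin 2) :
    ∀ y ∈ V, pd i f y = pd i g y := by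
  intro y hy
  have h1 : f =ᶠ[𝓝 y] g := by
    filter_upwards [hV.mem_nhds hy] with x hx using h x hx
  rw [pd, pd, h1.fderiv_eq]

theorem dl_congr (hV : IsOpen V) {f g : E → ℝ} (h : ∀ y ∈ V, f y = g y) :
    ∀ l : List (Fin 2), ∀ y ∈ V, dl l f y = dl l g y
  | [] => h
  | i :: l => pd_congr hV (dl_congr hV h l) i

theorem pd_add (hV : IsOpen V) {f g : E → ℝ} (hf : Sm V f) (hg : Sm V g) (i : Fin 2) :
    ∀ y ∈ V, pd i (fun x => f x + g x) y = pd i f y + pd i g y := by
  intro y hy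
  have h1 := ((diffAt hV hf hy).hasFDerivAt.add (diffAt hV hg hy).hasFDerivAt).fderiv
  have h2 : fderiv ℝ (fun x => f x + g x) y = fderiv ℝ f y + fderiv ℝ g y := h1
  rw [pd, h2]
  rfl

theorem pd_mul (hV : IsOpen V) {f g : E → ℝ} (hf : Sm V f) (hg : Sm V g) (i : Fin 2) :
    ∀ y ∈ V, pd i (fun x => f x * g x) y = f y * pd i g y + pd i f y * g y := by
  intro y hy
  have h1 := ((diffAt hV hf hy).hasFDerivAt.mul (diffAt hV hg hy).hasFDerivAt).fderiv
  have h2 : fderiv ℝ (fun x => f x * g x) y = f y • fderiv ℝ g y + g y • fderiv ℝ f y := h1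
  rw [pd, h2]
  simp only [add_apply, FunLike.coe_smul, Pi.smul_apply, smul_eq_mul, pd]
  ring

theorem dl_add (hV : IsOpen V) {f g : E → ℝ} (hf : Sm V f) (hg : Sm V g) :
    ∀ l : List (Fin 2), ∀ y ∈ V, dl l (fun x => f x + g x) y = dl l f y + dl l g y
  | [] => fun _ _ => rfl
  | i :: l => fun y hy => by
    have h1 := pd_congr hV (dl_add hV hf hg l) i y hy
    rw [pd_add hV (sm_dl hV hf l) (sm_dl hV hg l) i y hy] at h1
    exact h1

theorem pd_comm (hV : IsOpen V) {f : E → ℝ} (hf : Sm V f) (i j : Fin 2) :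
    ∀ y ∈ V, pd i (pd j f) y = pd j (pd i f) y := by
  intro y hy
  have h1 : ContDiffOn ℝ ∞ (fderiv ℝ f) V := hf.fderiv_of_isOpen hV le_rfl
  have hd : DifferentiableAt ℝ (fderiv ℝ f) y :=
    (h1.contDiffAt (hV.mem_nhds hy)).differentiableAt (by simp)
  have hs : IsSymmSndFDerivAt ℝ f y :=
    (hf.contDiffAt (hV.mem_nhds hy)).isSymmSndFDerivAt (by
      rw [minSmoothness_of_isRCLikeNormedField]
      exact ENat.LEInfty.out)
  have h2 : ∀ a b : Fin 2, pd a (pd b f) y =
      fderiv ℝ (fderiv ℝ f) y (EuclideanSpace.single a 1) (EuclideanSpace.single b 1) := by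
    intro a b
    have h3 : HasFDerivAt (fun x => fderiv ℝ f x (EuclideanSpace.single b 1))
        ((fderiv ℝ (fderiv ℝ f) y).flip (EuclideanSpace.single b 1)) y := by
      have := hd.hasFDerivAt.clm_apply (hasFDerivAt_const (EuclideanSpace.single b (1 : ℝ)) y)
      simpa using this
    have h4 : fderiv ℝ (pd b f) y = (fderiv ℝ (fderiv ℝ f) y).flip (EuclideanSpace.single b 1) :=
      h3.fderiv
    rw [pd, h4]
    rfl
  rw [h2, h2]
  exact hs _ _

theorem dl_pd (hV : IsOpen V) {f : E → ℝ} (hf : Sm V f) (i : Fin 2) :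
    ∀ l : List (Fin 2), ∀ y ∈ V, dl l (pd i f) y = pd i (dl l f) y
  | [] => fun _ _ => rfl
  | j :: l => fun y hy => by
    have h1 := pd_congr hV (dl_pd hV hf i l) j y hy
    rw [pd_comm hV (sm_dl hV hf l) j i y hy] at h1
    exact h1

theorem dl_append (l m : List (Fin 2)) (f : E → ℝ) : dl (l ++ m) f = dl l (dl m f) := by
  induction l with
  | nil => rfl
  | cons i l ih => simp only [List.cons_append, dl, ih]

theorem lap_dl (hV : IsOpen V) {f : E → ℝ} (hf : Sm V f) (l : List (Fin 2)) :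
    ∀ y ∈ V, lap (dl l f) y = dl l (lap f) y := by
  intro y hy
  have h1 : ∀ i : Fin 2, dl l (pd i (pd i f)) y = pd i (pd i (dl l f)) y := by
    intro i
    rw [dl_pd hV (sm_pd hV hf i) i l y hy]
    exact pd_congr hV (dl_pd hV hf i l) i y hy
  have h2 : dl l (lap f) y = dl l (pd 0 (pd 0 f)) y + dl l (pd 1 (pd 1 f)) y :=
    dl_add hV (sm_pd hV (sm_pd hV hf 0) 0) (sm_pd hV (sm_pd hV hf 1) 1) l y hy
  rw [h2, h1, h1]
  rfl

theorem dl_mul_zero (hV : IsOpen V) {z : E} (hz : z ∈ V) (n : ℕ) :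
    ∀ (l : List (Fin 2)), l.length = n → ∀ (g f : E → ℝ), Sm V g → Sm V f →
      (∀ m : List (Fin 2), m.length ≤ n → dl m f z = 0) → dl l (fun x => g x * f x) z = 0 := by
  induction n with
  | zero =>
    intro l hl g f _ _ h
    rw [List.length_eq_zero_iff] at hl
    subst hl
    have h1 : f z = 0 := h [] le_rfl
    simp only [dl, h1, mul_zero]
  | succ n ih =>
    intro l hl g f hg hf h
    rcases List.eq_nil_or_concat l with rfl | ⟨l', i, rfl⟩
    · simp at hl
    · rw [List.concat_eq_append] at hl ⊢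
      have hl' : l'.length = n := by simpa using hl
      rw [dl_append]
      have h1 : ∀ y ∈ V, dl [i] (fun x => g x * f x) y =
          (fun x => g x * pd i f x + pd i g x * f x) y := fun y hy => pd_mul hV hg hf i y hy
      rw [dl_congr hV h1 l' z hz]
      have h2 := dl_add hV (f := fun x => g x * pd i f x) (g := fun x => pd i g x * f x)
        (hg.mul (sm_pd hV hf i)) ((sm_pd hV hg i).mul hf) l' z hz
      rw [h2, ih l' hl' g (pd i f) hg (sm_pd hV hf i) fun m hm => ?_,
        ih l' hl' (pd i g) f (sm_pd hV hg i) hf fun m hm => h m (by omega), add_zero]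
      have h3 := h (m ++ [i]) (by simp; omega)
      rw [dl_append] at h3
      exact h3

/-- the zeros of the gradient of `w` -/
def W (w : E → ℝ) : Set E := {y | pd 0 w y = 0 ∧ pd 1 w y = 0}

/-- the isolated zeros of the gradient of `w` -/
def Iso (w : E → ℝ) : Set E := {z | z ∈ W w ∧ ∀ᶠ y in 𝓝[≠] z, y ∉ W w}

theorem iso_countable (w : E → ℝ) : (Iso w).Countable := by
  have h1 : DiscreteTopology (Iso w) := by
    rw [discreteTopology_subtype_iff]
    intro x hx
    rw [← disjoint_iff, Filter.disjoint_principal_right]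
    filter_upwards [hx.2] with y hy hy'
    exact hy hy'.1
  have h2 : Countable (Iso w) := countable_of_Lindelof_of_discrete
  exact Set.countable_coe_iff.1 h2

theorem isolated (hV : IsOpen V) {w : E → ℝ} (hw : Sm V w) {z : E} (hz : z ∈ V)
    (h0 : pd 0 w z = 0) (h1 : pd 1 w z = 0) (hlap : lap w z = 0)
    (hne : ∃ i j, pd i (pd j w) z ≠ 0) : z ∈ Iso w := by
  refine ⟨⟨h0, h1⟩, ?_⟩
  set A := pd 0 (pd 0 w) z with hA
  set B := pd 1 (pd 0 w) z with hB
  have hB' : pd 0 (pd 1 w) z = B := pd_comm hV hw 0 1 z hz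
  have hC : pd 1 (pd 1 w) z = -A := by
    have : A + pd 1 (pd 1 w) z = 0 := hlap
    linarith
  have hAB : A ^ 2 + B ^ 2 ≠ 0 := by
    intro h
    have hA0 : A = 0 := by nlinarith [sq_nonneg A, sq_nonneg B]
    have hB0 : B = 0 := by nlinarith [sq_nonneg A, sq_nonneg B]
    obtain ⟨i, j, hij⟩ := hne
    apply hij
    fin_cases i <;> fin_cases j
    · exact hA0
    · exact hB'.trans hB0
    · exact hB0
    · change pd 1 (pd 1 w) z = 0
      rw [hC, hA0, neg_zero]
  have hd : HasFDerivAt (fun y => (pd 0 w y, pd 1 w y))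
      ((fderiv ℝ (pd 0 w) z).prod (fderiv ℝ (pd 1 w) z)) z :=
    (diffAt hV (sm_pd hV hw 0) hz).hasFDerivAt.prodMk (diffAt hV (sm_pd hV hw 1) hz).hasFDerivAt
  have hval : ∀ (f : E → ℝ) (v : E), fderiv ℝ f z v = v 0 * pd 0 f z + v 1 * pd 1 f z := by
    intro f v
    have hv : v = v 0 • EuclideanSpace.single (0 : Fin 2) (1 : ℝ) +
        v 1 • EuclideanSpace.single (1 : Fin 2) (1 : ℝ) := by
      ext k
      fin_cases k <;> simp
    conv_lhs => rw [hv]
    rw [map_add, map_smul, map_smul, smul_eq_mul, smul_eq_mul]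
    rfl
  have hker : LinearMap.ker (((fderiv ℝ (pd 0 w) z).prod (fderiv ℝ (pd 1 w) z) : E →L[ℝ] ℝ × ℝ) :
      E →ₗ[ℝ] ℝ × ℝ) = ⊥ := by
    rw [LinearMap.ker_eq_bot']
    intro v hv
    have e0 : fderiv ℝ (pd 0 w) z v = 0 := congrArg Prod.fst hv
    have e1 : fderiv ℝ (pd 1 w) z v = 0 := congrArg Prod.snd hv
    rw [hval] at e0 e1
    rw [← hA, ← hB] at e0
    rw [hB', hC] at e1
    have f0 : v 0 * (A ^ 2 + B ^ 2) = 0 := by linear_combination A * e0 + B * e1
    have f1 : v 1 * (A ^ 2 + B ^ 2) = 0 := by linear_combination B * e0 - A * e1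
    have g0 : v 0 = 0 := (mul_eq_zero.1 f0).resolve_right hAB
    have g1 : v 1 = 0 := (mul_eq_zero.1 f1).resolve_right hAB
    ext k
    fin_cases k
    · exact g0
    · exact g1
  obtain ⟨K, _, hK⟩ := LinearMap.exists_antilipschitzWith
    (((fderiv ℝ (pd 0 w) z).prod (fderiv ℝ (pd 1 w) z) : E →L[ℝ] ℝ × ℝ) : E →ₗ[ℝ] ℝ × ℝ) hker
  have h3 := hd.eventually_ne (c := ((0 : ℝ), (0 : ℝ))) ⟨K, hK⟩
  filter_upwards [h3] with y hy hy'
  exact hy (Prod.ext hy'.1 hy'.2)

end Pool.Agent.T6.H85.NL.SING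

namespace Pool.Agent.T6.H85.NL

open SING in
/-- The singular zeros of a solution which is nowhere flat are countable. -/
theorem sing : SINGStm := by
  classical
  intro c R κ u hsol hflat
  have hV : IsOpen (ball c R) := isOpen_ball
  have hsub : {x | x ∈ ball c R ∧ u x = 0 ∧ fderiv ℝ u x = 0} ⊆
      ⋃ l : List (Fin 2), Iso (dl l u) := by
    rintro z ⟨hz, hu, hdu⟩
    have hex : ∃ n : ℕ, ∃ l : List (Fin 2), l.length = n ∧ dl l u z ≠ 0 := by
      obtain ⟨l, hl⟩ := hflat z hz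
      exact ⟨l.length, l, rfl, hl⟩
    obtain ⟨l, hlen, hl⟩ := Nat.find_spec hex
    have hmin : ∀ m : List (Fin 2), m.length < Nat.find hex → dl m u z = 0 := by
      intro m hm
      by_contra h
      exact Nat.find_min hex hm ⟨m, rfl, h⟩
    rw [← hlen] at hmin
    match l, hl, hmin with
    | [], hl, _ => exact absurd hu hl
    | [i], hl, _ =>
      apply absurd _ hl
      change fderiv ℝ u z _ = 0
      rw [hdu]
      rfl
    | i :: j :: l, hl, hmin =>
      refine Set.mem_iUnion.2 ⟨l, ?_⟩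
      have hw := sm_dl hV hsol.smooth l
      refine isolated hV hw hz (hmin (0 :: l) (by simp)) (hmin (1 :: l) (by simp)) ?_
        ⟨i, j, hl⟩
      rw [lap_dl hV hsol.smooth l z hz]
      have h1 : ∀ y ∈ ball c R, lap u y = (fun x => (fun x => -κ x) x * u x) y := by
        intro y hy
        have := hsol.eq y hy
        simp only
        linarith
      rw [dl_congr hV h1 l z hz]
      exact dl_mul_zero hV hz l.length l rfl (fun x => -κ x) u hsol.pot.neg hsol.smooth
        fun m hm => hmin m (by simp; omega)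
  exact (Set.countable_iUnion fun l => iso_countable (dl l u)).mono hsub

end Pool.Agent.T6.H85.NL
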