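import Pool.Agent.T6.H85.NL.Stm

/-!
# Nodal length of planar waves: the Carleman inequality (module CARL)
-/

set_option autoImplicit false
open MeasureTheory Metric Filter Topology Real
open scoped ContDiff

namespace Pool.Agent.T6.H85.NL

noncomputable section

namespace CARL

lemma le2 : (2 : WithTop ℕ∞) ≤ ∞ := ENat.LEInfty.out

lemma le1 : (1 + 1 : WithTop ℕ∞) ≤ ∞ := by
  rw [show (1 + 1 : WithTop ℕ∞) = 2 by norm_num]; exact ENat.LEInfty.out

lemma le3 : (2 + 1 : WithTop ℕ∞) ≤ ∞ := by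
  rw [show (2 + 1 : WithTop ℕ∞) = 3 by norm_num]; exact ENat.LEInfty.out

lemma nsq (x : E) : ‖x‖ ^ 2 = x 0 ^ 2 + x 1 ^ 2 := by
  rw [EuclideanSpace.norm_sq_eq]; simp [Fin.sum_univ_two]

/-- first component of `(P + i Q) / z` -/
def dv0 (P Q : E → ℝ) (x : E) : ℝ := (P x * x 0 + Q x * x 1) / (x 0 ^ 2 + x 1 ^ 2)

/-- second component of `(P + i Q) / z` -/
def dv1 (P Q : E → ℝ) (x : E) : ℝ := (Q x * x 0 - P x * x 1) / (x 0 ^ 2 + x 1 ^ 2)

lemma npos {x : E} (hx : x ≠ 0) : 0 < x 0 ^ 2 + x 1 ^ 2 := by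
  rw [← nsq]; positivity

lemma line {f : E → ℝ} {x : E} (hf : DifferentiableAt ℝ f x) (i : Fin 2) :
    HasDerivAt (fun t : ℝ => f (x + t • (EuclideanSpace.single i (1 : ℝ) : E))) (pd i f x) 0 :=
  hf.hasFDerivAt.hasLineDerivAt _

lemma pd_of_line {f : E → ℝ} {x : E} (hf : DifferentiableAt ℝ f x) (i : Fin 2) {a : ℝ}
    (h : HasDerivAt (fun t : ℝ => f (x + t • (EuclideanSpace.single i (1 : ℝ) : E))) a 0) :
    pd i f x = a :=
  (line hf i).unique h

lemma cdc (j : Fin 2) : ContDiff ℝ ∞ (fun y : E => y j) := by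
  fun_prop

lemma cd0 {P Q : E → ℝ} (hP : ContDiff ℝ 2 P) (hQ : ContDiff ℝ 2 Q) {x : E} (hx : x ≠ 0) :
    ContDiffAt ℝ 2 (dv0 P Q) x := by
  unfold dv0
  have h := npos hx
  have h0 : ContDiff ℝ 2 (fun y : E => y 0) := by fun_prop
  have h1 : ContDiff ℝ 2 (fun y : E => y 1) := by fun_prop
  exact (((hP.mul h0).add (hQ.mul h1)).contDiffAt).div ((h0.pow 2).add (h1.pow 2)).contDiffAt h.ne'

lemma cd1 {P Q : E → ℝ} (hP : ContDiff ℝ 2 P) (hQ : ContDiff ℝ 2 Q) {x : E} (hx : x ≠ 0) :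
    ContDiffAt ℝ 2 (dv1 P Q) x := by
  unfold dv1
  have h := npos hx
  have h0 : ContDiff ℝ 2 (fun y : E => y 0) := by fun_prop
  have h1 : ContDiff ℝ 2 (fun y : E => y 1) := by fun_prop
  exact (((hQ.mul h0).sub (hP.mul h1)).contDiffAt).div ((h0.pow 2).add (h1.pow 2)).contDiffAt h.ne'

lemma ev0 {P Q : E → ℝ} (hP : (0 : E) ∉ tsupport P) (hQ : (0 : E) ∉ tsupport Q) :
    ∀ᶠ y in 𝓝 (0 : E), P y = 0 ∧ Q y = 0 := by
  have h1 := notMem_tsupport_iff_eventuallyEq.1 hP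
  have h2 := notMem_tsupport_iff_eventuallyEq.1 hQ
  filter_upwards [h1, h2] with y a b using ⟨a, b⟩

lemma ev0' {P Q : E → ℝ} (hP : (0 : E) ∉ tsupport P) (hQ : (0 : E) ∉ tsupport Q) :
    dv0 P Q =ᶠ[𝓝 (0 : E)] 0 := by
  filter_upwards [ev0 hP hQ] with y h
  simp [dv0, h.1, h.2]

lemma ev1' {P Q : E → ℝ} (hP : (0 : E) ∉ tsupport P) (hQ : (0 : E) ∉ tsupport Q) :
    dv1 P Q =ᶠ[𝓝 (0 : E)] 0 := by
  filter_upwards [ev0 hP hQ] with y h
  simp [dv1, h.1, h.2]

lemma sm0 {P Q : E → ℝ} (hP : ContDiff ℝ 2 P) (hQ : ContDiff ℝ 2 Q)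
    (hP' : (0 : E) ∉ tsupport P) (hQ' : (0 : E) ∉ tsupport Q) : ContDiff ℝ 2 (dv0 P Q) := by
  rw [contDiff_iff_contDiffAt]
  intro x
  by_cases hx : x = 0
  · subst hx
    exact contDiffAt_const.congr_of_eventuallyEq (ev0' hP' hQ')
  · exact cd0 hP hQ hx

lemma sm1 {P Q : E → ℝ} (hP : ContDiff ℝ 2 P) (hQ : ContDiff ℝ 2 Q)
    (hP' : (0 : E) ∉ tsupport P) (hQ' : (0 : E) ∉ tsupport Q) : ContDiff ℝ 2 (dv1 P Q) := by
  rw [contDiff_iff_contDiffAt]
  intro x
  by_cases hx : x = 0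
  · subst hx
    exact contDiffAt_const.congr_of_eventuallyEq (ev1' hP' hQ')
  · exact cd1 hP hQ hx

lemma ts0 (P Q : E → ℝ) : tsupport (dv0 P Q) ⊆ tsupport P ∪ tsupport Q := by
  apply closure_minimal _ ((isClosed_tsupport P).union (isClosed_tsupport Q))
  intro x hx
  by_contra hc
  simp only [Set.mem_union, not_or] at hc
  have h1 := image_eq_zero_of_notMem_tsupport hc.1
  have h2 := image_eq_zero_of_notMem_tsupport hc.2
  exact hx (by simp [dv0, h1, h2])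

lemma ts1 (P Q : E → ℝ) : tsupport (dv1 P Q) ⊆ tsupport P ∪ tsupport Q := by
  apply closure_minimal _ ((isClosed_tsupport P).union (isClosed_tsupport Q))
  intro x hx
  by_contra hc
  simp only [Set.mem_union, not_or] at hc
  have h1 := image_eq_zero_of_notMem_tsupport hc.1
  have h2 := image_eq_zero_of_notMem_tsupport hc.2
  exact hx (by simp [dv1, h1, h2])

lemma coordLine (x : E) (i j : Fin 2) :
    HasDerivAt (fun t : ℝ => (x + t • (EuclideanSpace.single i (1 : ℝ) : E)) j)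
      (if j = i then 1 else 0) 0 := by
  have h : (fun t : ℝ => (x + t • (EuclideanSpace.single i (1 : ℝ) : E)) j) =
      fun t : ℝ => x j + t * (if j = i then 1 else 0) := by
    funext t
    simp [Pi.single_apply]
  rw [h]
  simpa using ((hasDerivAt_id (0 : ℝ)).mul_const (if j = i then (1 : ℝ) else 0)).const_add (x j)

lemma pd0 {P Q : E → ℝ} (hP : ContDiff ℝ 2 P) (hQ : ContDiff ℝ 2 Q) {x : E} (hx : x ≠ 0)
    (i : Fin 2) :
    pd i (dv0 P Q) x = ((pd i P x * x 0 + P x * (if (0 : Fin 2) = i then 1 else 0) +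
      (pd i Q x * x 1 + Q x * (if (1 : Fin 2) = i then 1 else 0))) * (x 0 ^ 2 + x 1 ^ 2) -
      (P x * x 0 + Q x * x 1) * (2 * x 0 * (if (0 : Fin 2) = i then 1 else 0) +
        2 * x 1 * (if (1 : Fin 2) = i then 1 else 0))) / (x 0 ^ 2 + x 1 ^ 2) ^ 2 := by
  have hn := npos hx
  apply pd_of_line ((cd0 hP hQ hx).differentiableAt (by norm_num))
  have a := line (hP.differentiable (by norm_num)).differentiableAt (x := x) i
  have b := line (hQ.differentiable (by norm_num)).differentiableAt (x := x) i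
  have c := coordLine x i 0
  have d := coordLine x i 1
  have h := ((a.mul c).add (b.mul d)).div ((c.pow 2).add (d.pow 2)) (by simpa using hn.ne')
  have e : ∀ (p q : ℝ), p = q → HasDerivAt
      (fun t : ℝ => dv0 P Q (x + t • (EuclideanSpace.single i (1 : ℝ) : E))) p 0 →
      HasDerivAt (fun t : ℝ => dv0 P Q (x + t • (EuclideanSpace.single i (1 : ℝ) : E))) q 0 := by
    intro p q h1 h2; rwa [← h1]
  refine e _ _ ?_ h
  simp

lemma pd1 {P Q : E → ℝ} (hP : ContDiff ℝ 2 P) (hQ : ContDiff ℝ 2 Q) {x : E} (hx : x ≠ 0)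
    (i : Fin 2) :
    pd i (dv1 P Q) x = ((pd i Q x * x 0 + Q x * (if (0 : Fin 2) = i then 1 else 0) -
      (pd i P x * x 1 + P x * (if (1 : Fin 2) = i then 1 else 0))) * (x 0 ^ 2 + x 1 ^ 2) -
      (Q x * x 0 - P x * x 1) * (2 * x 0 * (if (0 : Fin 2) = i then 1 else 0) +
        2 * x 1 * (if (1 : Fin 2) = i then 1 else 0))) / (x 0 ^ 2 + x 1 ^ 2) ^ 2 := by
  have hn := npos hx
  apply pd_of_line ((cd1 hP hQ hx).differentiableAt (by norm_num))
  have a := line (hP.differentiable (by norm_num)).differentiableAt (x := x) i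
  have b := line (hQ.differentiable (by norm_num)).differentiableAt (x := x) i
  have c := coordLine x i 0
  have d := coordLine x i 1
  have h := ((b.mul c).sub (a.mul d)).div ((c.pow 2).add (d.pow 2)) (by simpa using hn.ne')
  have e : ∀ (p q : ℝ), p = q → HasDerivAt
      (fun t : ℝ => dv1 P Q (x + t • (EuclideanSpace.single i (1 : ℝ) : E))) p 0 →
      HasDerivAt (fun t : ℝ => dv1 P Q (x + t • (EuclideanSpace.single i (1 : ℝ) : E))) q 0 := by
    intro p q h1 h2; rwa [← h1]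
  refine e _ _ ?_ h
  simp

lemma zero_of_ev {f : E → ℝ} (h : f =ᶠ[𝓝 (0 : E)] 0) (i : Fin 2) : pd i f 0 = 0 := by
  unfold pd
  rw [h.fderiv_eq]
  simp

lemma key {P Q : E → ℝ} (hP : ContDiff ℝ 2 P) (hQ : ContDiff ℝ 2 Q)
    (hP' : (0 : E) ∉ tsupport P) (hQ' : (0 : E) ∉ tsupport Q) (N : ℕ) (x : E) :
    ((pd 0 (dv0 P Q) x - pd 1 (dv1 P Q) x) ^ 2 + (pd 0 (dv1 P Q) x + pd 1 (dv0 P Q) x) ^ 2) /
        ‖x‖ ^ (2 * N) =
      ((pd 0 P x - pd 1 Q x) ^ 2 + (pd 0 Q x + pd 1 P x) ^ 2) / ‖x‖ ^ (2 * (N + 1)) := by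
  by_cases hx : x = 0
  · subst hx
    rw [zero_of_ev (ev0' hP' hQ'), zero_of_ev (ev1' hP' hQ'), zero_of_ev (ev0' hP' hQ'),
      zero_of_ev (ev1' hP' hQ')]
    simp
  · have hn := npos hx
    have hx' : 0 < ‖x‖ := norm_pos_iff.2 hx
    rw [show 2 * (N + 1) = 2 + 2 * N by ring, pow_add, nsq, ← div_div]
    congr 1
    rw [pd0 hP hQ hx, pd0 hP hQ hx, pd1 hP hQ hx, pd1 hP hQ hx]
    simp only [if_true, zero_ne_one, one_ne_zero, if_false, mul_one, mul_zero, add_zero, zero_add,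
      sub_zero]
    generalize pd 0 P x = p0
    generalize pd 1 P x = p1
    generalize pd 0 Q x = q0
    generalize pd 1 Q x = q1
    generalize P x = p at *
    generalize Q x = q at *
    generalize x 0 = s at *
    generalize x 1 = t at *
    field_simp
    ring

lemma key0 (P Q : E → ℝ) (hP' : (0 : E) ∉ tsupport P) (hQ' : (0 : E) ∉ tsupport Q) (N : ℕ)
    (x : E) :
    (dv0 P Q x ^ 2 + dv1 P Q x ^ 2) / ‖x‖ ^ (2 * N) =
      (P x ^ 2 + Q x ^ 2) / ‖x‖ ^ (2 * (N + 1)) := by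
  by_cases hx : x = 0
  · subst hx
    simp [dv0, dv1]
  · have hn := npos hx
    have hx' : 0 < ‖x‖ := norm_pos_iff.2 hx
    rw [show 2 * (N + 1) = 2 + 2 * N by ring, pow_add, nsq, ← div_div]
    congr 1
    unfold dv0 dv1
    generalize P x = p at *
    generalize Q x = q at *
    generalize x 0 = s at *
    generalize x 1 = t at *
    field_simp
    ring

/-- the weighted inequality for `∂̄` -/
lemma wdbar (hD : DBARStm) (r : ℝ) (hr : 0 < r) (N : ℕ) : ∀ (P Q : E → ℝ), ContDiff ℝ 2 P →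
    ContDiff ℝ 2 Q → tsupport P ⊆ ball 0 r → tsupport Q ⊆ ball 0 r → (0 : E) ∉ tsupport P →
    (0 : E) ∉ tsupport Q →
    ∫ x, (P x ^ 2 + Q x ^ 2) / ‖x‖ ^ (2 * N) ≤
      4 * r ^ 2 * ∫ x, ((pd 0 P x - pd 1 Q x) ^ 2 + (pd 0 Q x + pd 1 P x) ^ 2) /
        ‖x‖ ^ (2 * N) := by
  induction N with
  | zero =>
    intro P Q hP hQ h1 h2 _ _
    simpa using hD r hr P Q hP hQ h1 h2
  | succ N ih =>
    intro P Q hP hQ h1 h2 h3 h4
    have hs0 := ts0 P Q
    have hs1 := ts1 P Q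
    have := ih (dv0 P Q) (dv1 P Q) (sm0 hP hQ h3 h4) (sm1 hP hQ h3 h4)
      (hs0.trans (Set.union_subset h1 h2)) (hs1.trans (Set.union_subset h1 h2))
      (fun h => (hs0 h).elim h3 h4) (fun h => (hs1 h).elim h3 h4)
    simp only [key hP hQ h3 h4, key0 P Q h3 h4] at this
    exact this

lemma symm_pd {f : E → ℝ} (hf : ContDiff ℝ ∞ f) (x : E) : pd 0 (pd 1 f) x = pd 1 (pd 0 f) x := by
  have h2 : DifferentiableAt ℝ (fderiv ℝ f) x :=
    ((hf.fderiv_right (m := 1) le1).differentiable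
      (by norm_num)).differentiableAt
  have hs : IsSymmSndFDerivAt ℝ f x := by
    apply (hf.contDiffAt (x := x)).isSymmSndFDerivAt
    simp [minSmoothness_of_isRCLikeNormedField]
    exact le2
  have e : ∀ i j : Fin 2, pd i (pd j f) x =
      fderiv ℝ (fderiv ℝ f) x (EuclideanSpace.single i 1) (EuclideanSpace.single j 1) := by
    intro i j
    unfold pd
    rw [fderiv_clm_apply h2 (differentiableAt_const _)]
    simp
  rw [e, e]
  exact hs _ _

lemma ts_pd (f : E → ℝ) (i : Fin 2) : tsupport (pd i f) ⊆ tsupport f := by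
  apply closure_minimal _ (isClosed_tsupport f)
  intro x hx
  by_contra hc
  apply hx
  have := notMem_tsupport_iff_eventuallyEq.1 hc
  unfold pd
  rw [this.fderiv_eq]
  simp

lemma sm_pd {f : E → ℝ} (hf : ContDiff ℝ ∞ f) (i : Fin 2) : ContDiff ℝ 2 (pd i f) := by
  unfold pd
  exact (hf.fderiv_right (m := 2) le3).clm_apply contDiff_const

lemma ts_neg (f : E → ℝ) : tsupport (fun x => - f x) = tsupport f := by
  unfold tsupport
  congr 1
  ext x
  simp

lemma pd_neg (f : E → ℝ) (i : Fin 2) (x : E) : pd i (fun x => - f x) x = - pd i f x := by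
  unfold pd
  rw [fderiv_fun_neg]
  simp

end CARL

open CARL

/-- the Carleman inequality -/
theorem carl (hD : DBARStm) : CARLStm := by
  intro r hr N f hf hs h0
  have hf2 : ContDiff ℝ 2 f := hf.of_le le2
  have A := wdbar hD r hr N f (fun _ => 0) hf2 contDiff_const hs (by simp [tsupport]) h0
    (by simp [tsupport])
  have B := wdbar hD r hr N (pd 0 f) (fun x => - pd 1 f x) (sm_pd hf 0) (sm_pd hf 1).neg
    ((ts_pd f 0).trans hs) ((ts_neg _).le.trans ((ts_pd f 1).trans hs))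
    (fun h => h0 (ts_pd f 0 h)) (fun h => h0 (ts_pd f 1 ((ts_neg _).le h)))
  have hc : ∀ (i : Fin 2) (x : E), pd i (fun _ => (0 : ℝ)) x = 0 := by
    intro i x; simp [pd]
  simp only [hc, sub_zero, zero_add, ne_eq, OfNat.ofNat_ne_zero, not_false_eq_true, zero_pow,
    add_zero] at A
  simp only [pd_neg, neg_sq, sub_neg_eq_add, symm_pd hf, neg_add_cancel, ne_eq,
    OfNat.ofNat_ne_zero, not_false_eq_true, zero_pow, add_zero] at B
  have hr2 : 0 ≤ 4 * r ^ 2 := by positivity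
  calc ∫ x, f x ^ 2 / ‖x‖ ^ (2 * N) ≤ 4 * r ^ 2 * ∫ x, (pd 0 f x ^ 2 + pd 1 f x ^ 2) /
        ‖x‖ ^ (2 * N) := A
    _ ≤ 4 * r ^ 2 * (4 * r ^ 2 * ∫ x, (pd 0 (pd 0 f) x + pd 1 (pd 1 f) x) ^ 2 /
        ‖x‖ ^ (2 * N)) := mul_le_mul_of_nonneg_left B hr2
    _ = (4 * r ^ 2) ^ 2 * ∫ x, lap f x ^ 2 / ‖x‖ ^ (2 * N) := by
        simp only [lap]; ring

end

end Pool.Agent.T6.H85.NL
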