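import Pool.Agent.T6.H85.NL.Stm

/-!
# Nodal length: module DBAR
-/

set_option autoImplicit false
open MeasureTheory Metric Filter Topology Real
open scoped ContDiff ENNReal NNReal

namespace Pool.Agent.T6.H85.NL

noncomputable section

namespace DBAR

theorem pd_contDiff {n : WithTop ℕ∞} {f : E → ℝ} (hf : ContDiff ℝ (n + 1) f) (i : Fin 2) :
    ContDiff ℝ n (pd i f) := by
  have h := hf.fderiv_right (m := n) le_rfl
  exact h.clm_apply contDiff_const

theorem pd_cont {f : E → ℝ} (hf : ContDiff ℝ 1 f) (i : Fin 2) : Continuous (pd i f) := by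
  have : ContDiff ℝ 0 (pd i f) := pd_contDiff (n := 0) (by simpa using hf) i
  exact this.continuous

theorem pd_comp {f : E → ℝ} (hf : HasCompactSupport f) (i : Fin 2) :
    HasCompactSupport (pd i f) := by
  have h := hf.fderiv (𝕜 := ℝ)
  exact h.comp_left (g := fun L : E →L[ℝ] ℝ => L (EuclideanSpace.single i 1)) (by simp)

theorem ibp {f g : E → ℝ} (hf : ContDiff ℝ 1 f) (hg : ContDiff ℝ 1 g)
    (hc : HasCompactSupport f) (i : Fin 2) :
    ∫ x, f x * pd i g x = - ∫ x, pd i f x * g x := by
  have hf0 := hf.continuous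
  have hg0 := hg.continuous
  have hf1 := pd_cont hf i
  have hg1 := pd_cont hg i
  refine integral_mul_fderiv_eq_neg_fderiv_mul_of_integrable
    (f := f) (g := g) (v := EuclideanSpace.single i 1) ?_ ?_ ?_
    (fun x _ => (hf.differentiable (by norm_num)) x) (fun x _ => (hg.differentiable (by norm_num)) x)
  · exact (hf1.mul hg0).integrable_of_hasCompactSupport ((pd_comp hc i).mul_right)
  · exact (hf0.mul hg1).integrable_of_hasCompactSupport (hc.mul_right)
  · exact (hf0.mul hg0).integrable_of_hasCompactSupport (hc.mul_right)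

theorem pd_pd {f : E → ℝ} (hf : ContDiff ℝ 2 f) (i j : Fin 2) (y : E) :
    pd i (pd j f) y =
      fderiv ℝ (fderiv ℝ f) y (EuclideanSpace.single i 1) (EuclideanSpace.single j 1) := by
  have h1 : ContDiff ℝ 1 (fderiv ℝ f) := hf.fderiv_right (m := 1) (by norm_num)
  have h2 : DifferentiableAt ℝ (fderiv ℝ f) y := (h1.differentiable (by norm_num)) y
  have : pd j f = fun z => (fderiv ℝ f z) (EuclideanSpace.single j 1) := rfl
  unfold pd
  rw [show (fun z => (fderiv ℝ f z) (EuclideanSpace.single j (1:ℝ))) = 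
    fun z => (fderiv ℝ f z) ((fun _ => EuclideanSpace.single j (1:ℝ)) z) from rfl,
    fderiv_clm_apply h2 (differentiableAt_const _)]
  simp

theorem pd_comm {f : E → ℝ} (hf : ContDiff ℝ 2 f) (i j : Fin 2) (y : E) :
    pd i (pd j f) y = pd j (pd i f) y := by
  rw [pd_pd hf, pd_pd hf]
  have h := (hf.contDiffAt (x := y)).isSymmSndFDerivAt (by simp)
  exact h.eq _ _

theorem poinc {r : ℝ} (hr : 0 < r) {f : E → ℝ} (hf : ContDiff ℝ 1 f)
    (hs : tsupport f ⊆ ball 0 r) :
    ∫ x, f x ^ 2 ≤ 4 * r ^ 2 * ∫ x, pd 0 f x ^ 2 := by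
  have hc : HasCompactSupport f :=
    HasCompactSupport.of_support_subset_isCompact (isCompact_closedBall (0:E) r)
      ((subset_tsupport f).trans (hs.trans ball_subset_closedBall))
  have hf0 := hf.continuous
  have hf1 := pd_cont hf 0
  have hsq : ContDiff ℝ 1 (fun x => f x ^ 2) := hf.pow 2
  have hcsq : HasCompactSupport (fun x => f x ^ 2) := by
    exact hc.comp_left (g := fun t : ℝ => t ^ 2) (by simp)
  have hco : ContDiff ℝ 1 (fun x : E => x 0) := by
    exact (EuclideanSpace.proj (𝕜 := ℝ) (0 : Fin 2)).contDiff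
  have hpco : ∀ x, pd 0 (fun x : E => x 0) x = 1 := by
    intro x
    unfold pd
    have : fderiv ℝ (fun x : E => x 0) x = EuclideanSpace.proj (𝕜 := ℝ) (0 : Fin 2) :=
      (EuclideanSpace.proj (𝕜 := ℝ) (0 : Fin 2)).fderiv
    rw [this]; simp
  have hpsq : ∀ x, pd 0 (fun x => f x ^ 2) x = 2 * f x * pd 0 f x := by
    intro x
    unfold pd
    have hd : HasFDerivAt f (fderiv ℝ f x) x :=
      ((hf.differentiable (by norm_num)) x).hasFDerivAt
    have := (hd.pow 2).fderiv
    rw [this]; simp
  have h1 := ibp hsq hco hcsq 0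
  simp only [hpco, hpsq, mul_one] at h1
  have hA : Integrable (fun x => f x ^ 2) :=
    hsq.continuous.integrable_of_hasCompactSupport hcsq
  have hB : Integrable (fun x => pd 0 f x ^ 2) := by
    refine (hf1.pow 2).integrable_of_hasCompactSupport ?_
    exact (pd_comp hc 0).comp_left (g := fun t : ℝ => t ^ 2) (by simp)
  have hC : Integrable (fun x => - (2 * f x * pd 0 f x * x 0)) := by
    refine Integrable.neg ?_
    refine (((continuous_const.mul hf0).mul hf1).mul hco.continuous).integrable_of_hasCompactSupport ?_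
    refine HasCompactSupport.mul_right ?_
    refine HasCompactSupport.mul_right ?_
    exact hc.mul_left
  have h2 : ∫ x, - (2 * f x * pd 0 f x * x 0) ≤ ∫ x, (f x ^ 2 / 2 + 2 * r ^ 2 * pd 0 f x ^ 2) := by
    refine integral_mono hC ((hA.div_const 2).add (hB.const_mul _)) ?_
    intro x
    show - (2 * f x * pd 0 f x * x 0) ≤ f x ^ 2 / 2 + 2 * r ^ 2 * pd 0 f x ^ 2
    by_cases hx : f x = 0
    · rw [hx]; nlinarith [mul_nonneg (sq_nonneg r) (sq_nonneg (pd 0 f x))]
    · have hxb : x ∈ ball (0:E) r := hs (subset_tsupport f hx)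
      have hx0 : |x 0| ≤ r := by
        have h := EuclideanSpace.norm_eq x
        have h' : |x 0| ≤ ‖x‖ := by
          have := PiLp.norm_apply_le x 0
          simpa [Real.norm_eq_abs] using this
        have h'' : ‖x‖ < r := by simpa using hxb
        linarith
      have h3 : (x 0)^2 ≤ r^2 := by
        rw [← sq_abs (x 0)]
        exact pow_le_pow_left₀ (abs_nonneg _) hx0 2
      have h4 : 0 ≤ (f x + 2 * pd 0 f x * x 0)^2 := sq_nonneg _
      have h5 : 0 ≤ (r^2 - (x 0)^2) * (pd 0 f x)^2 := mul_nonneg (by linarith) (sq_nonneg _)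
      nlinarith
  rw [integral_neg, ← h1, integral_add (hA.div_const 2) (hB.const_mul _), integral_div,
    integral_const_mul] at h2
  linarith

end DBAR

open DBAR in
theorem dbar : DBARStm := by
  intro r hr p q hp hq hsp hsq
  have hcp : HasCompactSupport p :=
    HasCompactSupport.of_support_subset_isCompact (isCompact_closedBall (0:E) r)
      ((subset_tsupport p).trans (hsp.trans ball_subset_closedBall))
  have hcq : HasCompactSupport q :=
    HasCompactSupport.of_support_subset_isCompact (isCompact_closedBall (0:E) r)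
      ((subset_tsupport q).trans (hsq.trans ball_subset_closedBall))
  have hp1 : ContDiff ℝ 1 p := hp.of_le (by norm_num)
  have hq1 : ContDiff ℝ 1 q := hq.of_le (by norm_num)
  have hint : ∀ {f g : E → ℝ}, Continuous f → Continuous g → HasCompactSupport f →
      Integrable (fun x => f x * g x) := by
    intro f g hf hg hc
    exact (hf.mul hg).integrable_of_hasCompactSupport hc.mul_right
  have hp0 := pd_cont hp1 0
  have hp1' := pd_cont hp1 1
  have hq0 := pd_cont hq1 0
  have hq1' := pd_cont hq1 1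
  have cp0 := pd_comp hcp 0
  have cp1 := pd_comp hcp 1
  have cq0 := pd_comp hcq 0
  have cq1 := pd_comp hcq 1
  -- cross term
  have hx : ∫ x, pd 0 p x * pd 1 q x = ∫ x, pd 1 p x * pd 0 q x := by
    have e1 := ibp hp1 (pd_contDiff (n := 1) (by simpa [one_add_one_eq_two] using hq) 1) hcp 0
    have e2 := ibp hp1 (pd_contDiff (n := 1) (by simpa [one_add_one_eq_two] using hq) 0) hcp 1
    have e3 : (fun x => p x * pd 0 (pd 1 q) x) = fun x => p x * pd 1 (pd 0 q) x := by
      funext x; rw [pd_comm hq 0 1 x]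
    rw [e3] at e1
    rw [e1] at e2
    linarith
  have P1 := poinc hr hp1 hsp
  have P2 := poinc hr hq1 hsq
  have i00 := hint hp0 hp0 cp0
  have i11 := hint hp1' hp1' cp1
  have j00 := hint hq0 hq0 cq0
  have j11 := hint hq1' hq1' cq1
  have k1 := hint hp0 hq1' cp0
  have k2 := hint hp1' hq0 cp1
  have hR : ∫ x, ((pd 0 p x - pd 1 q x) ^ 2 + (pd 0 q x + pd 1 p x) ^ 2) =
      (∫ x, pd 0 p x ^ 2) + (∫ x, pd 1 p x ^ 2) + (∫ x, pd 0 q x ^ 2) + (∫ x, pd 1 q x ^ 2) := by
    have : (fun x => (pd 0 p x - pd 1 q x) ^ 2 + (pd 0 q x + pd 1 p x) ^ 2) =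
        fun x => ((((pd 0 p x * pd 0 p x + pd 1 p x * pd 1 p x) + pd 0 q x * pd 0 q x) +
          pd 1 q x * pd 1 q x) - 2 * (pd 0 p x * pd 1 q x)) + 2 * (pd 1 p x * pd 0 q x) := by
      funext x; ring
    rw [this]
    have s1 : Integrable (fun x => pd 0 p x * pd 0 p x + pd 1 p x * pd 1 p x) := i00.add i11
    have s2 : Integrable (fun x => pd 0 p x * pd 0 p x + pd 1 p x * pd 1 p x +
      pd 0 q x * pd 0 q x) := s1.add j00
    have s3 : Integrable (fun x => pd 0 p x * pd 0 p x + pd 1 p x * pd 1 p x +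
      pd 0 q x * pd 0 q x + pd 1 q x * pd 1 q x) := s2.add j11
    have s4 : Integrable (fun x => pd 0 p x * pd 0 p x + pd 1 p x * pd 1 p x +
      pd 0 q x * pd 0 q x + pd 1 q x * pd 1 q x - 2 * (pd 0 p x * pd 1 q x)) :=
      s3.sub (k1.const_mul 2)
    rw [integral_add s4 (k2.const_mul 2), integral_sub s3 (k1.const_mul 2),
      integral_add s2 j11, integral_add s1 j00,
      integral_add i00 i11, integral_const_mul, integral_const_mul, hx]
    simp only [← pow_two]
    ring
  have hL : ∫ x, (p x ^ 2 + q x ^ 2) = (∫ x, p x ^ 2) + ∫ x, q x ^ 2 := by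
    have a := hint hp1.continuous hp1.continuous hcp
    have b := hint hq1.continuous hq1.continuous hcq
    simp only [← pow_two] at a b
    exact integral_add a b
  rw [hR, hL]
  have n1 : 0 ≤ ∫ x, pd 1 p x ^ 2 := integral_nonneg fun x => sq_nonneg _
  have n2 : 0 ≤ ∫ x, pd 1 q x ^ 2 := integral_nonneg fun x => sq_nonneg _
  nlinarith [mul_nonneg (sq_nonneg r) n1, mul_nonneg (sq_nonneg r) n2]

end

end Pool.Agent.T6.H85.NL
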