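import Pool.Agent.T6.H85.NL.Stm

set_option autoImplicit false
open MeasureTheory Metric Filter Topology Real
open scoped ContDiff ENNReal NNReal

namespace Pool.Agent.T6.H85.NL

namespace FLAT

theorem dl_append (l : List (Fin 2)) (i : Fin 2) (f : E → ℝ) :
    dl l (pd i f) = dl (l ++ [i]) f := by
  induction l with
  | nil => rfl
  | cons j l ih => simp only [dl, List.cons_append]; rw [ih]

theorem pd_smooth {V : Set E} (hV : IsOpen V) {f : E → ℝ} (hf : ContDiffOn ℝ ∞ f V) (i : Fin 2) :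
    ContDiffOn ℝ ∞ (pd i f) V := by
  have h1 : ContDiffOn ℝ ∞ (fderiv ℝ f) V := hf.fderiv_of_isOpen hV (by simp)
  exact h1.clm_apply contDiffOn_const

theorem decomp (v : E) : v = v 0 • EuclideanSpace.single 0 (1:ℝ) +
    v 1 • EuclideanSpace.single 1 (1:ℝ) := by
  ext i
  fin_cases i <;> simp

theorem norm_fderiv_le (f : E → ℝ) (y : E) : ‖fderiv ℝ f y‖ ≤ |pd 0 f y| + |pd 1 f y| := by
  refine ContinuousLinearMap.opNorm_le_bound _ (by positivity) (fun v => ?_)
  have h0 : ‖v 0‖ ≤ ‖v‖ := PiLp.norm_apply_le v 0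
  have h1 : ‖v 1‖ ≤ ‖v‖ := PiLp.norm_apply_le v 1
  have : fderiv ℝ f y v = v 0 * pd 0 f y + v 1 * pd 1 f y := by
    conv_lhs => rw [decomp v]
    simp [pd]
  rw [this]
  calc ‖v 0 * pd 0 f y + v 1 * pd 1 f y‖ ≤ ‖v 0 * pd 0 f y‖ + ‖v 1 * pd 1 f y‖ := norm_add_le _ _
    _ = |pd 0 f y| * ‖v 0‖ + |pd 1 f y| * ‖v 1‖ := by
        simp only [norm_mul, Real.norm_eq_abs]; ring
    _ ≤ |pd 0 f y| * ‖v‖ + |pd 1 f y| * ‖v‖ := by gcongr
    _ = (|pd 0 f y| + |pd 1 f y|) * ‖v‖ := by ring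

end FLAT

open FLAT

theorem flat : FLATStm := by
  intro c r s hs hsr f hf hfl N
  induction N generalizing f with
  | zero =>
    have hcont : ContinuousOn f (closedBall c s) :=
      hf.continuousOn.mono (closedBall_subset_ball hsr)
    obtain ⟨C, hC⟩ := (isCompact_closedBall c s).exists_bound_of_continuousOn hcont
    exact ⟨C, fun x hx => by simpa using hC x hx⟩
  | succ N ih =>
    obtain ⟨C0, h0⟩ := ih (pd 0 f) (pd_smooth isOpen_ball hf 0)
      (fun l => by rw [dl_append]; exact hfl _)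
    obtain ⟨C1, h1⟩ := ih (pd 1 f) (pd_smooth isOpen_ball hf 1)
      (fun l => by rw [dl_append]; exact hfl _)
    refine ⟨|C0| + |C1|, fun x hx => ?_⟩
    have hxs : ‖x - c‖ ≤ s := by rw [← dist_eq_norm]; exact hx
    have hsub : closedBall c ‖x - c‖ ⊆ closedBall c s := closedBall_subset_closedBall hxs
    have hsub2 : closedBall c ‖x - c‖ ⊆ ball c r := hsub.trans (closedBall_subset_ball hsr)
    have key := Convex.norm_image_sub_le_of_norm_fderiv_le (𝕜 := ℝ) (f := f)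
      (s := closedBall c ‖x - c‖) (C := (|C0| + |C1|) * ‖x - c‖ ^ N) (x := c) (y := x)
      (fun y hy => ((hf y (hsub2 hy)).contDiffAt (isOpen_ball.mem_nhds (hsub2 hy))).differentiableAt
        (by simp))
      (fun y hy => by
        have hy' : ‖y - c‖ ≤ ‖x - c‖ := by rw [← dist_eq_norm y]; exact hy
        calc ‖fderiv ℝ f y‖ ≤ |pd 0 f y| + |pd 1 f y| := norm_fderiv_le f y
          _ ≤ C0 * ‖y - c‖ ^ N + C1 * ‖y - c‖ ^ N := add_le_add (h0 y (hsub hy)) (h1 y (hsub hy))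
          _ ≤ |C0| * ‖y - c‖ ^ N + |C1| * ‖y - c‖ ^ N := by
              gcongr <;> exact le_abs_self _
          _ ≤ |C0| * ‖x - c‖ ^ N + |C1| * ‖x - c‖ ^ N := by gcongr
          _ = (|C0| + |C1|) * ‖x - c‖ ^ N := by ring)
      (convex_closedBall _ _) (mem_closedBall_self (norm_nonneg _))
      (by rw [mem_closedBall, dist_eq_norm])
    have hc : f c = 0 := hfl []
    rw [hc, sub_zero, Real.norm_eq_abs] at key
    calc |f x| ≤ _ := key
      _ = (|C0| + |C1|) * ‖x - c‖ ^ (N + 1) := by ring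

end Pool.Agent.T6.H85.NL
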