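import Pool.Agent.T6.H85.NL.Stm

/-!
# Nodal length of planar waves: strong unique continuation (module SUC)
-/

set_option autoImplicit false
open MeasureTheory Metric Filter Topology Real
open scoped ContDiff ENNReal NNReal

namespace Pool.Agent.T6.H85.NL

namespace SUC

lemma two_le : (2 : WithTop ℕ∞) ≤ ((⊤ : ℕ∞) : WithTop ℕ∞) := by
  exact WithTop.coe_le_coe.2 (le_top : (2 : ℕ∞) ≤ ⊤)

lemma pd_congr {f g : E → ℝ} {x : E} (h : f =ᶠ[𝓝 x] g) (i : Fin 2) : pd i f x = pd i g x := by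
  unfold pd; rw [h.fderiv_eq]

lemma pd_congr' {f g : E → ℝ} {x : E} (h : f =ᶠ[𝓝 x] g) (i : Fin 2) : pd i f =ᶠ[𝓝 x] pd i g := by
  filter_upwards [h.fderiv (𝕜 := ℝ)] with y hy
  unfold pd; rw [hy]

lemma lap_congr {f g : E → ℝ} {x : E} (h : f =ᶠ[𝓝 x] g) : lap f x = lap g x := by
  unfold lap
  rw [pd_congr (pd_congr' h 0) 0, pd_congr (pd_congr' h 1) 1]

lemma pd_const (a : ℝ) (i : Fin 2) : pd i (fun _ : E => a) = fun _ => 0 := by
  funext x; simp [pd]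

lemma lap_const (a : ℝ) (x : E) : lap (fun _ : E => a) x = 0 := by
  unfold lap; rw [pd_const, pd_const, pd_const, pd_const]; simp

lemma cd_pd {n : WithTop ℕ∞} {m : WithTop ℕ∞} (hmn : m + 1 ≤ n) {f : E → ℝ} {x : E}
    (hf : ContDiffAt ℝ n f x) (i : Fin 2) :
    ContDiffAt ℝ m (pd i f) x := (hf.fderiv_right hmn).clm_apply contDiffAt_const

lemma cont_pd {f : E → ℝ} (hf : ContDiff ℝ ∞ f) (i : Fin 2) : ContDiff ℝ ∞ (pd i f) := by
  rw [contDiff_iff_contDiffAt]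
  exact fun x => cd_pd (by simp) hf.contDiffAt i

lemma cont_lap {f : E → ℝ} (hf : ContDiff ℝ ∞ f) : Continuous (lap f) :=
  ((cont_pd (cont_pd hf 0) 0).continuous).add ((cont_pd (cont_pd hf 1) 1).continuous)

lemma pd_mul {f g : E → ℝ} {x : E} (hf : DifferentiableAt ℝ f x) (hg : DifferentiableAt ℝ g x)
    (i : Fin 2) : pd i (fun y => f y * g y) x = f x * pd i g x + g x * pd i f x := by
  unfold pd
  rw [fderiv_fun_mul hf hg]
  simp

lemma pd_add {f g : E → ℝ} {x : E} (hf : DifferentiableAt ℝ f x) (hg : DifferentiableAt ℝ g x)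
    (i : Fin 2) : pd i (fun y => f y + g y) x = pd i f x + pd i g x := by
  unfold pd
  rw [fderiv_fun_add hf hg]
  simp

lemma pd_sub {f g : E → ℝ} {x : E} (hf : DifferentiableAt ℝ f x) (hg : DifferentiableAt ℝ g x)
    (i : Fin 2) : pd i (fun y => f y - g y) x = pd i f x - pd i g x := by
  unfold pd
  rw [fderiv_fun_sub hf hg]
  simp

lemma ev_diff {f : E → ℝ} {x : E} (hf : ContDiffAt ℝ 2 f x) : ∀ᶠ y in 𝓝 x, DifferentiableAt ℝ f y := by
  filter_upwards [hf.eventually (by simp)] with y hy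
  exact hy.differentiableAt (by norm_num)

lemma pdd {f : E → ℝ} {x : E} (hf : ContDiffAt ℝ 2 f x) (i : Fin 2) :
    DifferentiableAt ℝ (pd i f) x :=
  (cd_pd (m := 1) (by norm_num) hf i).differentiableAt (by norm_num)

lemma pdpd_mul {f g : E → ℝ} {x : E} (hf : ContDiffAt ℝ 2 f x) (hg : ContDiffAt ℝ 2 g x)
    (i : Fin 2) : pd i (pd i (fun y => f y * g y)) x =
      f x * pd i (pd i g) x + 2 * (pd i f x * pd i g x) + g x * pd i (pd i f) x := by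
  have h1 : pd i (fun y => f y * g y) =ᶠ[𝓝 x] fun y => f y * pd i g y + g y * pd i f y := by
    filter_upwards [ev_diff hf, ev_diff hg] with y h1 h2
    exact pd_mul h1 h2 i
  have hfd := hf.differentiableAt (by norm_num : (2 : WithTop ℕ∞) ≠ 0)
  have hgd := hg.differentiableAt (by norm_num : (2 : WithTop ℕ∞) ≠ 0)
  rw [pd_congr h1 i, pd_add (f := fun y => f y * pd i g y) (g := fun y => g y * pd i f y)
    (hfd.mul (pdd hg i)) (hgd.mul (pdd hf i)), pd_mul hfd (pdd hg i), pd_mul hgd (pdd hf i)]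
  ring

lemma lap_mul {f g : E → ℝ} {x : E} (hf : ContDiffAt ℝ 2 f x) (hg : ContDiffAt ℝ 2 g x) :
    lap (fun y => f y * g y) x =
      f x * lap g x + 2 * (pd 0 f x * pd 0 g x + pd 1 f x * pd 1 g x) + g x * lap f x := by
  unfold lap
  rw [pdpd_mul hf hg, pdpd_mul hf hg]
  ring

lemma pdpd_sub {f g : E → ℝ} {x : E} (hf : ContDiffAt ℝ 2 f x) (hg : ContDiffAt ℝ 2 g x)
    (i : Fin 2) : pd i (pd i (fun y => f y - g y)) x = pd i (pd i f) x - pd i (pd i g) x := by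
  have h1 : pd i (fun y => f y - g y) =ᶠ[𝓝 x] fun y => pd i f y - pd i g y := by
    filter_upwards [ev_diff hf, ev_diff hg] with y h1 h2
    exact pd_sub h1 h2 i
  rw [pd_congr h1 i, pd_sub (pdd hf i) (pdd hg i)]

lemma lap_sub {f g : E → ℝ} {x : E} (hf : ContDiffAt ℝ 2 f x) (hg : ContDiffAt ℝ 2 g x) :
    lap (fun y => f y - g y) x = lap f x - lap g x := by
  unfold lap
  rw [pdpd_sub hf hg, pdpd_sub hf hg]
  ring

lemma pd_scale (f : E → ℝ) (a : ℝ) (i : Fin 2) :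
    pd i (fun y => f (a • y)) = fun y => a * pd i f (a • y) := by
  funext x
  unfold pd
  rw [fderiv_comp_smul]
  simp

lemma pd_cmul (f : E → ℝ) (a : ℝ) (i : Fin 2) :
    pd i (fun y => a * f y) = fun y => a * pd i f y := by
  funext x
  unfold pd
  have h2 : (fun y => a * f y) = a • f := rfl
  rw [h2, fderiv_const_smul_field]
  simp

lemma lap_scale (f : E → ℝ) (a : ℝ) (x : E) :
    lap (fun y => f (a • y)) x = a ^ 2 * lap f (a • x) := by
  unfold lap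
  rw [pd_scale, pd_scale, pd_cmul (fun y => pd 0 f (a • y)), pd_cmul (fun y => pd 1 f (a • y)),
    pd_scale, pd_scale]
  ring

lemma pd_trans (f : E → ℝ) (c : E) (i : Fin 2) :
    pd i (fun y => f (y + c)) = fun y => pd i f (y + c) := by
  funext x
  unfold pd
  rw [fderiv_comp_add_right]

lemma lap_trans (f : E → ℝ) (c x : E) :
    lap (fun y => f (y + c)) x = lap f (x + c) := by
  unfold lap
  rw [pd_trans, pd_trans, pd_trans, pd_trans]

lemma vol_ball (x : E) {ρ : ℝ} (hρ : 0 ≤ ρ) : (volume : Measure E).real (ball x ρ) = π * ρ ^ 2 := by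
  rw [Measure.real, EuclideanSpace.volume_ball_fin_two]
  rw [ENNReal.toReal_mul, ENNReal.toReal_pow, ENNReal.toReal_ofReal hρ]
  simp [mul_comm, Real.pi_pos.le]

lemma int_ind (x : E) {ρ : ℝ} (hρ : 0 ≤ ρ) (A : ℝ) :
    ∫ y, (ball x ρ).indicator (fun _ : E => A) y = A * (π * ρ ^ 2) := by
  rw [integral_indicator measurableSet_ball, setIntegral_const, vol_ball x hρ, smul_eq_mul]
  ring

lemma int_ind' (x : E) {ρ : ℝ} (A : ℝ) :
    Integrable ((ball x ρ).indicator (fun _ : E => A)) := by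
  rw [integrable_indicator_iff measurableSet_ball]
  exact integrableOn_const (by exact measure_ball_lt_top.ne) (by simp)

lemma weight_cont {g : E → ℝ} (hg : Continuous g) (h0 : g =ᶠ[𝓝 0] fun _ => 0) (N : ℕ) :
    Continuous fun x : E => g x ^ 2 / ‖x‖ ^ (2 * N) := by
  rw [continuous_iff_continuousAt]
  intro x
  by_cases hx : x = 0
  · subst hx
    have : (fun x : E => g x ^ 2 / ‖x‖ ^ (2 * N)) =ᶠ[𝓝 0] fun _ => 0 := by
      filter_upwards [h0] with y hy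
      rw [hy]; simp
    exact this.continuousAt
  · exact (hg.continuousAt.pow 2).div (continuousAt_id.norm.pow _)
      (pow_ne_zero _ (by simpa using hx))

lemma weight_int {g : E → ℝ} (hg : Continuous g) (h0 : g =ᶠ[𝓝 0] fun _ => 0) (N : ℕ)
    (hs : HasCompactSupport g) : Integrable fun x : E => g x ^ 2 / ‖x‖ ^ (2 * N) := by
  refine (weight_cont hg h0 N).integrable_of_hasCompactSupport ?_
  refine hs.mono ?_
  intro x hx
  rw [Function.mem_support] at hx ⊢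
  intro h
  apply hx
  rw [h]; simp

/-- the cut-off solution -/
noncomputable def cut (χ ψ : ContDiffBump (0 : E)) (ε : ℝ) (v : E → ℝ) (x : E) : ℝ :=
  (χ x - ψ (ε⁻¹ • x)) * v x

/-- the parameters -/
structure Par (r s ε : ℝ) (χ ψ : ContDiffBump (0 : E)) : Prop where
  hs : 0 < s
  hsr : s ≤ r / 2
  h1 : χ.rIn = s / 2
  h2 : χ.rOut = 3 * s / 4
  h3 : ψ.rIn = 1
  h4 : ψ.rOut = 2
  hε : 0 < ε
  hε1 : ε ≤ 1
  hεs : 3 * ε < s / 2

lemma eta_far {r s ε : ℝ} {χ ψ : ContDiffBump (0 : E)} (h : Par r s ε χ ψ) {x : E}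
    (hx : 3 * s / 4 ≤ ‖x‖) : χ x - ψ (ε⁻¹ • x) = 0 := by
  have hs := h.hs
  have hε := h.hε
  have hεs := h.hεs
  rw [χ.zero_of_le_dist (by rw [h.h2, dist_zero_right]; exact hx),
    ψ.zero_of_le_dist (by
      rw [h.h4, dist_zero_right, norm_smul, norm_inv, Real.norm_eq_abs, abs_of_pos h.hε,
        inv_mul_eq_div, le_div_iff₀ h.hε]
      linarith), sub_zero]

lemma eta_near {r s ε : ℝ} {χ ψ : ContDiffBump (0 : E)} (h : Par r s ε χ ψ) {x : E}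
    (hx : ‖x‖ ≤ ε) : χ x - ψ (ε⁻¹ • x) = 0 := by
  have hs := h.hs
  have hε := h.hε
  have hεs := h.hεs
  rw [χ.one_of_mem_closedBall (by
      rw [h.h1, mem_closedBall, dist_zero_right]; linarith),
    ψ.one_of_mem_closedBall (by
      rw [h.h3, mem_closedBall, dist_zero_right, norm_smul, norm_inv, Real.norm_eq_abs,
        abs_of_pos h.hε, inv_mul_eq_div, div_le_iff₀ h.hε]
      linarith), sub_self]

lemma eta_mid {r s ε : ℝ} {χ ψ : ContDiffBump (0 : E)} (h : Par r s ε χ ψ) {x : E}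
    (hx : 2 * ε ≤ ‖x‖) (hx2 : ‖x‖ ≤ s / 2) : χ x - ψ (ε⁻¹ • x) = 1 := by
  have hs := h.hs
  have hε := h.hε
  have hεs := h.hεs
  rw [χ.one_of_mem_closedBall (by
      rw [h.h1, mem_closedBall, dist_zero_right]; linarith),
    ψ.zero_of_le_dist (by
      rw [h.h4, dist_zero_right, norm_smul, norm_inv, Real.norm_eq_abs, abs_of_pos h.hε,
        inv_mul_eq_div, le_div_iff₀ h.hε]
      linarith), sub_zero]

lemma cut_far {r s ε : ℝ} {χ ψ : ContDiffBump (0 : E)} (h : Par r s ε χ ψ) (v : E → ℝ) {x : E}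
    (hx : 3 * s / 4 < ‖x‖) : cut χ ψ ε v =ᶠ[𝓝 x] fun _ => 0 := by
  have : ∀ᶠ y : E in 𝓝 x, 3 * s / 4 < ‖y‖ := (continuous_norm.tendsto x).eventually_const_lt hx
  filter_upwards [this] with y hy
  rw [cut, eta_far h hy.le, zero_mul]

lemma cut_zero {r s ε : ℝ} {χ ψ : ContDiffBump (0 : E)} (h : Par r s ε χ ψ) (v : E → ℝ) :
    cut χ ψ ε v =ᶠ[𝓝 0] fun _ => 0 := by
  have : ∀ᶠ y : E in 𝓝 0, ‖y‖ < ε := (continuous_norm.tendsto 0).eventually_lt_const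
    (by simpa using h.hε)
  filter_upwards [this] with y hy
  rw [cut, eta_near h hy.le, zero_mul]

lemma psi_cd (ψ : ContDiffBump (0 : E)) (ε : ℝ) : ContDiff ℝ ∞ fun x : E => ψ (ε⁻¹ • x) :=
  (ψ.contDiff (n := (⊤ : ℕ∞))).comp (contDiff_const_smul _)

lemma eta_cd (χ ψ : ContDiffBump (0 : E)) (ε : ℝ) :
    ContDiff ℝ ∞ fun x : E => χ x - ψ (ε⁻¹ • x) :=
  χ.contDiff.sub (psi_cd ψ ε)

lemma cut_cd {r s ε : ℝ} {χ ψ : ContDiffBump (0 : E)} (h : Par r s ε χ ψ) {v : E → ℝ}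
    (hv : ContDiffOn ℝ ∞ v (ball 0 r)) : ContDiff ℝ ∞ (cut χ ψ ε v) := by
  rw [contDiff_iff_contDiffAt]
  intro x
  by_cases hx : 3 * s / 4 < ‖x‖
  · exact contDiffAt_const.congr_of_eventuallyEq (cut_far h v hx)
  · have hx2 : x ∈ ball (0 : E) r := by
      rw [mem_ball_zero_iff]
      have := h.hs
      have := h.hsr
      linarith
    exact (eta_cd χ ψ ε).contDiffAt.mul (hv.contDiffAt (isOpen_ball.mem_nhds hx2))

lemma cut_supp {r s ε : ℝ} {χ ψ : ContDiffBump (0 : E)} (h : Par r s ε χ ψ) (v : E → ℝ) :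
    tsupport (cut χ ψ ε v) ⊆ closedBall 0 (3 * s / 4) := by
  refine closure_minimal ?_ isClosed_closedBall
  intro x hx
  rw [Function.mem_support] at hx
  rw [mem_closedBall_zero_iff]
  by_contra hx2
  push Not at hx2
  exact hx (by rw [cut, eta_far h hx2.le, zero_mul])

lemma cut_cpt {r s ε : ℝ} {χ ψ : ContDiffBump (0 : E)} (h : Par r s ε χ ψ) (v : E → ℝ) :
    HasCompactSupport (cut χ ψ ε v) :=
  HasCompactSupport.intro (isCompact_closedBall (0 : E) (3 * s / 4)) (fun x hx => by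
    by_contra h2
    exact hx (cut_supp h v (subset_tsupport _ h2)))

lemma lap_cut {r ε : ℝ} (χ ψ : ContDiffBump (0 : E)) {v : E → ℝ}
    (hv : ContDiffOn ℝ ∞ v (ball 0 r)) {x : E} (hx : x ∈ ball (0 : E) r) :
    lap (cut χ ψ ε v) x = (χ x - ψ (ε⁻¹ • x)) * lap v x +
      (2 * (pd 0 χ x * pd 0 v x + pd 1 χ x * pd 1 v x) + v x * lap χ x) -
      (2 * (ε⁻¹ * pd 0 ψ (ε⁻¹ • x) * pd 0 v x + ε⁻¹ * pd 1 ψ (ε⁻¹ • x) * pd 1 v x) +
        v x * ((ε⁻¹) ^ 2 * lap ψ (ε⁻¹ • x))) := by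
  have hv2 : ContDiffAt ℝ 2 v x := (hv.contDiffAt (isOpen_ball.mem_nhds hx)).of_le
    two_le
  have hχ2 : ContDiffAt ℝ 2 (fun y : E => χ y) x := (χ.contDiff (n := 2)).contDiffAt
  have hψ2 : ContDiffAt ℝ 2 (fun y : E => ψ (ε⁻¹ • y)) x :=
    (psi_cd ψ ε).contDiffAt.of_le two_le
  have hη : ContDiffAt ℝ 2 (fun y : E => χ y - ψ (ε⁻¹ • y)) x := hχ2.sub hψ2
  have h1 := lap_mul hη hv2
  have h2 := lap_sub hχ2 hψ2
  have e2 : (2 : WithTop ℕ∞) ≠ 0 := by norm_num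
  have h3 := fun i => pd_sub (hχ2.differentiableAt e2) (hψ2.differentiableAt e2) i
  have h4 : lap (cut χ ψ ε v) x = lap (fun y => (χ y - ψ (ε⁻¹ • y)) * v y) x := rfl
  rw [h4, h1, h2, h3 0, h3 1, lap_scale (fun y => ψ y), pd_scale (fun y => ψ y),
    pd_scale (fun y => ψ y)]
  ring

lemma sq_bound (a b c : ℝ) : (a + b - c) ^ 2 ≤ 2 * a ^ 2 + 4 * b ^ 2 + 4 * c ^ 2 := by
  nlinarith [sq_nonneg (a - (b - c)), sq_nonneg (b + c)]

lemma pointwise {r s ε M P C0 C : ℝ} {χ ψ : ContDiffBump (0 : E)} (h : Par r s ε χ ψ) {v : E → ℝ}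
    (hv : ContDiffOn ℝ ∞ v (ball 0 r))
    (hlap : ∀ x ∈ ball (0 : E) r, |lap v x| ≤ M * |v x|)
    (hP : 0 ≤ P) (hPχ : ∀ i x, |pd i χ x| ≤ P) (hPχ2 : ∀ x, |lap χ x| ≤ P)
    (hPψ : ∀ i x, |pd i ψ x| ≤ P) (hPψ2 : ∀ x, |lap ψ x| ≤ P) (N : ℕ)
    (hC0 : ∀ x ∈ ball (0 : E) (r / 2), |v x| ≤ C0 ∧ ∀ i, |pd i v x| ≤ C0)
    (hC : ∀ x ∈ ball (0 : E) (r / 2), |v x| ≤ C * ‖x‖ ^ (N + 2) ∧
      ∀ i, |pd i v x| ≤ C * ‖x‖ ^ (N + 2)) (x : E) :
    lap (cut χ ψ ε v) x ^ 2 / ‖x‖ ^ (2 * N) ≤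
      2 * M ^ 2 * (cut χ ψ ε v x ^ 2 / ‖x‖ ^ (2 * N)) +
      (ball (0 : E) s).indicator (fun _ => 4 * (5 * P * C0) ^ 2 / (s / 2) ^ (2 * N)) x +
      (ball (0 : E) (3 * ε)).indicator (fun _ => 324 * (5 * P * C) ^ 2) x := by
  have hs := h.hs
  have hsr := h.hsr
  have hε := h.hε
  have hε1 := h.hε1
  have hεs := h.hεs
  have hi1 : 0 ≤ (ball (0 : E) s).indicator
      (fun _ => 4 * (5 * P * C0) ^ 2 / (s / 2) ^ (2 * N)) x :=
    Set.indicator_nonneg (fun _ _ => by positivity) _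
  have hi2 : 0 ≤ (ball (0 : E) (3 * ε)).indicator (fun _ => 324 * (5 * P * C) ^ 2) x :=
    Set.indicator_nonneg (fun _ _ => by positivity) _
  by_cases hxs : 3 * s / 4 < ‖x‖
  · have h1 : lap (cut χ ψ ε v) x = 0 := by
      rw [lap_congr (cut_far h v hxs), lap_const]
    rw [h1]
    have : 0 ≤ 2 * M ^ 2 * (cut χ ψ ε v x ^ 2 / ‖x‖ ^ (2 * N)) := by positivity
    have h0 : (0 : ℝ) ^ 2 / ‖x‖ ^ (2 * N) = 0 := by simp
    linarith
  push Not at hxs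
  have hxr : x ∈ ball (0 : E) r := by rw [mem_ball_zero_iff]; linarith
  have hxr2 : x ∈ ball (0 : E) (r / 2) := by rw [mem_ball_zero_iff]; linarith
  have hxs1 : x ∈ ball (0 : E) s := by rw [mem_ball_zero_iff]; linarith
  rw [lap_cut χ ψ hv hxr]
  set A := (χ x - ψ (ε⁻¹ • x)) * lap v x with hA
  set B := 2 * (pd 0 χ x * pd 0 v x + pd 1 χ x * pd 1 v x) + v x * lap χ x with hB
  set D := 2 * (ε⁻¹ * pd 0 ψ (ε⁻¹ • x) * pd 0 v x + ε⁻¹ * pd 1 ψ (ε⁻¹ • x) * pd 1 v x) +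
        v x * ((ε⁻¹) ^ 2 * lap ψ (ε⁻¹ • x)) with hD
  have hw : 0 ≤ ‖x‖ ^ (2 * N) := by positivity
  have h1 : (A + B - D) ^ 2 / ‖x‖ ^ (2 * N) ≤
      2 * (A ^ 2 / ‖x‖ ^ (2 * N)) + 4 * (B ^ 2 / ‖x‖ ^ (2 * N)) + 4 * (D ^ 2 / ‖x‖ ^ (2 * N)) := by
    have := div_le_div_of_nonneg_right (sq_bound A B D) hw
    refine this.trans (le_of_eq ?_)
    ring
  have hA2 : A ^ 2 ≤ M ^ 2 * cut χ ψ ε v x ^ 2 := by
    have e1 : |A| ≤ M * |cut χ ψ ε v x| := by
      rw [hA, abs_mul, cut, abs_mul]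
      calc _ ≤ |χ x - ψ (ε⁻¹ • x)| * (M * |v x|) := by gcongr; exact hlap x hxr
        _ = _ := by ring
    have e2 := pow_le_pow_left₀ (abs_nonneg _) e1 2
    calc A ^ 2 = |A| ^ 2 := (sq_abs A).symm
      _ ≤ _ := e2
      _ = _ := by rw [mul_pow M, sq_abs]
  have hA3 : 2 * (A ^ 2 / ‖x‖ ^ (2 * N)) ≤ 2 * M ^ 2 * (cut χ ψ ε v x ^ 2 / ‖x‖ ^ (2 * N)) := by
    have := div_le_div_of_nonneg_right hA2 hw
    calc 2 * (A ^ 2 / ‖x‖ ^ (2 * N)) ≤ 2 * (M ^ 2 * cut χ ψ ε v x ^ 2 / ‖x‖ ^ (2 * N)) := by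
          linarith
      _ = _ := by ring
  have hC0n : 0 ≤ C0 := (abs_nonneg _).trans (hC0 x hxr2).1
  have hB3 : 4 * (B ^ 2 / ‖x‖ ^ (2 * N)) ≤
      (ball (0 : E) s).indicator (fun _ => 4 * (5 * P * C0) ^ 2 / (s / 2) ^ (2 * N)) x := by
    rw [Set.indicator_of_mem hxs1]
    by_cases hx2 : ‖x‖ < s / 2
    · have e1 : (fun y : E => χ y) =ᶠ[𝓝 x] fun _ => 1 :=
        χ.eventuallyEq_one_of_mem_ball (by rw [h.h1, mem_ball_zero_iff]; exact hx2)
      have e2 : ∀ i, pd i (fun y : E => χ y) x = 0 := fun i => by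
        rw [pd_congr e1 i, pd_const]
      have e3 : lap (fun y : E => χ y) x = 0 := by rw [lap_congr e1, lap_const]
      have e4 : B = 0 := by
        have e20 := e2 0
        have e21 := e2 1
        rw [hB]
        rw [show pd 0 χ x = 0 from e20, show pd 1 χ x = 0 from e21, show lap χ x = 0 from e3]
        ring
      rw [e4]
      simp only [ne_eq, OfNat.ofNat_ne_zero, not_false_eq_true, zero_pow, zero_div, mul_zero]
      positivity
    · push Not at hx2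
      have e1 : |B| ≤ 5 * P * C0 := by
        have q0 := mul_le_mul (hPχ 0 x) ((hC0 x hxr2).2 0) (abs_nonneg _) hP
        have q1 := mul_le_mul (hPχ 1 x) ((hC0 x hxr2).2 1) (abs_nonneg _) hP
        have q2 := mul_le_mul (hC0 x hxr2).1 (hPχ2 x) (abs_nonneg _) hC0n
        rw [← abs_mul] at q0 q1 q2
        rw [hB]
        rw [abs_le] at q0 q1 q2 ⊢
        constructor <;> nlinarith
      have e2 : B ^ 2 ≤ (5 * P * C0) ^ 2 := by
        rw [← sq_abs B]; exact pow_le_pow_left₀ (abs_nonneg _) e1 2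
      have e3 : (s / 2) ^ (2 * N) ≤ ‖x‖ ^ (2 * N) := pow_le_pow_left₀ (by positivity) hx2 _
      have e4 : B ^ 2 / ‖x‖ ^ (2 * N) ≤ (5 * P * C0) ^ 2 / (s / 2) ^ (2 * N) :=
        div_le_div₀ (by positivity) e2 (by positivity) e3
      calc 4 * (B ^ 2 / ‖x‖ ^ (2 * N)) ≤ 4 * ((5 * P * C0) ^ 2 / (s / 2) ^ (2 * N)) := by linarith
        _ = _ := by ring
  have hD3 : 4 * (D ^ 2 / ‖x‖ ^ (2 * N)) ≤
      (ball (0 : E) (3 * ε)).indicator (fun _ => 324 * (5 * P * C) ^ 2) x := by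
    by_cases hx2 : ‖x‖ < 3 * ε
    · rw [Set.indicator_of_mem (by rw [mem_ball_zero_iff]; exact hx2)]
      set n := ‖x‖ ^ (N + 2) with hn
      have hn0 : 0 ≤ n := by positivity
      have hei : 1 ≤ ε⁻¹ := (one_le_inv₀ hε).2 hε1
      have hCn : 0 ≤ C * n := (abs_nonneg _).trans (hC x hxr2).1
      have e1 : |D| ≤ 5 * P * (ε⁻¹) ^ 2 * (C * n) := by
        have q0 := mul_le_mul (hPψ 0 (ε⁻¹ • x)) ((hC x hxr2).2 0) (abs_nonneg _) hP
        have q1 := mul_le_mul (hPψ 1 (ε⁻¹ • x)) ((hC x hxr2).2 1) (abs_nonneg _) hP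
        have q2 := mul_le_mul (hC x hxr2).1 (hPψ2 (ε⁻¹ • x)) (abs_nonneg _) hCn
        rw [← abs_mul] at q0 q1 q2
        have q3 : ε⁻¹ ≤ (ε⁻¹) ^ 2 := by nlinarith
        have t1 : |D| ≤ 2 * (ε⁻¹ * (P * (C * n)) + ε⁻¹ * (P * (C * n))) +
            (ε⁻¹) ^ 2 * (C * n * P) := by
          have r1 : D = 2 * (ε⁻¹ * (pd 0 ψ (ε⁻¹ • x) * pd 0 v x) +
              ε⁻¹ * (pd 1 ψ (ε⁻¹ • x) * pd 1 v x)) + (ε⁻¹) ^ 2 * (v x * lap ψ (ε⁻¹ • x)) := by
            rw [hD]; ring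
          rw [r1]
          refine (abs_add_le _ _).trans (add_le_add ?_ ?_)
          · rw [abs_mul, abs_two]
            refine mul_le_mul_of_nonneg_left ((abs_add_le _ _).trans (add_le_add ?_ ?_)) zero_le_two
            · rw [abs_mul, abs_of_pos (inv_pos.2 hε)]
              exact mul_le_mul_of_nonneg_left q0 (inv_pos.2 hε).le
            · rw [abs_mul, abs_of_pos (inv_pos.2 hε)]
              exact mul_le_mul_of_nonneg_left q1 (inv_pos.2 hε).le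
          · rw [abs_mul, abs_of_nonneg (by positivity : (0:ℝ) ≤ (ε⁻¹) ^ 2)]
            exact mul_le_mul_of_nonneg_left q2 (by positivity)
        have t2 : 0 ≤ P * (C * n) := mul_nonneg hP hCn
        nlinarith [mul_le_mul_of_nonneg_right q3 t2]
      have e2 : D ^ 2 ≤ (5 * P * (ε⁻¹) ^ 2 * (C * n)) ^ 2 := by
        rw [← sq_abs D]; exact pow_le_pow_left₀ (abs_nonneg _) e1 2
      have e3 : D ^ 2 / ‖x‖ ^ (2 * N) ≤ 81 * (5 * P * C) ^ 2 := by
        refine div_le_of_le_mul₀ hw (by positivity) (e2.trans ?_)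
        have e4 : (ε⁻¹ * ‖x‖) ^ 4 ≤ 3 ^ 4 := by
          refine pow_le_pow_left₀ (by positivity) ?_ 4
          rw [inv_mul_eq_div, div_le_iff₀ hε]
          exact hx2.le
        have e5 : (5 * P * (ε⁻¹) ^ 2 * (C * n)) ^ 2 =
            (ε⁻¹ * ‖x‖) ^ 4 * ((5 * P * C) ^ 2 * ‖x‖ ^ (2 * N)) := by
          rw [hn]; ring
        rw [e5]
        have e6 : 0 ≤ (5 * P * C) ^ 2 * ‖x‖ ^ (2 * N) := by positivity
        nlinarith [mul_le_mul_of_nonneg_right e4 e6]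
      linarith
    · rw [Set.indicator_of_notMem (by rw [mem_ball_zero_iff]; exact hx2)]
      push Not at hx2
      have e0 : ε⁻¹ • x ∉ tsupport (fun y : E => ψ y) := by
        have := ψ.tsupport_eq
        rw [show tsupport (fun y : E => ψ y) = tsupport ψ from rfl, this, h.h4,
          mem_closedBall_zero_iff, norm_smul, norm_inv, Real.norm_eq_abs, abs_of_pos hε,
          inv_mul_eq_div, div_le_iff₀ hε]
        push Not
        linarith
      have e1 : (fun y : E => ψ y) =ᶠ[𝓝 (ε⁻¹ • x)] fun _ => 0 :=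
        notMem_tsupport_iff_eventuallyEq.1 e0
      have e2 : ∀ i, pd i (fun y : E => ψ y) (ε⁻¹ • x) = 0 := fun i => by
        rw [pd_congr e1 i, pd_const]
      have e3 : lap (fun y : E => ψ y) (ε⁻¹ • x) = 0 := by rw [lap_congr e1, lap_const]
      have e4 : D = 0 := by
        rw [hD]
        rw [show pd 0 ψ (ε⁻¹ • x) = 0 from e2 0, show pd 1 ψ (ε⁻¹ • x) = 0 from e2 1,
          show lap ψ (ε⁻¹ • x) = 0 from e3]
        ring
      rw [e4]
      simp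
  linarith

lemma bounded {g : E → ℝ} (hg : Continuous g) (hs : HasCompactSupport g) :
    ∃ C, ∀ x, |g x| ≤ C := hs.exists_bound_of_continuous hg

lemma supp_pd {f : E → ℝ} (hf : HasCompactSupport f) (i : Fin 2) : HasCompactSupport (pd i f) :=
  hf.fderiv_apply (𝕜 := ℝ) _

lemma supp_lap {f : E → ℝ} (hf : HasCompactSupport f) : HasCompactSupport (lap f) :=
  (supp_pd (supp_pd hf 0) 0).add (supp_pd (supp_pd hf 1) 1)

lemma bump_bound (χ : ContDiffBump (0 : E)) : ∃ P, 0 ≤ P ∧ (∀ i x, |pd i χ x| ≤ P) ∧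
    ∀ x, |lap χ x| ≤ P := by
  have h1 : ContDiff ℝ ∞ (fun y : E => χ y) := χ.contDiff (n := (⊤ : ℕ∞))
  have hs : HasCompactSupport (fun y : E => χ y) := χ.hasCompactSupport
  obtain ⟨P0, h0⟩ := bounded (cont_pd h1 0).continuous (supp_pd hs 0)
  obtain ⟨P1, h1'⟩ := bounded (cont_pd h1 1).continuous (supp_pd hs 1)
  obtain ⟨P2, h2⟩ := bounded (cont_lap h1) (supp_lap hs)
  refine ⟨max P0 (max P1 P2), ?_, fun i x => ?_, fun x => ?_⟩
  · exact (abs_nonneg _).trans ((h0 0).trans (le_max_left _ _))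
  · fin_cases i
    · exact (h0 x).trans (le_max_left _ _)
    · exact (h1' x).trans ((le_max_left _ _).trans (le_max_right _ _))
  · exact (h2 x).trans ((le_max_right _ _).trans (le_max_right _ _))

lemma key (hCarl : CARLStm) {r s ε M P C0 C : ℝ} {χ ψ : ContDiffBump (0 : E)}
    (h : Par r s ε χ ψ) {v : E → ℝ} (hv : ContDiffOn ℝ ∞ v (ball 0 r))
    (hMs : 2 * M ^ 2 * (4 * s ^ 2) ^ 2 ≤ 1 / 2)
    (hlap : ∀ x ∈ ball (0 : E) r, |lap v x| ≤ M * |v x|)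
    (hP : 0 ≤ P) (hPχ : ∀ i x, |pd i χ x| ≤ P) (hPχ2 : ∀ x, |lap χ x| ≤ P)
    (hPψ : ∀ i x, |pd i ψ x| ≤ P) (hPψ2 : ∀ x, |lap ψ x| ≤ P) (N : ℕ)
    (hC0 : ∀ x ∈ ball (0 : E) (r / 2), |v x| ≤ C0 ∧ ∀ i, |pd i v x| ≤ C0)
    (hC : ∀ x ∈ ball (0 : E) (r / 2), |v x| ≤ C * ‖x‖ ^ (N + 2) ∧
      ∀ i, |pd i v x| ≤ C * ‖x‖ ^ (N + 2))
    {x₀ : E} {ρ m : ℝ} (hρ : 0 ≤ ρ) (hm : 0 ≤ m)
    (h1 : ∀ x ∈ ball x₀ ρ, 2 * ε ≤ ‖x‖ ∧ ‖x‖ ≤ s / 4 ∧ m ≤ |v x|) :
    m ^ 2 / (s / 4) ^ (2 * N) * (π * ρ ^ 2) ≤ 2 * (4 * s ^ 2) ^ 2 *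
      (4 * (5 * P * C0) ^ 2 / (s / 2) ^ (2 * N) * (π * s ^ 2) +
        324 * (5 * P * C) ^ 2 * (π * (3 * ε) ^ 2)) := by
  have hs := h.hs
  have hε := h.hε
  set f := cut χ ψ ε v with hf
  have hfc : ContDiff ℝ ∞ f := cut_cd h hv
  have hsup : tsupport f ⊆ ball 0 s :=
    (cut_supp h v).trans (closedBall_subset_ball (by linarith))
  have hz : f =ᶠ[𝓝 0] fun _ => 0 := cut_zero h v
  have h0 : (0 : E) ∉ tsupport f := notMem_tsupport_iff_eventuallyEq.2 hz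
  have hcpt : HasCompactSupport f := cut_cpt h v
  have hcarl := hCarl s hs N f hfc hsup h0
  have hI1 : Integrable fun x : E => f x ^ 2 / ‖x‖ ^ (2 * N) := weight_int hfc.continuous hz N hcpt
  have hlz : lap f =ᶠ[𝓝 0] fun _ => 0 := by
    have := hz.eventuallyEq_nhds
    filter_upwards [this] with y hy
    rw [lap_congr hy, lap_const]
  have hI2 : Integrable fun x : E => lap f x ^ 2 / ‖x‖ ^ (2 * N) :=
    weight_int (cont_lap hfc) hlz N (supp_lap hcpt)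
  have hup : ∫ x, lap f x ^ 2 / ‖x‖ ^ (2 * N) ≤
      2 * M ^ 2 * (∫ x, f x ^ 2 / ‖x‖ ^ (2 * N)) +
      4 * (5 * P * C0) ^ 2 / (s / 2) ^ (2 * N) * (π * s ^ 2) +
        324 * (5 * P * C) ^ 2 * (π * (3 * ε) ^ 2) := by
    have i1 : Integrable fun x : E => 2 * M ^ 2 * (f x ^ 2 / ‖x‖ ^ (2 * N)) := hI1.const_mul _
    have i2 := int_ind' (0 : E) (ρ := s) (4 * (5 * P * C0) ^ 2 / (s / 2) ^ (2 * N))
    have i3 := int_ind' (0 : E) (ρ := 3 * ε) (324 * (5 * P * C) ^ 2)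
    have i4 := integral_mono hI2 ((i1.add i2).add i3)
      (fun x => pointwise h hv hlap hP hPχ hPχ2 hPψ hPψ2 N hC0 hC x)
    rw [integral_add' (i1.add i2) i3, integral_add' i1 i2, integral_const_mul,
      int_ind (0 : E) hs.le, int_ind (0 : E) (by positivity : 0 ≤ 3 * ε)] at i4
    exact i4
  have hlow : m ^ 2 / (s / 4) ^ (2 * N) * (π * ρ ^ 2) ≤ ∫ x, f x ^ 2 / ‖x‖ ^ (2 * N) := by
    rw [← int_ind x₀ hρ]
    refine integral_mono (int_ind' _ _) hI1 ?_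
    intro x
    by_cases hx : x ∈ ball x₀ ρ
    · simp only [Set.indicator_of_mem hx]
      obtain ⟨a1, a2, a3⟩ := h1 x hx
      have e1 : f x = v x := by
        rw [hf, cut, eta_mid h a1 (by linarith), one_mul]
      rw [e1]
      have e2 : 0 < ‖x‖ := by linarith
      refine div_le_div₀ (sq_nonneg _) ?_ (by positivity) (pow_le_pow_left₀ e2.le a2 _)
      rw [← sq_abs (v x)]
      exact pow_le_pow_left₀ hm a3 2
    · simp only [Set.indicator_of_notMem hx]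
      positivity
  set I := ∫ x, f x ^ 2 / ‖x‖ ^ (2 * N) with hI
  have hIn : 0 ≤ I := integral_nonneg fun x => by positivity
  set J := ∫ x, lap f x ^ 2 / ‖x‖ ^ (2 * N) with hJ
  set A1 := 4 * (5 * P * C0) ^ 2 / (s / 2) ^ (2 * N) * (π * s ^ 2) with hA1
  set A2 := 324 * (5 * P * C) ^ 2 * (π * (3 * ε) ^ 2) with hA2
  have hK : 0 ≤ (4 * s ^ 2) ^ 2 := by positivity
  have e1 : I ≤ (4 * s ^ 2) ^ 2 * (2 * M ^ 2 * I + A1 + A2) :=
    hcarl.trans (mul_le_mul_of_nonneg_left hup hK)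
  have e2 : 2 * M ^ 2 * (4 * s ^ 2) ^ 2 * I ≤ 1 / 2 * I := mul_le_mul_of_nonneg_right hMs hIn
  nlinarith

lemma main (hCarl : CARLStm) {r M : ℝ} (hr : 0 < r) {v : E → ℝ}
    (hv : ContDiffOn ℝ ∞ v (ball 0 r))
    (hlap : ∀ x ∈ ball (0 : E) r, |lap v x| ≤ M * |v x|)
    (hflat : ∀ N : ℕ, ∃ C : ℝ, ∀ x ∈ ball (0 : E) (r / 2), |v x| ≤ C * ‖x‖ ^ N ∧
      ∀ i, |pd i v x| ≤ C * ‖x‖ ^ N) :
    ∃ s > 0, ∀ x ∈ ball (0 : E) s, v x = 0 := by
  -- the radius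
  have hM1 : 0 < |M| + 1 := by positivity
  obtain ⟨s, hs, hsr, hs1, hsM⟩ : ∃ s : ℝ, 0 < s ∧ s ≤ r / 2 ∧ s ≤ 1 ∧ 8 * (|M| + 1) * s ≤ 1 := by
    refine ⟨min (r / 2) (min 1 (1 / (8 * (|M| + 1)))), by positivity, min_le_left _ _,
      (min_le_right _ _).trans (min_le_left _ _), ?_⟩
    have : min (r / 2) (min 1 (1 / (8 * (|M| + 1)))) ≤ 1 / (8 * (|M| + 1)) :=
      (min_le_right _ _).trans (min_le_right _ _)
    rwa [le_div_iff₀ (by positivity), mul_comm] at this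
  have hMs : 2 * M ^ 2 * (4 * s ^ 2) ^ 2 ≤ 1 / 2 := by
    have e1 : (8 * (|M| + 1) * s) ^ 2 ≤ 1 := by
      have := pow_le_pow_left₀ (by positivity) hsM 2
      simpa using this
    have e2 : M ^ 2 ≤ (|M| + 1) ^ 2 := by
      rw [← sq_abs M]; exact pow_le_pow_left₀ (abs_nonneg _) (by linarith) 2
    have e3 : M ^ 2 * s ^ 2 ≤ 1 / 64 := by
      have := mul_le_mul_of_nonneg_right e2 (sq_nonneg s)
      nlinarith
    have e4 : s ^ 2 ≤ 1 := by nlinarith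
    have e5 : 0 ≤ M ^ 2 * s ^ 2 := by positivity
    have e6 : 2 * M ^ 2 * (4 * s ^ 2) ^ 2 = 32 * (M ^ 2 * s ^ 2) * s ^ 2 := by ring
    rw [e6]
    nlinarith [mul_le_mul_of_nonneg_left e4 e5]
  refine ⟨s / 4, by positivity, ?_⟩
  have hv0 : v 0 = 0 := by
    obtain ⟨C, hC⟩ := hflat 1
    have := (hC 0 (by rw [mem_ball_zero_iff, norm_zero]; positivity)).1
    simpa using this
  by_contra hcon
  push Not at hcon
  obtain ⟨x₀, hx₀, hvx⟩ := hcon
  have hx0 : x₀ ≠ 0 := fun e => hvx (e ▸ hv0)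
  have hx0n : 0 < ‖x₀‖ := norm_pos_iff.2 hx0
  rw [mem_ball_zero_iff] at hx₀
  -- a small ball
  have hcv : ContinuousAt v x₀ := (hv.continuousOn.continuousAt (isOpen_ball.mem_nhds (by
    rw [mem_ball_zero_iff]; linarith)))
  have ev1 : ∀ᶠ x in 𝓝 x₀, |v x₀| / 2 < |v x| :=
    hcv.abs.eventually_const_lt (by have := abs_pos.2 hvx; linarith)
  have ev2 : ∀ᶠ x in 𝓝 x₀, ‖x₀‖ / 2 < ‖x‖ :=
    (continuous_norm.tendsto x₀).eventually_const_lt (by linarith)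
  have ev3 : ∀ᶠ x in 𝓝 x₀, ‖x‖ < s / 4 :=
    (continuous_norm.tendsto x₀).eventually_lt_const hx₀
  obtain ⟨ρ, hρ, hρ2⟩ := Metric.eventually_nhds_iff_ball.1 (ev1.and (ev2.and ev3))
  set m := |v x₀| / 2 with hm
  have hmpos : 0 < m := by have := abs_pos.2 hvx; positivity
  -- bumps
  let χ : ContDiffBump (0 : E) := ⟨s / 2, 3 * s / 4, by positivity, by linarith⟩
  let ψ : ContDiffBump (0 : E) := ⟨1, 2, one_pos, one_lt_two⟩
  obtain ⟨P1, hP1, hχ1, hχ2⟩ := bump_bound χ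
  obtain ⟨P2, hP2, hψ1, hψ2⟩ := bump_bound ψ
  set P := max P1 P2 with hP
  have hP0 : 0 ≤ P := hP1.trans (le_max_left _ _)
  obtain ⟨C0, hC0⟩ := hflat 0
  have hC0' : ∀ x ∈ ball (0 : E) (r / 2), |v x| ≤ C0 ∧ ∀ i, |pd i v x| ≤ C0 := by
    intro x hx
    have := hC0 x hx
    simpa using this
  have hs2 : (0 : ℝ) < s / 2 := by positivity
  -- the inequality for every N
  have main1 : ∀ N : ℕ, m ^ 2 / (s / 4) ^ (2 * N) * (π * ρ ^ 2) ≤ 2 * (4 * s ^ 2) ^ 2 *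
      ((4 * (5 * P * C0) ^ 2 * (π * s ^ 2) + 1) / (s / 2) ^ (2 * N)) := by
    intro N
    obtain ⟨C, hC⟩ := hflat (N + 2)
    set Q := 324 * (5 * P * C) ^ 2 * (π * 9) with hQ
    have hQ0 : 0 ≤ Q := by positivity
    obtain ⟨ε, hε, hε1, hεs, hεx, hεQ⟩ : ∃ ε : ℝ, 0 < ε ∧ ε ≤ 1 ∧ 3 * ε < s / 2 ∧
        2 * ε ≤ ‖x₀‖ / 2 ∧ Q * ε ≤ 1 / (s / 2) ^ (2 * N) := by
      refine ⟨min 1 (min (s / 8) (min (‖x₀‖ / 4) (1 / ((Q + 1) * (s / 2) ^ (2 * N))))),
        by positivity, min_le_left _ _, ?_, ?_, ?_⟩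
      · have : min 1 (min (s / 8) (min (‖x₀‖ / 4) (1 / ((Q + 1) * (s / 2) ^ (2 * N))))) ≤ s / 8 :=
          (min_le_right _ _).trans (min_le_left _ _)
        linarith
      · have : min 1 (min (s / 8) (min (‖x₀‖ / 4) (1 / ((Q + 1) * (s / 2) ^ (2 * N))))) ≤
          ‖x₀‖ / 4 := (min_le_right _ _).trans ((min_le_right _ _).trans (min_le_left _ _))
        linarith
      · have h1 : min 1 (min (s / 8) (min (‖x₀‖ / 4) (1 / ((Q + 1) * (s / 2) ^ (2 * N))))) ≤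
          1 / ((Q + 1) * (s / 2) ^ (2 * N)) :=
          (min_le_right _ _).trans ((min_le_right _ _).trans (min_le_right _ _))
        calc _ ≤ (Q + 1) * (1 / ((Q + 1) * (s / 2) ^ (2 * N))) :=
              mul_le_mul (by linarith) h1 (by positivity) (by positivity)
          _ = _ := by field_simp
    have hpar : Par r s ε χ ψ := ⟨hs, hsr, rfl, rfl, rfl, rfl, hε, hε1, hεs⟩
    have hk := key hCarl hpar hv hMs hlap hP0 (fun i x => (hχ1 i x).trans (le_max_left _ _))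
      (fun x => (hχ2 x).trans (le_max_left _ _)) (fun i x => (hψ1 i x).trans (le_max_right _ _))
      (fun x => (hψ2 x).trans (le_max_right _ _)) N hC0' hC hρ.le hmpos.le
      (x₀ := x₀) (ρ := ρ) (m := m) (by
        intro x hx
        obtain ⟨a1, a2, a3⟩ := hρ2 x hx
        exact ⟨by linarith, a3.le, a1.le⟩)
    refine hk.trans (mul_le_mul_of_nonneg_left ?_ (by positivity))
    have e1 : 324 * (5 * P * C) ^ 2 * (π * (3 * ε) ^ 2) ≤ 1 / (s / 2) ^ (2 * N) := by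
      have : 324 * (5 * P * C) ^ 2 * (π * (3 * ε) ^ 2) = Q * ε * ε := by rw [hQ]; ring
      rw [this]
      have h2 : Q * ε * ε ≤ Q * ε * 1 := mul_le_mul_of_nonneg_left hε1 (by positivity)
      linarith
    calc _ ≤ 4 * (5 * P * C0) ^ 2 / (s / 2) ^ (2 * N) * (π * s ^ 2) + 1 / (s / 2) ^ (2 * N) := by
          linarith
      _ = _ := by ring
  -- conclusion
  have main2 : ∀ N : ℕ, m ^ 2 * (π * ρ ^ 2) * 4 ^ N ≤
      2 * (4 * s ^ 2) ^ 2 * (4 * (5 * P * C0) ^ 2 * (π * s ^ 2) + 1) := by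
    intro N
    have h1 := main1 N
    have e1 : (s / 2) ^ (2 * N) = 4 ^ N * (s / 4) ^ (2 * N) := by
      have : s / 2 = 2 * (s / 4) := by ring
      rw [this, mul_pow, pow_mul 2 2 N]; norm_num
    have e2 : 0 < (s / 4) ^ (2 * N) := by positivity
    have e3 : 0 < (4 : ℝ) ^ N := by positivity
    rw [e1] at h1
    have h2 := mul_le_mul_of_nonneg_right h1 (by positivity : 0 ≤ 4 ^ N * (s / 4) ^ (2 * N))
    have e4 : m ^ 2 / (s / 4) ^ (2 * N) * (π * ρ ^ 2) * (4 ^ N * (s / 4) ^ (2 * N)) =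
        m ^ 2 * (π * ρ ^ 2) * 4 ^ N := by field_simp
    have e5 : 2 * (4 * s ^ 2) ^ 2 * ((4 * (5 * P * C0) ^ 2 * (π * s ^ 2) + 1) /
        (4 ^ N * (s / 4) ^ (2 * N))) * (4 ^ N * (s / 4) ^ (2 * N)) =
        2 * (4 * s ^ 2) ^ 2 * (4 * (5 * P * C0) ^ 2 * (π * s ^ 2) + 1) := by field_simp
    rwa [e4, e5] at h2
  have hpos : 0 < m ^ 2 * (π * ρ ^ 2) := by positivity
  obtain ⟨N, hN⟩ := pow_unbounded_of_one_lt
    (2 * (4 * s ^ 2) ^ 2 * (4 * (5 * P * C0) ^ 2 * (π * s ^ 2) + 1) / (m ^ 2 * (π * ρ ^ 2)))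
    (by norm_num : (1 : ℝ) < 4)
  rw [div_lt_iff₀ hpos] at hN
  have := main2 N
  linarith

end SUC

open SUC

theorem suc (hC : CARLStm) : SUCStm := by
  intro c r M hr u hu hlap hflat
  have hmap : ∀ x : E, x ∈ ball (0 : E) r → x + c ∈ ball c r := fun x hx => by
    rw [mem_ball, dist_eq_norm, add_sub_cancel_right]
    exact mem_ball_zero_iff.1 hx
  have hmap2 : ∀ x : E, x ∈ ball (0 : E) (r / 2) → x + c ∈ ball c (r / 2) := fun x hx => by
    rw [mem_ball, dist_eq_norm, add_sub_cancel_right]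
    exact mem_ball_zero_iff.1 hx
  obtain ⟨s, hs, h⟩ := main hC (M := M) hr (v := fun x => u (x + c))
    (hu.comp (contDiff_id.add contDiff_const).contDiffOn (fun x hx => hmap x hx))
    (fun x hx => by
      rw [lap_trans]
      exact hlap _ (hmap x hx))
    (fun N => by
      obtain ⟨C, hC⟩ := hflat N
      refine ⟨C, fun x hx => ?_⟩
      have := hC _ (hmap2 x hx)
      rw [add_sub_cancel_right] at this
      refine ⟨this.1, fun i => ?_⟩
      rw [pd_trans]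
      exact this.2 i)
  refine ⟨s, hs, fun x hx => ?_⟩
  have := h (x - c) (by rw [mem_ball_zero_iff, ← dist_eq_norm]; exact hx)
  simpa using this

end Pool.Agent.T6.H85.NL
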