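import Pool.Agent.T6.H85.NL.Stm

/-!
# Nodal length of planar waves: scaling (module BALL)
-/

set_option autoImplicit false
open MeasureTheory Metric Filter Topology Real
open scoped ContDiff ENNReal NNReal

namespace Pool.Agent.T6.H85.NL

namespace BALL

lemma pd_scale (i : Fin 2) (f : E → ℝ) (x₀ : E) (c : ℝ) :
    pd i (fun y => f (x₀ + c • y)) = fun y => c * pd i f (x₀ + c • y) := by
  funext y
  unfold pd
  have h1 := fderiv_comp_smul (𝕜 := ℝ) (f := fun z => f (x₀ + z)) (x := y) c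
  rw [h1, fderiv_comp_add_left]
  rfl

lemma pd_cmul (i : Fin 2) (f : E → ℝ) (c : ℝ) :
    pd i (fun y => c * f y) = fun y => c * pd i f y := by
  funext y
  unfold pd
  have h1 : fderiv ℝ (fun y => c * f y) = c • fderiv ℝ f := fderiv_const_smul_field c
  rw [h1]
  rfl

lemma lap_scale (f : E → ℝ) (x₀ : E) (c : ℝ) (y : E) :
    lap (fun y => f (x₀ + c • y)) y = c ^ 2 * lap f (x₀ + c • y) := by
  unfold lap
  have h : ∀ i, pd i (pd i (fun y => f (x₀ + c • y))) y = c ^ 2 * pd i (pd i f) (x₀ + c • y) := by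
    intro i
    rw [pd_scale, pd_cmul, pd_scale]
    ring
  rw [h, h]
  ring

lemma exists_delta {ε : ℝ} (hε : 0 < ε) : ∃ δ : ℝ, 0 < δ ∧ δ < 3 / 10 ∧
    1 - ε / 2 ≤ √(1 - δ) * (-Real.cos (π * √((1 - δ) / (1 + δ)))) := by
  have h2 : ContinuousAt (fun δ : ℝ => √(1 - δ) * (-Real.cos (π * √((1 - δ) / (1 + δ))))) 0 := by
    apply ContinuousAt.mul
    · fun_prop
    · apply ContinuousAt.neg
      apply Real.continuous_cos.continuousAt.comp
      apply ContinuousAt.mul continuousAt_const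
      apply Real.continuous_sqrt.continuousAt.comp
      apply ContinuousAt.div
      · fun_prop
      · fun_prop
      · norm_num
  have h3 := h2.tendsto
  simp only [sub_zero, add_zero, Real.sqrt_one, div_one, mul_one, Real.cos_pi, neg_neg] at h3
  have h4 : ∀ᶠ δ : ℝ in 𝓝[>] 0, 1 - ε / 2 <
      √(1 - δ) * (-Real.cos (π * √((1 - δ) / (1 + δ)))) :=
    (h3.mono_left nhdsWithin_le_nhds).eventually (lt_mem_nhds (by linarith))
  obtain ⟨δ, h5, h6⟩ := (h4.and (Ioo_mem_nhdsGT (show (0 : ℝ) < 3 / 10 by norm_num))).exists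
  exact ⟨δ, h6.1, h6.2, h5.le⟩

end BALL

open BALL in
theorem ball_as (hL : LOCStm) : BALLStm := by
  intro ε hε
  obtain ⟨δ, hδ, hδ3, hF⟩ := exists_delta hε
  refine ⟨δ, hδ, fun x₀ r ρ₀ hr hρ₀ ρ hρ hnear lam hlam u hu heq => ?_⟩
  set a := 1 - δ with ha
  set b := 1 + δ with hb
  set F := √a * (-Real.cos (π * √(a / b))) with hFdef
  have ha0 : 0 < a := by rw [ha]; linarith
  have ha1 : a ≤ 1 := by rw [ha]; linarith
  have hsa : π / 4 ≤ √a := by
    apply Real.le_sqrt_of_sq_le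
    have h1 := Real.pi_lt_d2
    have h2 := Real.pi_pos
    nlinarith
  have hsa0 : 0 < √a := Real.sqrt_pos.2 ha0
  have hsa1 : √a ≤ 1 := Real.sqrt_le_one.2 ha1
  have hcos1 := Real.neg_one_le_cos (π * √(a / b))
  have hcos2 := Real.cos_le_one (π * √(a / b))
  have hF1 : F ≤ 1 := by
    rw [hFdef]
    nlinarith
  have hF2 : -1 ≤ F := by
    rw [hFdef]
    nlinarith
  set K := 2 * √a * (1 + 1 / √a) ^ 2 with hK
  have hK0 : 0 ≤ K := by positivity
  -- the radii
  have hs : Tendsto (fun n => r * √(lam n * ρ₀)) atTop atTop := by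
    apply Tendsto.const_mul_atTop hr
    exact tendsto_sqrt_atTop.comp (hlam.atTop_mul_const hρ₀)
  filter_upwards [hlam.eventually_gt_atTop 0, hs.eventually_ge_atTop (max 2 (2 * (8 + K) / ε))]
    with n hln hRn
  set s := √(lam n * ρ₀) with hsdef
  have hs0 : 0 < s := Real.sqrt_pos.2 (mul_pos hln hρ₀)
  have hss : s ^ 2 = lam n * ρ₀ := Real.sq_sqrt (mul_pos hln hρ₀).le
  set R := r * s with hR
  have hR2 : 2 ≤ R := (le_max_left _ _).trans hRn
  have hRK : 2 * (8 + K) / ε ≤ R := (le_max_right _ _).trans hRn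
  have hR0 : 0 < R := by linarith
  -- the rescaled functions
  have hmaps : Set.MapsTo (fun y : E => x₀ + s⁻¹ • y) (ball 0 R) (ball x₀ r) := by
    intro y hy
    rw [mem_ball_zero_iff] at hy
    rw [mem_ball, dist_eq_norm, add_sub_cancel_left, norm_smul, Real.norm_eq_abs,
      abs_of_pos (inv_pos.2 hs0), inv_mul_lt_iff₀ hs0, mul_comm]
    exact hy
  have hsm : ContDiffOn ℝ ∞ (fun y : E => x₀ + s⁻¹ • y) (ball 0 R) := by fun_prop
  have hsol : Sol (ball 0 R) (fun y => ρ (x₀ + s⁻¹ • y) / ρ₀) (fun y => u n (x₀ + s⁻¹ • y)) := by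
    refine ⟨(hu n).comp hsm hmaps, (hρ.comp hsm hmaps).div_const _, fun y hy => ?_⟩
    rw [lap_scale]
    have h1 := heq n _ (hmaps hy)
    have h2 : lap (u n) (x₀ + s⁻¹ • y) = -(lam n * ρ (x₀ + s⁻¹ • y) * u n (x₀ + s⁻¹ • y)) := by
      linarith
    rw [h2, inv_pow, hss]
    field_simp
    ring
  have hloc := hL 0 R a b hR2 hsa (by rw [ha, hb]; linarith) _ _ hsol (by
    intro y hy
    have h1 := abs_le.1 (hnear _ (hmaps hy))
    rw [le_div_iff₀ hρ₀, div_le_iff₀ hρ₀]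
    constructor
    · rw [ha]; linarith [h1.1]
    · rw [hb]; linarith [h1.2])
  -- the nodal sets
  have hsub : nod (ball 0 R) (fun y => u n (x₀ + s⁻¹ • y)) ⊆
      (fun x : E => s • (x - x₀)) '' nod (ball x₀ r) (u n) := by
    intro y hy
    refine ⟨x₀ + s⁻¹ • y, ⟨hmaps hy.1, hy.2⟩, ?_⟩
    show s • (x₀ + s⁻¹ • y - x₀) = y
    rw [add_sub_cancel_left, smul_inv_smul₀ hs0.ne']
  have hlip : LipschitzWith (Real.toNNReal s) (fun x : E => s • (x - x₀)) := by
    apply LipschitzWith.of_dist_le_mul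
    intro x y
    rw [dist_eq_norm, ← smul_sub, norm_smul, Real.norm_eq_abs, abs_of_pos hs0, sub_sub_sub_cancel_right,
      Real.coe_toNNReal _ hs0.le, dist_eq_norm]
  have hH := (measure_mono hsub).trans (hlip.hausdorffMeasure_image_le zero_le_one
    (nod (ball x₀ r) (u n)))
  rw [ENNReal.rpow_one] at hH
  have hfin := hloc.trans hH
  have hcoe : ((Real.toNNReal s : ℝ≥0) : ℝ≥0∞) = ENNReal.ofReal s := rfl
  rw [hcoe] at hfin
  -- the inequality
  have hpoly : (1 - ε) * R ^ 2 ≤ √a * ((R - 2) ^ 2 * (-Real.cos (π * √(a / b))) -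
      2 * R * (1 + 1 / √a) ^ 2) := by
    have h1 : √a * ((R - 2) ^ 2 * (-Real.cos (π * √(a / b))) - 2 * R * (1 + 1 / √a) ^ 2) =
        F * (R - 2) ^ 2 - K * R := by
      rw [hFdef, hK]
      ring
    rw [h1]
    have h2 : 2 * (8 + K) ≤ R * ε := by
      rwa [div_le_iff₀ hε] at hRK
    have h3 : (1 - ε / 2) * (R - 2) ^ 2 ≤ F * (R - 2) ^ 2 :=
      mul_le_mul_of_nonneg_right hF (sq_nonneg _)
    nlinarith
  have h5 : ENNReal.ofReal ((1 - ε) * s * r ^ 2) * ENNReal.ofReal s ≤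
      μH[1] (nod (ball x₀ r) (u n)) * ENNReal.ofReal s := by
    rw [← ENNReal.ofReal_mul' hs0.le, mul_comm (μH[1] (nod (ball x₀ r) (u n)))]
    refine le_trans (ENNReal.ofReal_le_ofReal ?_) hfin
    refine le_trans (le_of_eq ?_) hpoly
    rw [hR]
    ring
  have h6 : ENNReal.ofReal s ≠ 0 := by
    rw [ne_eq, ENNReal.ofReal_eq_zero, not_le]
    exact hs0
  exact (ENNReal.mul_le_mul_iff_left h6 ENNReal.ofReal_ne_top).1 h5

end Pool.Agent.T6.H85.NL
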