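import Pool.Agent.T6.H85.NL.Stm

/-!
# CAREA: area of a union of circles with centres in a thin set
-/

set_option autoImplicit false
open MeasureTheory Metric Filter Topology Real
open scoped ContDiff ENNReal NNReal

namespace Pool.Agent.T6.H85.NL

noncomputable section

namespace CAREA

/-- half width of the circle of radius `t` at height `s` -/
def w (t s : ℝ) : ℝ := √(t ^ 2 - s ^ 2)

lemma w_cont (t : ℝ) : Continuous (w t) := by unfold w; fun_prop

lemma w_nonneg (t s : ℝ) : 0 ≤ w t s := Real.sqrt_nonneg _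

lemma w_le {t : ℝ} (ht : 0 < t) (s : ℝ) : w t s ≤ t := by
  unfold w
  rw [Real.sqrt_le_left ht.le]
  nlinarith [sq_nonneg s]

lemma w_anti {t s s' : ℝ} (h : 0 ≤ s) (h' : s ≤ s') : w t s' ≤ w t s := by
  unfold w
  apply Real.sqrt_le_sqrt
  nlinarith

lemma w_mono {t s s' : ℝ} (h : s ≤ s') (h' : s' ≤ 0) : w t s ≤ w t s' := by
  unfold w
  apply Real.sqrt_le_sqrt
  nlinarith

/-- maximum of `w` on `[y-h,y]` -/
def Mx (t h y : ℝ) : ℝ := w t (max (y - h) (min 0 y))

/-- minimum of `w` on `[y-h,y]` -/
def mn (t h y : ℝ) : ℝ := min (w t (y - h)) (w t y)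

lemma Mx_cont (t h : ℝ) : Continuous (Mx t h) := by
  unfold Mx
  exact (w_cont t).comp (by fun_prop)

lemma mn_cont (t h : ℝ) : Continuous (mn t h) := by
  unfold mn
  exact ((w_cont t).comp (by fun_prop)).min ((w_cont t).comp continuous_id)

lemma le_Mx {t h y s : ℝ} (h1 : y - h ≤ s) (h2 : s ≤ y) : w t s ≤ Mx t h y := by
  unfold Mx
  rcases le_total y 0 with hy | hy
  · rw [min_eq_right hy, max_eq_right (by linarith)]
    exact w_mono h2 hy
  · rw [min_eq_left hy]
    rcases le_total (y - h) 0 with hh | hh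
    · rw [max_eq_right hh]
      rcases le_total s 0 with hs | hs
      · exact w_mono hs le_rfl
      · exact w_anti le_rfl hs
    · rw [max_eq_left hh]
      exact w_anti hh h1

lemma mn_le {t h y s : ℝ} (h1 : y - h ≤ s) (h2 : s ≤ y) : mn t h y ≤ w t s := by
  unfold mn
  rcases le_total s 0 with hs | hs
  · exact (min_le_left _ _).trans (w_mono h1 hs)
  · exact (min_le_right _ _).trans (w_anti hs h2)

lemma mn_le_Mx {t h y : ℝ} (hh : 0 ≤ h) : mn t h y ≤ Mx t h y :=
  (mn_le (s := y) (by linarith) le_rfl).trans (le_Mx (by linarith) le_rfl)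

lemma osc {t h : ℝ} (ht : 0 < t) (hh : 0 ≤ h) :
    ∫ y in (-t)..(t + h), (Mx t h y - mn t h y) ≤ 3 * h * t := by
  have hc : Continuous fun y => Mx t h y - mn t h y := (Mx_cont t h).sub (mn_cont t h)
  have hi : ∀ a b : ℝ, IntervalIntegrable (fun y => Mx t h y - mn t h y) volume a b :=
    fun a b => hc.intervalIntegrable a b
  have wi : ∀ a b : ℝ, IntervalIntegrable (w t) volume a b :=
    fun a b => (w_cont t).intervalIntegrable a b
  have wi2 : ∀ a b : ℝ, IntervalIntegrable (fun y => w t (y - h)) volume a b :=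
    fun a b => ((w_cont t).comp (by fun_prop : Continuous fun y : ℝ => y - h)).intervalIntegrable a b
  have hub : ∀ a b : ℝ, a ≤ b → ∫ y in a..b, w t y ≤ (b - a) * t := by
    intro a b hab
    have := intervalIntegral.integral_mono_on hab (wi a b)
      (intervalIntegrable_const (c := t)) (fun x _ => w_le ht x)
    simpa using this
  have hlb : ∀ a b : ℝ, a ≤ b → 0 ≤ ∫ y in a..b, w t y := by
    intro a b hab
    exact intervalIntegral.integral_nonneg hab (fun x _ => w_nonneg t x)
  rw [← intervalIntegral.integral_add_adjacent_intervals (hi (-t) 0) (hi 0 (t + h)),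
    ← intervalIntegral.integral_add_adjacent_intervals (hi 0 h) (hi h (t + h))]
  have e1 : ∫ y in (-t)..0, (Mx t h y - mn t h y) ≤ h * t := by
    have c1 : ∫ y in (-t)..0, (Mx t h y - mn t h y) = ∫ y in (-t)..0, (w t y - w t (y - h)) := by
      apply intervalIntegral.integral_congr
      intro y hy
      rw [Set.uIcc_of_le (by linarith)] at hy
      have hy0 : y ≤ 0 := hy.2
      simp only [Mx, mn]
      rw [min_eq_right hy0, max_eq_right (by linarith),
        min_eq_left (w_mono (by linarith) hy0)]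
    rw [c1, intervalIntegral.integral_sub (wi _ _) (wi2 _ _),
      intervalIntegral.integral_comp_sub_right (fun y => w t y) h]
    rw [← intervalIntegral.integral_add_adjacent_intervals (wi (-t - h) (-t)) (wi (-t) (0 - h)),
      ← intervalIntegral.integral_add_adjacent_intervals (wi (-t) (0 - h)) (wi (0 - h) 0)]
    have := hub (0 - h) 0 (by linarith)
    have := hlb (-t - h) (-t) (by linarith)
    linarith
  have e2 : ∫ y in (0:ℝ)..h, (Mx t h y - mn t h y) ≤ h * t := by
    have := intervalIntegral.integral_mono_on hh (hi 0 h)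
      (intervalIntegrable_const (c := t)) (fun x _ => by
        have h1 : Mx t h x ≤ t := w_le ht _
        have h2 : 0 ≤ mn t h x := le_min (w_nonneg _ _) (w_nonneg _ _)
        linarith)
    simpa using this
  have e3 : ∫ y in h..(t + h), (Mx t h y - mn t h y) ≤ h * t := by
    have c1 : ∫ y in h..(t + h), (Mx t h y - mn t h y) =
        ∫ y in h..(t + h), (w t (y - h) - w t y) := by
      apply intervalIntegral.integral_congr
      intro y hy
      rw [Set.uIcc_of_le (by linarith)] at hy
      have hy0 : h ≤ y := hy.1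
      simp only [Mx, mn]
      rw [min_eq_left (by linarith), max_eq_left (by linarith),
        min_eq_right (w_anti (by linarith) (by linarith))]
    rw [c1, intervalIntegral.integral_sub (wi2 _ _) (wi _ _),
      intervalIntegral.integral_comp_sub_right (fun y => w t y) h]
    rw [← intervalIntegral.integral_add_adjacent_intervals (wi (h - h) h) (wi h (t + h - h)),
      ← intervalIntegral.integral_add_adjacent_intervals (wi h (t + h - h)) (wi (t + h - h) (t + h))]
    have := hub (h - h) h (by linarith)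
    have := hlb (t + h - h) (t + h) (by linarith)
    linarith
  linarith

/-- the region covered by the circles in coordinates (height, abscissa) -/
def Rg (t h D : ℝ) : Set (ℝ × ℝ) :=
  {z | z.1 ∈ Set.Icc (-t) (t + h) ∧
    (z.2 ∈ Set.Icc (mn t h z.1) (Mx t h z.1 + D) ∨
      z.2 ∈ Set.Icc (-Mx t h z.1) (-mn t h z.1 + D))}

lemma Rg_meas (t h D : ℝ) : MeasurableSet (Rg t h D) := by
  have hM : Continuous (Mx t h) := Mx_cont t h
  have hm : Continuous (mn t h) := mn_cont t h
  apply IsClosed.measurableSet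
  apply IsClosed.inter
  · exact isClosed_Icc.preimage continuous_fst
  · apply IsClosed.union
    · exact (isClosed_le (hm.comp continuous_fst) continuous_snd).inter
        (isClosed_le continuous_snd ((hM.comp continuous_fst).add continuous_const))
    · exact (isClosed_le (hM.comp continuous_fst).neg continuous_snd).inter
        (isClosed_le continuous_snd ((hm.comp continuous_fst).neg.add continuous_const))

lemma Rg_vol {t h D : ℝ} (ht : 0 < t) (hh : 0 ≤ h) (hD : 0 ≤ D) :
    volume (Rg t h D) ≤ ENNReal.ofReal (2 * D * (2 * t + h) + 6 * h * t) := by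
  have hc : Continuous fun y => Mx t h y - mn t h y := (Mx_cont t h).sub (mn_cont t h)
  rw [Measure.volume_eq_prod, Measure.prod_apply (Rg_meas t h D)]
  have h1 : ∀ y, volume (Prod.mk y ⁻¹' Rg t h D) ≤
      (Set.Icc (-t) (t + h)).indicator
        (fun y => ENNReal.ofReal (2 * (Mx t h y - mn t h y + D))) y := by
    intro y
    by_cases hy : y ∈ Set.Icc (-t) (t + h)
    · rw [Set.indicator_of_mem hy]
      have : Prod.mk y ⁻¹' Rg t h D ⊆ Set.Icc (mn t h y) (Mx t h y + D) ∪
          Set.Icc (-Mx t h y) (-mn t h y + D) := by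
        intro x hx
        exact hx.2
      refine (measure_mono this).trans ((measure_union_le _ _).trans ?_)
      rw [Real.volume_Icc, Real.volume_Icc, ← ENNReal.ofReal_add]
      · apply ENNReal.ofReal_le_ofReal
        linarith
      · linarith [mn_le_Mx (t := t) (y := y) hh]
      · linarith [mn_le_Mx (t := t) (y := y) hh]
    · rw [Set.indicator_of_notMem hy]
      have : Prod.mk y ⁻¹' Rg t h D = ∅ := by
        ext x
        simp only [Set.mem_preimage, Set.mem_empty_iff_false, iff_false]
        intro hx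
        exact hy hx.1
      rw [this]
      simp
  refine (lintegral_mono h1).trans ?_
  rw [lintegral_indicator measurableSet_Icc]
  rw [← ofReal_integral_eq_lintegral_ofReal]
  · apply ENNReal.ofReal_le_ofReal
    rw [integral_Icc_eq_integral_Ioc, ← intervalIntegral.integral_of_le (by linarith)]
    rw [intervalIntegral.integral_const_mul, intervalIntegral.integral_add
      (hc.intervalIntegrable _ _) intervalIntegrable_const]
    have := osc ht hh
    simp only [intervalIntegral.integral_const, smul_eq_mul]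
    nlinarith
  · exact ((hc.add continuous_const).const_mul 2).continuousOn.integrableOn_Icc
  · refine Filter.Eventually.of_forall fun y => ?_
    have := mn_le_Mx (t := t) (y := y) hh
    show 0 ≤ 2 * (Mx t h y - mn t h y + D)
    linarith

lemma mem_Rg {t h D X Y p0 p1 : ℝ} (ht : 0 < t)
    (hp0 : 0 ≤ p0) (hp0' : p0 ≤ D) (hp1 : 0 ≤ p1) (hp1' : p1 ≤ h)
    (hd : (X - p0) ^ 2 + (Y - p1) ^ 2 = t ^ 2) : (Y, X) ∈ Rg t h D := by
  have hY : |Y - p1| ≤ t := by
    apply abs_le_of_sq_le_sq _ ht.le
    nlinarith [sq_nonneg (X - p0)]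
  have hX : |X - p0| = w t (Y - p1) := by
    unfold w
    rw [← Real.sqrt_sq_eq_abs]
    congr 1
    linarith
  have hY' := abs_le.1 hY
  have a1 : Y - h ≤ Y - p1 := by linarith
  have a2 : Y - p1 ≤ Y := by linarith
  have b1 := le_Mx (t := t) a1 a2
  have b2 := mn_le (t := t) a1 a2
  refine ⟨⟨by linarith, by linarith⟩, ?_⟩
  rcases le_total 0 (X - p0) with h0 | h0
  · left
    rw [abs_of_nonneg h0] at hX
    constructor
    · show mn t h Y ≤ X
      linarith
    · show X ≤ Mx t h Y + D
      linarith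
  · right
    rw [abs_of_nonpos h0] at hX
    constructor
    · show -Mx t h Y ≤ X
      linarith
    · show X ≤ -mn t h Y + D
      linarith

lemma exists_basis (n : E) (hn : ‖n‖ = 1) :
    ∃ b : OrthonormalBasis (Fin 2) ℝ E, b 0 = n := by
  have hv : Orthonormal ℝ (({0} : Set (Fin 2)).domRestrict fun _ => n) := by
    constructor
    · intro i
      simpa using hn
    · intro i j hij
      exact absurd (Subsingleton.elim i j) hij
  obtain ⟨b, hb⟩ := hv.exists_orthonormalBasis_extension_of_card_eq (ι := Fin 2)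
    (by simp)
  exact ⟨b, by simpa using hb 0 (by simp)⟩

lemma exists_interval {A : Set E} (hA : A.Nonempty) (f : E → ℝ) {D : ℝ}
    (h : ∀ p ∈ A, ∀ q ∈ A, |f p - f q| ≤ D) : ∃ a, ∀ p ∈ A, 0 ≤ f p - a ∧ f p - a ≤ D := by
  obtain ⟨q, hq⟩ := hA
  have hb : BddBelow (f '' A) := by
    refine ⟨f q - D, ?_⟩
    rintro _ ⟨p, hp, rfl⟩
    have := (abs_le.1 (h p hp q hq)).1
    linarith
  refine ⟨sInf (f '' A), fun p hp => ⟨?_, ?_⟩⟩
  · have := csInf_le hb (Set.mem_image_of_mem f hp)
    linarith
  · have : f p - D ≤ sInf (f '' A) := by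
      apply le_csInf (Set.Nonempty.image f ⟨q, hq⟩)
      rintro _ ⟨p', hp', rfl⟩
      have := (abs_le.1 (h p hp p' hp')).2
      linarith
    linarith

lemma area_le {t : ℝ} (ht : 0 < t) {θ : ℝ} (hθ : 0 < θ) {n : E} (hn : ‖n‖ = 1) {A : Set E}
    {D : ℝ} (hD : 0 ≤ D) (hdiam : ∀ p ∈ A, ∀ q ∈ A, dist p q ≤ D)
    (hthin : ∀ p ∈ A, ∀ q ∈ A, |inner ℝ (p - q) n| ≤ θ * dist p q) :
    volume (⋃ p ∈ A, sphere p t) ≤
      ENNReal.ofReal (2 * D * (2 * t + θ * D) + 6 * (θ * D) * t) := by
  rcases A.eq_empty_or_nonempty with rfl | hA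
  · simp
  obtain ⟨b, hb⟩ := exists_basis n hn
  have hdist : ∀ p q : E, dist p q ^ 2 =
      (b.repr p 0 - b.repr q 0) ^ 2 + (b.repr p 1 - b.repr q 1) ^ 2 := by
    intro p q
    rw [← b.repr.dist_map p q, EuclideanSpace.dist_eq, Real.sq_sqrt (by positivity)]
    simp [Fin.sum_univ_two, Real.dist_eq, sq_abs]
  obtain ⟨a1, ha1⟩ := exists_interval hA (fun p => b.repr p 0) (D := θ * D) (by
    intro p hp q hq
    have h1 : b.repr p 0 - b.repr q 0 = inner ℝ (p - q) n := by
      rw [b.repr_apply_apply, b.repr_apply_apply, ← inner_sub_right, hb, real_inner_comm]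
    show |b.repr p 0 - b.repr q 0| ≤ θ * D
    rw [h1]
    exact (hthin p hp q hq).trans (mul_le_mul_of_nonneg_left (hdiam p hp q hq) hθ.le))
  obtain ⟨a0, ha0⟩ := exists_interval hA (fun p => b.repr p 1) (D := D) (by
    intro p hp q hq
    show |b.repr p 1 - b.repr q 1| ≤ D
    apply abs_le_of_sq_le_sq _ hD
    have := hdist p q
    nlinarith [sq_nonneg (b.repr p 0 - b.repr q 0), hdiam p hp q hq,
      dist_nonneg (x := p) (y := q)])
  -- the coordinates
  have m1 : MeasurePreserving (fun x : E => (MeasurableEquiv.finTwoArrow (b.repr x).ofLp : ℝ × ℝ))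
      volume volume :=
    (volume_preserving_finTwoArrow ℝ).comp
      ((PiLp.volume_preserving_ofLp (Fin 2)).comp b.measurePreserving_repr)
  have m2 : MeasurePreserving (fun z : ℝ × ℝ => z - (a1, a0)) volume volume :=
    measurePreserving_sub_right volume (a1, a0)
  have m3 := m2.comp m1
  have hsub : (⋃ p ∈ A, sphere p t) ⊆
      ((fun z : ℝ × ℝ => z - (a1, a0)) ∘
        (fun x : E => (MeasurableEquiv.finTwoArrow (b.repr x).ofLp : ℝ × ℝ))) ⁻¹'
        Rg t (θ * D) D := by
    intro x hx
    simp only [Set.mem_iUnion, mem_sphere] at hx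
    obtain ⟨p, hp, hxp⟩ := hx
    have h0 := ha0 p hp
    have h1 := ha1 p hp
    have := mem_Rg (X := b.repr x 1 - a0) (Y := b.repr x 0 - a1) ht h0.1 h0.2 h1.1 h1.2 (by
      have := hdist x p
      rw [hxp] at this
      linarith)
    exact this
  refine (measure_mono hsub).trans ?_
  rw [m3.measure_preimage (Rg_meas _ _ _).nullMeasurableSet]
  exact Rg_vol ht (by positivity) hD

end CAREA

theorem carea : CAREAStm := by
  intro t ht η hη
  refine ⟨min 1 (η / (2 + 6 * t)), by positivity, ?_⟩
  intro n hn A hA hthin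
  set θ := min 1 (η / (2 + 6 * t)) with hθdef
  have hθ : 0 < θ := by positivity
  have hθ1 : θ ≤ 1 := min_le_left _ _
  have hθ2 : θ * (2 + 6 * t) ≤ η := by
    have : θ ≤ η / (2 + 6 * t) := min_le_right _ _
    rwa [le_div_iff₀ (by positivity)] at this
  have hfin : ediam A ≠ ⊤ := (hA.trans_lt ENNReal.ofReal_lt_top).ne
  set D := (ediam A).toReal with hDdef
  have hDe : ediam A = ENNReal.ofReal D := (ENNReal.ofReal_toReal hfin).symm
  have hD : 0 ≤ D := ENNReal.toReal_nonneg
  have hDθ : D ≤ θ := by
    rw [hDe, ENNReal.ofReal_le_ofReal_iff hθ.le] at hA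
    exact hA
  have hdiam : ∀ p ∈ A, ∀ q ∈ A, dist p q ≤ D := by
    intro p hp q hq
    rw [dist_edist, hDdef]
    exact ENNReal.toReal_mono hfin (edist_le_ediam_of_mem hp hq)
  refine (CAREA.area_le ht hθ hn hD hdiam hthin).trans ?_
  rw [hDe, ← ENNReal.ofReal_mul (by positivity)]
  apply ENNReal.ofReal_le_ofReal
  have h1 : 2 * D * (2 * t + θ * D) + 6 * (θ * D) * t =
      (4 * t + (2 * D + 6 * t) * θ) * D := by ring
  rw [h1]
  apply mul_le_mul_of_nonneg_right _ hD
  have : (2 * D + 6 * t) * θ ≤ (2 + 6 * t) * θ := by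
    apply mul_le_mul_of_nonneg_right _ hθ.le
    linarith
  linarith

end

end Pool.Agent.T6.H85.NL
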