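import Pool.Agent.T6.H85.NL.Stm

/-!
# Two zeros on circles
-/

set_option autoImplicit false
open MeasureTheory Metric Filter Topology Real
open scoped ContDiff ENNReal NNReal

namespace Pool.Agent.T6.H85.NL

namespace CIRC

noncomputable section

lemma pd_congr {f g : E → ℝ} {y : E} (i : Fin 2) (h : f =ᶠ[𝓝 y] g) :
    pd i f y = pd i g y := by
  unfold pd; rw [h.fderiv_eq]

lemma pd_lin {f g : E → ℝ} {y : E} (i : Fin 2) (m : ℝ) (hf : DifferentiableAt ℝ f y)
    (hg : DifferentiableAt ℝ g y) :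
    pd i (fun x => f x + m * g x) y = pd i f y + m * pd i g y := by
  unfold pd
  rw [fderiv_fun_add hf (hg.const_mul m), fderiv_const_mul hg m]
  simp

lemma diff_pd {f : E → ℝ} {V : Set E} (hV : IsOpen V) (hf : ContDiffOn ℝ 2 f V) (i : Fin 2)
    {y : E} (hy : y ∈ V) : DifferentiableAt ℝ (pd i f) y := by
  have h0 : ContDiffAt ℝ 2 f y := hf.contDiffAt (hV.mem_nhds hy)
  have h1 : ContDiffAt ℝ 1 (fderiv ℝ f) y := h0.fderiv_right (by norm_num)
  have h2 := h1.differentiableAt (by norm_num)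
  exact h2.clm_apply (differentiableAt_const _)

lemma diff_of {f : E → ℝ} {V : Set E} (hV : IsOpen V) (hf : ContDiffOn ℝ 2 f V)
    {y : E} (hy : y ∈ V) : DifferentiableAt ℝ f y :=
  (hf.contDiffAt (hV.mem_nhds hy)).differentiableAt (by norm_num)

lemma lap_lin {f g : E → ℝ} {V : Set E} (hV : IsOpen V) (hf : ContDiffOn ℝ 2 f V)
    (hg : ContDiffOn ℝ 2 g V) (m : ℝ) {y : E} (hy : y ∈ V) :
    lap (fun x => f x + m * g x) y = lap f y + m * lap g y := by
  have key : ∀ i : Fin 2, pd i (pd i (fun x => f x + m * g x)) y =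
      pd i (pd i f) y + m * pd i (pd i g) y := by
    intro i
    have h1 : pd i (fun x => f x + m * g x) =ᶠ[𝓝 y] fun x => pd i f x + m * pd i g x := by
      filter_upwards [hV.mem_nhds hy] with x hx
      exact pd_lin i m (diff_of hV hf hx) (diff_of hV hg hx)
    rw [pd_congr i h1, pd_lin i m (diff_pd hV hf i hy) (diff_pd hV hg i hy)]
  unfold lap
  rw [key 0, key 1]; ring

/-- the comparison function -/
def v (c : E) (b : ℝ) (x : E) : ℝ := Real.cos (√b * (x 0 - c 0))

lemma hasD (c : E) (b : ℝ) (x : E) :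
    HasFDerivAt (fun x : E => √b * (x 0 - c 0))
      (√b • (EuclideanSpace.proj (0 : Fin 2) : E →L[ℝ] ℝ)) x := by
  have h0 : HasFDerivAt (fun x : E => x 0) (EuclideanSpace.proj (0 : Fin 2) : E →L[ℝ] ℝ) x :=
    (EuclideanSpace.proj (0 : Fin 2) : E →L[ℝ] ℝ).hasFDerivAt
  exact (h0.sub_const _).const_mul _

lemma pd_v (c : E) (b : ℝ) (i : Fin 2) (x : E) :
    pd i (v c b) x = if i = 0 then -(√b * Real.sin (√b * (x 0 - c 0))) else 0 := by
  have h2 : HasFDerivAt (v c b) _ x := (hasD c b x).cos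
  unfold pd
  rw [h2.fderiv]
  fin_cases i <;> simp [mul_comm]

lemma pd_s (c : E) (b : ℝ) (x : E) :
    pd 0 (fun x : E => -(√b * Real.sin (√b * (x 0 - c 0)))) x =
      -(√b * √b * Real.cos (√b * (x 0 - c 0))) := by
  have h2 := (((hasD c b x).sin).const_mul (√b)).neg
  unfold pd
  have h3 : (fun x : E => -(√b * Real.sin (√b * (x 0 - c 0)))) =
    -(fun x : E => (√b * Real.sin (√b * (x 0 - c 0)))) := rfl
  rw [h3, h2.fderiv]
  simp; ring

lemma lap_v (c : E) (b : ℝ) (hb : 0 ≤ b) (x : E) : lap (v c b) x = - b * v c b x := by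
  have h0 : pd 0 (v c b) = fun x : E => -(√b * Real.sin (√b * (x 0 - c 0))) := by
    funext y; rw [pd_v]; simp
  have h1 : pd 1 (v c b) = fun _ : E => (0 : ℝ) := by
    funext y; rw [pd_v]; simp
  unfold lap
  rw [h0, h1, pd_s]
  have : pd 1 (fun _ : E => (0 : ℝ)) x = 0 := by
    unfold pd; simp
  rw [this, Real.mul_self_sqrt hb]
  unfold v; ring

lemma smooth_v (c : E) (b : ℝ) : ContDiff ℝ 2 (v c b) := by
  have h0 : ContDiff ℝ 2 (fun x : E => x 0) :=
    (EuclideanSpace.proj (0 : Fin 2) : E →L[ℝ] ℝ).contDiff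
  exact (contDiff_const.mul (h0.sub contDiff_const)).cos

lemma v_pos (c : E) (b t : ℝ) (h : √b * t < π / 2) (x : E) (hx : dist x c ≤ t) :
    0 < v c b x := by
  have h1 : |x 0 - c 0| ≤ dist x c := by
    rw [EuclideanSpace.dist_eq]
    refine Real.abs_le_sqrt ?_
    rw [Fin.sum_univ_two, Real.dist_eq, Real.dist_eq, sq_abs, sq_abs]
    nlinarith [sq_nonneg (x 1 - c 1)]
  have h2 : |√b * (x 0 - c 0)| < π / 2 := by
    rw [abs_mul, abs_of_nonneg (Real.sqrt_nonneg b)]
    calc √b * |x 0 - c 0| ≤ √b * t :=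
          mul_le_mul_of_nonneg_left (h1.trans hx) (Real.sqrt_nonneg b)
      _ < π / 2 := h
  rw [abs_lt] at h2
  exact Real.cos_pos_of_mem_Ioo ⟨by linarith [h2.1], h2.2⟩

/-- the circle -/
def γ (c : E) (t s : ℝ) : E :=
  c + ((t * Real.cos s) • EuclideanSpace.single 0 1 + (t * Real.sin s) • EuclideanSpace.single 1 1)

lemma γ0 (c : E) (t s : ℝ) : γ c t s 0 = c 0 + t * Real.cos s := by simp [γ]

lemma γ1 (c : E) (t s : ℝ) : γ c t s 1 = c 1 + t * Real.sin s := by simp [γ]

lemma γ_cont (c : E) (t : ℝ) : Continuous (γ c t) := by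
  unfold γ; fun_prop

lemma γ_dist (c : E) (t s : ℝ) (ht : 0 ≤ t) : dist (γ c t s) c = t := by
  rw [EuclideanSpace.dist_eq, Fin.sum_univ_two, Real.dist_eq, Real.dist_eq, sq_abs, sq_abs,
    γ0, γ1]
  have : (c 0 + t * Real.cos s - c 0) ^ 2 + (c 1 + t * Real.sin s - c 1) ^ 2 = t ^ 2 := by
    have := Real.sin_sq_add_cos_sq s
    linear_combination t ^ 2 * this
  rw [this, Real.sqrt_sq ht]

lemma γ_surj (c : E) (t : ℝ) (y : E) (hy : dist y c = t) : ∃ s, γ c t s = y := by
  set w : ℂ := ⟨y 0 - c 0, y 1 - c 1⟩ with hw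
  have hn : ‖w‖ = t := by
    rw [← hy, EuclideanSpace.dist_eq, Fin.sum_univ_two, Real.dist_eq, Real.dist_eq, sq_abs, sq_abs,
      Complex.norm_def, Complex.normSq_apply]
    congr 1; simp [hw]; ring
  refine ⟨Complex.arg w, ?_⟩
  have h0 : t * Real.cos (Complex.arg w) = y 0 - c 0 := by
    rw [← hn]; exact Complex.norm_mul_cos_arg w
  have h1 : t * Real.sin (Complex.arg w) = y 1 - c 1 := by
    rw [← hn]; exact Complex.norm_mul_sin_arg w
  ext i
  fin_cases i
  · show γ c t _ 0 = y 0
    rw [γ0, h0]; ring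
  · show γ c t _ 1 = y 1
    rw [γ1, h1]; ring

lemma γ_per (c : E) (t : ℝ) : Function.Periodic (γ c t) (2 * π) := by
  intro s; unfold γ; rw [Real.cos_add_two_pi, Real.sin_add_two_pi]

lemma γ_inj (c : E) (t : ℝ) (ht : 0 < t) (a b : ℝ) (hab : a < b) (hb : b < a + 2 * π)
    (h : γ c t a = γ c t b) : False := by
  have h0 : Real.cos a = Real.cos b := by
    have := congrArg (fun x : E => x 0) h
    simp only [γ0] at this
    have h2 : t * Real.cos a = t * Real.cos b := by linarith
    exact mul_left_cancel₀ ht.ne' h2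
  have h1 : Real.sin a = Real.sin b := by
    have := congrArg (fun x : E => x 1) h
    simp only [γ1] at this
    have h2 : t * Real.sin a = t * Real.sin b := by linarith
    exact mul_left_cancel₀ ht.ne' h2
  have h2 : Real.cos (b - a) = 1 := by
    rw [Real.cos_sub, h0, h1]
    have := Real.sin_sq_add_cos_sq b
    linear_combination this
  rw [Real.cos_eq_one_iff_of_lt_of_lt (by linarith [Real.pi_pos]) (by linarith)] at h2
  linarith

/-- both signs occur on the circle -/
lemma two (c : E) (t : ℝ) (ht : 0 < t) (u : E → ℝ) (hu : ContinuousOn u (sphere c t))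
    (y1 y2 : E) (h1 : dist y1 c = t) (h2 : dist y2 c = t) (p1 : 0 < u y1) (p2 : u y2 < 0) :
    ∃ p q : E, p ≠ q ∧ dist p c = t ∧ dist q c = t ∧ u p = 0 ∧ u q = 0 := by
  obtain ⟨s1, rfl⟩ := γ_surj c t y1 h1
  obtain ⟨s2, rfl⟩ := γ_surj c t y2 h2
  set f : ℝ → ℝ := fun s => u (γ c t s) with hf
  have fc : Continuous f :=
    hu.comp_continuous (γ_cont c t) (fun s => γ_dist c t s ht.le)
  have fp : Function.Periodic f (2 * π) := fun s => by
    simp only [hf]; rw [γ_per c t s]
  obtain ⟨s, hs, hs'⟩ := fp.exists_mem_Ico (by linarith [Real.pi_pos]) s2 s1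
  have hfs : f s < 0 := by rw [← hs']; exact p2
  have hf1 : 0 < f s1 := p1
  have hf2 : 0 < f (s1 + 2 * π) := by rw [fp s1]; exact p1
  have hlt : s1 < s := by
    rcases eq_or_lt_of_le hs.1 with h | h
    · rw [h] at hf1; exact absurd hf1 (not_lt.mpr hfs.le)
    · exact h
  obtain ⟨a, ha, ha'⟩ := intermediate_value_Ioo' hlt.le fc.continuousOn
    (show (0 : ℝ) ∈ Set.Ioo (f s) (f s1) from ⟨hfs, hf1⟩)
  obtain ⟨b, hb, hb'⟩ := intermediate_value_Ioo hs.2.le fc.continuousOn
    (show (0 : ℝ) ∈ Set.Ioo (f s) (f (s1 + 2 * π)) from ⟨hfs, hf2⟩)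
  refine ⟨γ c t a, γ c t b, ?_, γ_dist c t a ht.le, γ_dist c t b ht.le, ha', hb'⟩
  intro h
  exact γ_inj c t ht a b (ha.2.trans hb.1) (by linarith [ha.1, hb.2]) h

/-- nonnegative on the circle -/
lemma nonneg (hS : SMPStm) (c : E) (t r b : ℝ) (ht : 0 < t) (htr : t < r) (hb : 0 < b)
    (hbt : √b * t < π / 2) (κ u : E → ℝ) (hu : Sol (ball c r) κ u)
    (hκ : ∀ x ∈ ball c r, 0 ≤ κ x ∧ κ x ≤ b) (z : E) (hz : z ∈ ball c t) (hz0 : u z = 0)
    (hpos : ∀ y, dist y c = t → 0 ≤ u y) : ∀ x ∈ ball c t, u x = 0 := by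
  have hsub : closedBall c t ⊆ ball c r := closedBall_subset_ball htr
  have hsub' : ball c t ⊆ ball c r := ball_subset_ball htr.le
  have huc : ContinuousOn u (closedBall c t) := hu.smooth.continuousOn.mono hsub
  have hu2 : ContDiffOn ℝ 2 u (ball c t) := (hu.smooth.mono hsub').of_le ENat.LEInfty.out
  have hv2 : ContDiffOn ℝ 2 (v c b) (ball c t) := (smooth_v c b).contDiffOn
  have hvc : ContinuousOn (v c b) (closedBall c t) := (smooth_v c b).continuous.continuousOn
  have hvpos : ∀ x ∈ closedBall c t, 0 < v c b x := fun x hx => v_pos c b t hbt x hx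
  have step1 : ∀ x ∈ closedBall c t, 0 ≤ u x := by
    by_contra hcon
    push Not at hcon
    obtain ⟨x0, hx0, hx0'⟩ := hcon
    obtain ⟨p, hp, hmin⟩ := (isCompact_closedBall c t).exists_isMinOn ⟨x0, hx0⟩
      (huc.div hvc (fun x hx => (hvpos x hx).ne'))
    set m : ℝ := - (u p / v c b p) with hm
    have hFp : u p / v c b p < 0 := by
      refine lt_of_le_of_lt (hmin hx0) ?_
      exact div_neg_of_neg_of_pos hx0' (hvpos x0 hx0)
    have hm0 : 0 < m := by rw [hm]; linarith
    have hge : ∀ x ∈ closedBall c t, 0 ≤ u x + m * v c b x := by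
      intro x hx
      have h1 : u p / v c b p ≤ u x / v c b x := hmin hx
      have h2 := hvpos x hx
      rw [le_div_iff₀ h2] at h1
      rw [hm]; linarith
    have hp0 : u p + m * v c b p = 0 := by
      rw [hm]
      have := (hvpos p hp).ne'
      field_simp
      ring
    have hps : p ∈ ball c t := by
      rcases lt_or_eq_of_le (mem_closedBall.mp hp) with h | h
      · exact h
      · exfalso
        have := hpos p h
        have h3 := hvpos p hp
        nlinarith
    have hzero := hS c t (fun x => u x + m * v c b x)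
      (hu2.add (contDiffOn_const.mul hv2))
      (fun x hx => hge x (ball_subset_closedBall hx)) ?_ p hps hp0
    · -- contradiction on the sphere
      have hcl : Set.EqOn (fun x => u x + m * v c b x) (fun _ => (0 : ℝ)) (closedBall c t) := by
        refine Set.EqOn.of_subset_closure (s := ball c t) (fun x hx => hzero x hx)
          (huc.add (continuousOn_const.mul hvc)) continuousOn_const ball_subset_closedBall ?_
        rw [closure_ball c ht.ne']
      have hy := γ_dist c t 0 ht.le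
      have hy' : γ c t 0 ∈ closedBall c t := by rw [mem_closedBall, hy]
      have h4 := hcl hy'
      simp only at h4
      have h5 := hpos _ hy
      have h6 := hvpos _ hy'
      nlinarith
    · intro x hx
      rw [lap_lin isOpen_ball hu2 hv2 m hx, lap_v c b hb.le x]
      have h1 := hu.eq x (hsub' hx)
      obtain ⟨k0, k1⟩ := hκ x (hsub' hx)
      have h2 := hvpos x (ball_subset_closedBall hx)
      have h3 := hge x (ball_subset_closedBall hx)
      have h4 : lap u x = - (κ x * u x) := by linarith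
      rw [h4]
      rcases le_or_gt 0 (u x) with h | h
      · have : 0 ≤ κ x * u x := mul_nonneg k0 h
        have h5 : 0 ≤ m * (b * v c b x) := by positivity
        nlinarith
      · have h5 : κ x * (-u x) ≤ b * (-u x) := mul_le_mul_of_nonneg_right k1 (by linarith)
        have h6 : 0 ≤ b * (u x + m * v c b x) := mul_nonneg hb.le h3
        nlinarith
  refine hS c t u hu2 (fun x hx => step1 x (ball_subset_closedBall hx)) ?_ z hz hz0
  intro x hx
  have h1 := hu.eq x (hsub' hx)
  obtain ⟨k0, _⟩ := hκ x (hsub' hx)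
  have := mul_nonneg k0 (step1 x (ball_subset_closedBall hx))
  linarith

lemma lap_neg {f : E → ℝ} (y : E) : lap (fun x => - f x) y = - lap f y := by
  have h : ∀ (i : Fin 2) (g : E → ℝ), pd i (fun x => - g x) = fun x => - pd i g x := by
    intro i g; funext x; unfold pd; rw [fderiv_fun_neg]; rfl
  unfold lap
  rw [h 0 f, h 1 f, h 0, h 1]; ring

end

end CIRC

open CIRC in
theorem circ (hS : SMPStm) : CIRCStm := by
  intro c t r b ht htr hb hbt κ u hu hκ z hz hz0
  have huc : ContinuousOn u (sphere c t) :=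
    hu.smooth.continuousOn.mono (sphere_subset_closedBall.trans (closedBall_subset_ball htr))
  by_cases h1 : ∀ y, dist y c = t → 0 ≤ u y
  · exact Or.inl (nonneg hS c t r b ht htr hb hbt κ u hu hκ z hz hz0 h1)
  by_cases h2 : ∀ y, dist y c = t → u y ≤ 0
  · left
    have hneg : Sol (ball c r) κ (fun x => - u x) :=
      ⟨hu.smooth.neg, hu.pot, fun y hy => by
        rw [lap_neg]; have := hu.eq y hy; linarith⟩
    intro x hx
    have := nonneg hS c t r b ht htr hb hbt κ (fun x => - u x) hneg hκ z hz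
      (by simp [hz0]) (fun y hy => by have := h2 y hy; simpa using this) x hx
    simpa using this
  push Not at h1 h2
  obtain ⟨y2, hy2, hn⟩ := h1
  obtain ⟨y1, hy1, hp⟩ := h2
  exact Or.inr (two c t ht u huc y1 y2 hy1 hy2 hp hn)

end Pool.Agent.T6.H85.NL
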