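import Pool.Agent.T6.H85.NL.Stm

set_option autoImplicit false
open MeasureTheory Metric Filter Topology Real
open scoped ContDiff ENNReal NNReal

namespace Pool.Agent.T6.H85.NL

namespace COV

/-- efficient covers of a set of finite length by small sets -/
theorem cover (A : Set E) (hA : μH[1] A ≠ ⊤) (δ ε : ℝ≥0∞) (hδ : 0 < δ) (hε : 0 < ε) :
    ∃ T : ℕ → Set E, A ⊆ ⋃ n, T n ∧ (∀ n, ediam (T n) ≤ δ) ∧
      ∑' n, ⨆ _ : (T n).Nonempty, ediam (T n) ^ (1:ℝ) ≤ μH[1] A + ε := by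
  have h1 : (⨅ (t : ℕ → Set E) (_ : A ⊆ ⋃ n, t n) (_ : ∀ n, ediam (t n) ≤ δ),
      ∑' n, ⨆ _ : (t n).Nonempty, ediam (t n) ^ (1:ℝ)) ≤ μH[1] A := by
    rw [Measure.hausdorffMeasure_apply]
    exact le_iSup₂ (f := fun (r : ℝ≥0∞) (_ : 0 < r) =>
      ⨅ (t : ℕ → Set E) (_ : A ⊆ ⋃ n, t n) (_ : ∀ n, ediam (t n) ≤ r),
        ∑' n, ⨆ _ : (t n).Nonempty, ediam (t n) ^ (1:ℝ)) δ hδ
  have h2 : (⨅ (t : ℕ → Set E) (_ : A ⊆ ⋃ n, t n) (_ : ∀ n, ediam (t n) ≤ δ),
      ∑' n, ⨆ _ : (t n).Nonempty, ediam (t n) ^ (1:ℝ)) < μH[1] A + ε :=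
    lt_of_le_of_lt h1 (ENNReal.lt_add_right hA hε.ne')
  simp only [iInf_lt_iff] at h2
  obtain ⟨T, hT1, hT2, hT3⟩ := h2
  exact ⟨T, hT1, hT2, hT3.le⟩

end COV

open COV

theorem cov : COVStm := by
  intro t ht Zr hloc X hX
  have h4t : ENNReal.ofReal (4 * t) ≠ 0 := by
    rw [Ne, ENNReal.ofReal_eq_zero]; push Not; positivity
  by_cases hfin : μH[1] Zr = ⊤
  · rw [hfin, ENNReal.mul_top h4t]; exact le_top
  by_cases hemp : Zr = ∅
  · have : X = ∅ := by
      ext x
      constructor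
      · intro hx
        obtain ⟨p, hp, _⟩ := hX x hx
        rw [hemp] at hp
        exact hp.elim
      · intro hx; exact hx.elim
    rw [this]; simp
  have hne : Zr.Nonempty := Set.nonempty_iff_ne_empty.2 hemp
  -- the key estimate
  have main : ∀ (η : ℝ), 0 < η → ∀ (n : ℕ) (ε : ℝ≥0∞), 0 < ε →
      2 * volume {x | x ∈ X ∧ ∃ p ∈ Zr, ∃ q ∈ Zr, (1:ℝ) / (n + 1) < dist p q ∧
        dist p x = t ∧ dist q x = t} ≤ ENNReal.ofReal (4 * t + η) * (μH[1] Zr + ε) := by
    intro η hη n ε hε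
    choose! r hr hr2 using hloc η hη
    obtain ⟨Q, hQs, hQc, hQcov⟩ := TopologicalSpace.countable_cover_nhdsWithin
      (f := fun z => ball z (r z)) (s := Zr)
      (fun z hz => mem_nhdsWithin_of_mem_nhds (ball_mem_nhds z (hr z hz)))
    have hQne : Q.Nonempty := by
      obtain ⟨z, hz⟩ := hne
      have := hQcov hz
      simp only [Set.mem_iUnion] at this
      obtain ⟨y, hy, _⟩ := this
      exact ⟨y, hy⟩
    obtain ⟨z, rfl⟩ := hQc.exists_eq_range hQne
    have hzZ : ∀ j, z j ∈ Zr := fun j => hQs ⟨j, rfl⟩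
    set B : ℕ → Set E := fun j => ball (z j) (r (z j)) with hB
    set D : ℕ → Set E := disjointed B with hD
    have hBcov : Zr ⊆ ⋃ j, D j := by
      rw [hD, iUnion_disjointed]
      intro x hx
      have := hQcov hx
      simpa [hB] using this
    have hDm : ∀ j, MeasurableSet (D j) := fun j =>
      MeasurableSet.disjointed (fun i => measurableSet_ball) j
    have hDd : Pairwise (Function.onFun Disjoint D) := disjoint_disjointed B
    have hsum : ∑' j, μH[1] (Zr ∩ D j) ≤ μH[1] Zr := by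
      have h1 : ∀ j, μH[1] (Zr ∩ D j) = (μH[1].restrict Zr) (D j) := by
        intro j
        rw [Measure.restrict_apply (hDm j), Set.inter_comm]
      simp_rw [h1]
      rw [← measure_iUnion hDd hDm]
      calc (μH[1].restrict Zr) (⋃ j, D j) ≤ (μH[1].restrict Zr) Set.univ :=
            measure_mono (Set.subset_univ _)
        _ = μH[1] Zr := Measure.restrict_apply_univ _
    obtain ⟨ε', hε', hε's⟩ := ENNReal.exists_pos_sum_of_countable' hε.ne' ℕ
    have hδ : (0:ℝ≥0∞) < ENNReal.ofReal (1 / ((n:ℝ) + 1)) := by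
      rw [ENNReal.ofReal_pos]; positivity
    have hcov : ∀ j, ∃ T : ℕ → Set E, Zr ∩ D j ⊆ ⋃ k, T k ∧
        (∀ k, ediam (T k) ≤ ENNReal.ofReal (1 / ((n:ℝ) + 1))) ∧
        ∑' k, ⨆ _ : (T k).Nonempty, ediam (T k) ^ (1:ℝ) ≤ μH[1] (Zr ∩ D j) + ε' j := by
      intro j
      refine cover _ ?_ _ _ hδ (hε' j)
      exact ne_top_of_le_ne_top hfin (measure_mono Set.inter_subset_left)
    choose T hT1 hT2 hT3 using hcov
    set F : ℕ × ℕ → Set E := fun i => T i.1 i.2 ∩ (Zr ∩ D i.1) with hF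
    set C : ℕ × ℕ → Set E := fun i => ⋃ p ∈ F i, sphere p t with hC
    have hvolC : ∀ i, volume (C i) ≤ ENNReal.ofReal (4 * t + η) *
        ⨆ _ : (T i.1 i.2).Nonempty, ediam (T i.1 i.2) ^ (1:ℝ) := by
      intro i
      have h1 : volume (C i) ≤ ENNReal.ofReal (4 * t + η) * ediam (F i) := by
        refine hr2 (z i.1) (hzZ i.1) (F i) ?_ ?_
        · intro x hx
          exact disjointed_subset B i.1 hx.2.2
        · intro x hx; exact hx.2.1
      by_cases hFn : (F i).Nonempty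
      · have hTn : (T i.1 i.2).Nonempty := hFn.mono Set.inter_subset_left
        refine h1.trans ?_
        gcongr
        rw [ciSup_pos hTn, ENNReal.rpow_one]
        exact ediam_mono Set.inter_subset_left
      · rw [Set.not_nonempty_iff_eq_empty] at hFn
        have : C i = ∅ := by rw [hC]; simp [hFn]
        rw [this]; simp
    set H : ℕ × ℕ → Set E := fun i => toMeasurable volume (C i) with hH
    set f : E → ℝ≥0∞ := fun x => ∑' i, (H i).indicator (fun _ => (1:ℝ≥0∞)) x with hf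
    have hfm : Measurable f :=
      Measurable.ennreal_tsum (fun i => measurable_const.indicator (measurableSet_toMeasurable _ _))
    have hsub : {x | x ∈ X ∧ ∃ p ∈ Zr, ∃ q ∈ Zr, (1:ℝ) / (n + 1) < dist p q ∧
        dist p x = t ∧ dist q x = t} ⊆ {x | 2 ≤ f x} := by
      rintro x ⟨hxX, p, hp, q, hq, hpq, hpt, hqt⟩
      have mem : ∀ y ∈ Zr, ∃ i, y ∈ F i := by
        intro y hy
        obtain ⟨j, hj⟩ := Set.mem_iUnion.1 (hBcov hy)
        obtain ⟨k, hk⟩ := Set.mem_iUnion.1 (hT1 j ⟨hy, hj⟩)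
        exact ⟨(j, k), hk, hy, hj⟩
      obtain ⟨i, hi⟩ := mem p hp
      obtain ⟨i', hi'⟩ := mem q hq
      have hii : i ≠ i' := by
        intro h
        rw [← h] at hi'
        have h1 : edist p q ≤ ENNReal.ofReal (1 / ((n:ℝ) + 1)) :=
          (edist_le_ediam_of_mem hi.1 hi'.1).trans (hT2 i.1 i.2)
        rw [edist_dist] at h1
        have h2 := (ENNReal.ofReal_le_ofReal_iff (by positivity)).1 h1
        linarith
      have memC : ∀ y i, y ∈ F i → dist y x = t → x ∈ H i := by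
        intro y i hy hyt
        apply subset_toMeasurable
        rw [hC]
        simp only [Set.mem_iUnion]
        exact ⟨y, hy, by rw [mem_sphere, dist_comm]; exact hyt⟩
      have h1 := ENNReal.sum_le_tsum (f := fun i => (H i).indicator (fun _ => (1:ℝ≥0∞)) x) {i, i'}
      rw [Finset.sum_pair hii, Set.indicator_of_mem (memC p i hi hpt),
        Set.indicator_of_mem (memC q i' hi' hqt)] at h1
      show 2 ≤ f x
      calc (2:ℝ≥0∞) = 1 + 1 := by norm_num
        _ ≤ f x := h1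
    calc 2 * volume {x | x ∈ X ∧ ∃ p ∈ Zr, ∃ q ∈ Zr, (1:ℝ) / (n + 1) < dist p q ∧
          dist p x = t ∧ dist q x = t} ≤ 2 * volume {x | 2 ≤ f x} := by gcongr
      _ ≤ ∫⁻ x, f x := mul_meas_ge_le_lintegral hfm 2
      _ = ∑' i, volume (C i) := by
          rw [hf, lintegral_tsum (fun i =>
            (measurable_const.indicator (measurableSet_toMeasurable _ _)).aemeasurable)]
          congr 1
          ext i
          rw [lintegral_indicator_const (measurableSet_toMeasurable _ _), one_mul,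
            measure_toMeasurable]
      _ ≤ ∑' i : ℕ × ℕ, ENNReal.ofReal (4 * t + η) *
            ⨆ _ : (T i.1 i.2).Nonempty, ediam (T i.1 i.2) ^ (1:ℝ) := ENNReal.tsum_le_tsum hvolC
      _ = ENNReal.ofReal (4 * t + η) * ∑' j, ∑' k,
            ⨆ _ : (T j k).Nonempty, ediam (T j k) ^ (1:ℝ) := by
          rw [ENNReal.tsum_mul_left, ENNReal.tsum_prod']
      _ ≤ ENNReal.ofReal (4 * t + η) * ∑' j, (μH[1] (Zr ∩ D j) + ε' j) := by
          gcongr with j
          exact hT3 j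
      _ ≤ ENNReal.ofReal (4 * t + η) * (μH[1] Zr + ε) := by
          rw [ENNReal.tsum_add]
          gcongr
  -- limit ε → 0
  have main2 : ∀ (η : ℝ), 0 < η → ∀ (n : ℕ),
      2 * volume {x | x ∈ X ∧ ∃ p ∈ Zr, ∃ q ∈ Zr, (1:ℝ) / (n + 1) < dist p q ∧
        dist p x = t ∧ dist q x = t} ≤ ENNReal.ofReal (4 * t + η) * μH[1] Zr := by
    intro η hη n
    have hlim : Tendsto (fun m : ℕ => ENNReal.ofReal (4 * t + η) * (μH[1] Zr + ((m:ℝ≥0∞))⁻¹))
        atTop (𝓝 (ENNReal.ofReal (4 * t + η) * (μH[1] Zr + 0))) :=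
      ENNReal.Tendsto.const_mul (tendsto_const_nhds.add ENNReal.tendsto_inv_nat_nhds_zero)
        (Or.inr ENNReal.ofReal_ne_top)
    rw [add_zero] at hlim
    exact ge_of_tendsto' hlim (fun m => main η hη n _ (by simp))
  have main3 : ∀ (η : ℝ), 0 < η → 2 * volume X ≤ ENNReal.ofReal (4 * t + η) * μH[1] Zr := by
    intro η hη
    have hmono : Monotone (fun n : ℕ => {x | x ∈ X ∧ ∃ p ∈ Zr, ∃ q ∈ Zr,
        (1:ℝ) / (n + 1) < dist p q ∧ dist p x = t ∧ dist q x = t}) := by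
      intro a b hab x hx
      obtain ⟨hxX, p, hp, q, hq, hpq, h⟩ := hx
      refine ⟨hxX, p, hp, q, hq, lt_of_le_of_lt ?_ hpq, h⟩
      have : (a:ℝ) ≤ b := by exact_mod_cast hab
      gcongr
    have hU : X = ⋃ n : ℕ, {x | x ∈ X ∧ ∃ p ∈ Zr, ∃ q ∈ Zr,
        (1:ℝ) / (n + 1) < dist p q ∧ dist p x = t ∧ dist q x = t} := by
      ext x
      constructor
      · intro hx
        obtain ⟨p, hp, q, hq, hpq, hpt, hqt⟩ := hX x hx
        obtain ⟨n, hn⟩ := exists_nat_one_div_lt (dist_pos.2 hpq)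
        exact Set.mem_iUnion.2 ⟨n, hx, p, hp, q, hq, hn, hpt, hqt⟩
      · intro hx
        obtain ⟨n, hn⟩ := Set.mem_iUnion.1 hx
        exact hn.1
    rw [hU, hmono.measure_iUnion, ENNReal.mul_iSup]
    exact iSup_le (fun n => main2 η hη n)
  have hlim : Tendsto (fun m : ℕ => ENNReal.ofReal (4 * t + 1 / ((m:ℝ) + 1)) * μH[1] Zr)
      atTop (𝓝 (ENNReal.ofReal (4 * t + 0) * μH[1] Zr)) := by
    refine ENNReal.Tendsto.mul_const ?_ (Or.inr hfin)
    exact (ENNReal.continuous_ofReal.tendsto _).comp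
      (tendsto_const_nhds.add tendsto_one_div_add_atTop_nhds_zero_nat)
  rw [add_zero] at hlim
  exact ge_of_tendsto' hlim (fun m => main3 _ (by positivity))

end Pool.Agent.T6.H85.NL
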