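import Pool.Agent.T6.H85.NL.Stm

/-!
# Module JAC: the Jacobi inequality
-/

set_option autoImplicit false
open MeasureTheory Metric Filter Topology Real Set
open scoped ContDiff ENNReal NNReal Manifold

namespace Pool.Agent.T6.H85.NL

noncomputable section

namespace JAC

theorem lip_mul {f h : E → ℝ} {A B K L : ℝ≥0} (hf : LipschitzWith K f) (hh : LipschitzWith L h)
    (hA : ∀ x, |f x| ≤ A) (hB : ∀ x, |h x| ≤ B) :
    LipschitzWith (A * L + B * K) (fun x => f x * h x) := by
  refine LipschitzWith.of_dist_le_mul fun x y => ?_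
  rw [Real.dist_eq]
  have h1 := hf.dist_le_mul x y
  have h2 := hh.dist_le_mul x y
  rw [Real.dist_eq] at h1 h2
  have : f x * h x - f y * h y = f x * (h x - h y) + h y * (f x - f y) := by ring
  rw [this]
  calc _ ≤ |f x * (h x - h y)| + |h y * (f x - f y)| := abs_add_le _ _
    _ = |f x| * |h x - h y| + |h y| * |f x - f y| := by rw [abs_mul, abs_mul]
    _ ≤ A * (L * dist x y) + B * (K * dist x y) := by
        have := hA x
        have := hB y
        gcongr
    _ = _ := by push_cast; ring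

theorem lip_mul' {f h : E → ℝ} {K L : ℝ≥0} (hf : LipschitzWith K f) (hh : LipschitzWith L h)
    (hcf : HasCompactSupport f) (hch : HasCompactSupport h) :
    ∃ M, LipschitzWith M (fun x => f x * h x) := by
  obtain ⟨A, hA⟩ := hcf.exists_bound_of_continuous hf.continuous
  obtain ⟨B, hB⟩ := hch.exists_bound_of_continuous hh.continuous
  refine ⟨_, lip_mul (A := A.toNNReal) (B := B.toNNReal) hf hh ?_ ?_⟩
  · intro x
    exact (hA x).trans (le_coe_toNNReal A)
  · intro x
    exact (hB x).trans (le_coe_toNNReal B)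

theorem sum_sq (L : E →L[ℝ] ℝ) :
    L (EuclideanSpace.single 0 1) ^ 2 + L (EuclideanSpace.single 1 1) ^ 2 ≤ ‖L‖ ^ 2 := by
  obtain ⟨a, ha⟩ : ∃ a, a = L (EuclideanSpace.single 0 1) := ⟨_, rfl⟩
  obtain ⟨b, hb⟩ : ∃ b, b = L (EuclideanSpace.single 1 1) := ⟨_, rfl⟩
  rw [← ha, ← hb]
  obtain ⟨v, hvd⟩ : ∃ v : E, v = a • EuclideanSpace.single 0 1 + b • EuclideanSpace.single 1 1 :=
    ⟨_, rfl⟩
  have hv : L v = a ^ 2 + b ^ 2 := by
    rw [hvd, map_add, map_smul, map_smul, ← ha, ← hb, smul_eq_mul, smul_eq_mul]; ring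
  have hn : ‖v‖ ^ 2 = a ^ 2 + b ^ 2 := by
    rw [hvd, EuclideanSpace.norm_sq_eq]
    simp [Fin.sum_univ_two]
  have h1 : L v ≤ ‖L‖ * ‖v‖ := (le_abs_self _).trans (L.le_opNorm v)
  rw [← hn]
  rw [hv, ← hn] at h1
  rcases (norm_nonneg v).eq_or_lt with h0 | h0
  · rw [← h0]; nlinarith [sq_nonneg ‖L‖]
  · have h2 : ‖v‖ ≤ ‖L‖ := by
      have : ‖v‖ * ‖v‖ ≤ ‖L‖ * ‖v‖ := by nlinarith
      exact le_of_mul_le_mul_right this h0
    exact pow_le_pow_left₀ (norm_nonneg v) h2 2

/-- a function that is smooth on an open set containing the topological support is smooth -/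
theorem smooth_of_tsupport {f : E → ℝ} {V : Set E} (hV : IsOpen V) (hf : ContDiffOn ℝ ∞ f V)
    (hs : tsupport f ⊆ V) : ContDiff ℝ ∞ f := by
  rw [contDiff_iff_contDiffAt]
  intro x
  by_cases hx : x ∈ V
  · exact hf.contDiffAt (hV.mem_nhds hx)
  · have hx' : x ∉ tsupport f := fun h => hx (hs h)
    have : f =ᶠ[𝓝 x] fun _ => 0 := notMem_tsupport_iff_eventuallyEq.mp hx'
    exact contDiffAt_const.congr_of_eventuallyEq this

theorem smooth_pd {f : E → ℝ} (hf : ContDiff ℝ ∞ f) (i : Fin 2) : ContDiff ℝ ∞ (pd i f) := by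
  unfold pd
  exact (hf.fderiv_right (m := ∞) (by simp)).clm_apply contDiff_const

theorem cs_pd {f : E → ℝ} (hf : HasCompactSupport f) (i : Fin 2) :
    HasCompactSupport (pd i f) := by
  unfold pd
  exact (hf.fderiv ℝ).comp_left (g := fun L : E →L[ℝ] ℝ => L (EuclideanSpace.single i 1))
    (by simp)

theorem pd_congr {f g : E → ℝ} {x : E} (h : f =ᶠ[𝓝 x] g) (i : Fin 2) :
    pd i f =ᶠ[𝓝 x] pd i g := by
  filter_upwards [h.eventuallyEq_nhds] with y hy
  unfold pd
  rw [hy.fderiv_eq]

end JAC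

open JAC in
theorem jac : JACStm := by
  intro c R κ u hu g C hg hgc hgs hgu
  set K := tsupport g with hK
  have hKc : IsCompact K := hgc
  -- the open set where u does not vanish
  set V : Set E := {x | x ∈ ball c R ∧ u x ≠ 0} with hV
  have hVo : IsOpen V := by
    have : V = ball c R ∩ u ⁻¹' {0}ᶜ := by
      ext x; simp [hV]
    rw [this]
    exact hu.smooth.continuousOn.isOpen_inter_preimage isOpen_ball isOpen_compl_singleton
  have hKV : K ⊆ V := fun x hx => ⟨hgs hx, hgu x hx⟩
  obtain ⟨K', hK'c, hKK', hK'V⟩ := exists_compact_between hKc hVo hKV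
  obtain ⟨ζ, hζ1, hζ0, -⟩ := exists_contMDiffMap_one_nhds_of_subset_interior (n := ⊤)
    𝓘(ℝ, E) hKc.isClosed hKK'
  have hζs : ContDiff ℝ ∞ (ζ : E → ℝ) := ζ.contMDiff.contDiff
  have hζt : tsupport (ζ : E → ℝ) ⊆ K' := by
    apply closure_minimal _ hK'c.isClosed
    intro x hx
    by_contra h
    exact hx (hζ0 x h)
  have hζc : HasCompactSupport (ζ : E → ℝ) := hK'c.of_isClosed_subset (isClosed_tsupport _) hζt
  have hζV : tsupport (ζ : E → ℝ) ⊆ V := hζt.trans hK'V
  have hVB : V ⊆ ball c R := fun x hx => hx.1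
  -- the smooth extensions
  set U1 : E → ℝ := fun x => ζ x * u x with hU1
  set w : E → ℝ := fun x => ζ x * (u x)⁻¹ with hw
  have hU1t : tsupport U1 ⊆ V := (tsupport_mul_subset_left).trans hζV
  have hwt : tsupport w ⊆ V := (tsupport_mul_subset_left).trans hζV
  have hU1s : ContDiff ℝ ∞ U1 :=
    smooth_of_tsupport hVo (hζs.contDiffOn.mul (hu.smooth.mono hVB)) hU1t
  have hws : ContDiff ℝ ∞ w :=
    smooth_of_tsupport hVo (hζs.contDiffOn.mul ((hu.smooth.mono hVB).inv fun x hx => hx.2)) hwt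
  have hU1c : HasCompactSupport U1 := hζc.mul_right
  have hwc : HasCompactSupport w := hζc.mul_right
  obtain ⟨Cw, hwL⟩ := hws.lipschitzWith_of_hasCompactSupport hwc (by simp)
  -- phi
  obtain ⟨Cg, hg2⟩ := lip_mul' hg hg hgc hgc
  have hg2c : HasCompactSupport (fun x => g x * g x) := hgc.mul_right
  obtain ⟨Cφ, hφ⟩ := lip_mul' hg2 hwL hg2c hwc
  set φ : E → ℝ := fun x => g x * g x * w x with hφd
  have hφc : HasCompactSupport φ := hg2c.mul_right
  have key : ∀ i : Fin 2, ∫ x, pd i (pd i U1) x * φ x =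
      - ∫ x, lineDeriv ℝ φ x (EuclideanSpace.single i 1) * pd i U1 x := by
    intro i
    have h1 := smooth_pd hU1s i
    obtain ⟨D, hD⟩ := h1.lipschitzWith_of_hasCompactSupport (cs_pd hU1c i) (by simp)
    have h2 := hD.integral_lineDeriv_mul_eq (μ := volume) hφ hφc (EuclideanSpace.single i 1)
    have h3 : ∀ x, lineDeriv ℝ (pd i U1) x (EuclideanSpace.single i 1) = pd i (pd i U1) x := by
      intro x
      exact ((h1.differentiable (by simp)) x).lineDeriv_eq_fderiv
    simp only [h3] at h2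
    rw [h2, ← integral_neg]
    congr 1
    funext x
    rw [lineDeriv_neg]; ring
  -- integrability
  have int1 : ∀ i : Fin 2, Integrable (fun x => pd i (pd i U1) x * φ x) := by
    intro i
    apply Continuous.integrable_of_hasCompactSupport
    · exact (smooth_pd (smooth_pd hU1s i) i).continuous.mul hφ.continuous
    · exact hφc.mul_left
  have int2 : ∀ i : Fin 2, Integrable
      (fun x => lineDeriv ℝ φ x (EuclideanSpace.single i 1) * pd i U1 x) := by
    intro i
    have h1 : Integrable (pd i U1) :=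
      (smooth_pd hU1s i).continuous.integrable_of_hasCompactSupport (cs_pd hU1c i)
    exact h1.bdd_mul (c := Cφ * ‖(EuclideanSpace.single i 1 : E)‖)
      (aestronglyMeasurable_lineDeriv hφ.continuous _)
      (Eventually.of_forall fun x => norm_lineDeriv_le_of_lipschitz ℝ hφ)
  have hU1K : ∀ x ∈ K, U1 =ᶠ[𝓝 x] u := by
    intro x hx
    have : ∀ᶠ y in 𝓝 x, ζ y = 1 := hζ1.filter_mono (nhds_le_nhdsSet hx)
    filter_upwards [this] with y hy
    simp [hU1, hy]
  -- left side
  have left : ∫ x, κ x * g x ^ 2 =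
      ∫ x, (lineDeriv ℝ φ x (EuclideanSpace.single 0 1) * pd 0 U1 x +
        lineDeriv ℝ φ x (EuclideanSpace.single 1 1) * pd 1 U1 x) := by
    rw [integral_add (int2 0) (int2 1)]
    have h1 : ∫ x, κ x * g x ^ 2 =
        - ∫ x, (pd 0 (pd 0 U1) x * φ x + pd 1 (pd 1 U1) x * φ x) := by
      rw [← integral_neg]
      congr 1
      funext x
      by_cases hx : x ∈ K
      · have e0 : pd 0 (pd 0 U1) x = pd 0 (pd 0 u) x := (pd_congr (pd_congr (hU1K x hx) 0) 0).self_of_nhds
        have e1 : pd 1 (pd 1 U1) x = pd 1 (pd 1 u) x := (pd_congr (pd_congr (hU1K x hx) 1) 1).self_of_nhds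
        have e2 := hu.eq x (hgs hx)
        unfold lap at e2
        have e3 : w x = (u x)⁻¹ := by
          have : ζ x = 1 := (hζ1.filter_mono (nhds_le_nhdsSet hx)).self_of_nhds
          simp [hw, this]
        have e4 : u x ≠ 0 := hgu x hx
        rw [e0, e1, hφd]
        simp only
        rw [e3]
        field_simp
        linear_combination (g x ^ 2) * e2
      · have : g x = 0 := image_eq_zero_of_notMem_tsupport hx
        simp [hφd, this]
    rw [h1, integral_add (int1 0) (int1 1), key 0, key 1]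
    ring
  rw [left]
  apply integral_mono_ae
  · exact (int2 0).add (int2 1)
  · -- integrability of the square of the derivative
    have hm : AEStronglyMeasurable (fun x => ‖fderiv ℝ g x‖ ^ 2) volume :=
      ((measurable_fderiv ℝ g).norm.pow_const 2).aestronglyMeasurable
    have hb : ∀ x, ‖fderiv ℝ g x‖ ≤ C := fun x => norm_fderiv_le_of_lipschitz ℝ hg
    have hi : Integrable (K.indicator fun _ : E => ((C : ℝ) ^ 2)) := by
      rw [integrable_indicator_iff hKc.measurableSet]
      exact integrableOn_const hKc.measure_lt_top.ne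
    refine hi.mono' hm (Eventually.of_forall fun x => ?_)
    by_cases hx : x ∈ K
    · rw [indicator_of_mem hx, norm_pow, norm_norm]
      exact pow_le_pow_left₀ (norm_nonneg _) (hb x) 2
    · have : g =ᶠ[𝓝 x] fun _ => 0 := notMem_tsupport_iff_eventuallyEq.mp hx
      rw [indicator_of_notMem hx, this.fderiv_eq]
      simp
  · filter_upwards [hg.ae_differentiableAt] with x hx
    by_cases hxK : x ∈ K
    · have hxB : x ∈ ball c R := hgs hxK
      have hux : u x ≠ 0 := hgu x hxK
      have hud : DifferentiableAt ℝ u x :=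
        (hu.smooth.contDiffAt (isOpen_ball.mem_nhds hxB)).differentiableAt (by simp)
      have hφe : φ =ᶠ[𝓝 x] fun y => g y * g y * (u y)⁻¹ := by
        have : ∀ᶠ y in 𝓝 x, ζ y = 1 := hζ1.filter_mono (nhds_le_nhdsSet hxK)
        filter_upwards [this] with y hy
        simp [hφd, hw, hy]
      have hinv : HasFDerivAt (fun y => (u y)⁻¹) (-(u x ^ 2)⁻¹ • fderiv ℝ u x) x :=
        (hasDerivAt_inv hux).comp_hasFDerivAt x hud.hasFDerivAt
      have hder : HasFDerivAt φ ((g x * g x) • (-(u x ^ 2)⁻¹ • fderiv ℝ u x) +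
          (u x)⁻¹ • (g x • fderiv ℝ g x + g x • fderiv ℝ g x)) x := by
        have h1 := (hx.hasFDerivAt.mul hx.hasFDerivAt).mul (hinv)
        exact h1.congr_of_eventuallyEq hφe
      have hl : ∀ i : Fin 2, lineDeriv ℝ φ x (EuclideanSpace.single i 1) =
          (g x * g x) * (-(u x ^ 2)⁻¹ * pd i u x) + (u x)⁻¹ * (g x * pd i g x + g x * pd i g x) := by
        intro i
        rw [hder.differentiableAt.lineDeriv_eq_fderiv, hder.fderiv]
        simp [pd]
        ring
      have hpu : ∀ i : Fin 2, pd i U1 x = pd i u x := fun i =>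
        (pd_congr (hU1K x hxK) i).self_of_nhds
      simp only [hl, hpu]
      have hss := sum_sq (fderiv ℝ g x)
      refine le_trans ?_ hss
      change _ ≤ pd 0 g x ^ 2 + pd 1 g x ^ 2
      have : pd 0 g x ^ 2 + pd 1 g x ^ 2 -
          ((g x * g x * (-(u x ^ 2)⁻¹ * pd 0 u x) + (u x)⁻¹ * (g x * pd 0 g x + g x * pd 0 g x)) *
            pd 0 u x +
          (g x * g x * (-(u x ^ 2)⁻¹ * pd 1 u x) + (u x)⁻¹ * (g x * pd 1 g x + g x * pd 1 g x)) *
            pd 1 u x) = (pd 0 g x - g x * (u x)⁻¹ * pd 0 u x) ^ 2 +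
            (pd 1 g x - g x * (u x)⁻¹ * pd 1 u x) ^ 2 := by
        field_simp
        ring
      have hn : 0 ≤ (pd 0 g x - g x * (u x)⁻¹ * pd 0 u x) ^ 2 +
            (pd 1 g x - g x * (u x)⁻¹ * pd 1 u x) ^ 2 := by positivity
      linarith
    · have hg0 : g =ᶠ[𝓝 x] fun _ => 0 := notMem_tsupport_iff_eventuallyEq.mp hxK
      have hφ0 : φ =ᶠ[𝓝 x] fun _ => 0 := by
        filter_upwards [hg0] with y hy
        simp [hφd, hy]
      have hl : ∀ i : Fin 2, lineDeriv ℝ φ x (EuclideanSpace.single i 1) = 0 := by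
        intro i
        rw [hφ0.lineDeriv_eq]
        simp [lineDeriv]
      simp only [hl, zero_mul, add_zero]
      positivity

end

end Pool.Agent.T6.H85.NL
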