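import Pool.Agent.T6.H85.NL.Stm

/-!
# Module JDS: the Jacobi inequality for the distance to the nodal set
-/

set_option autoImplicit false
open MeasureTheory Metric Filter Topology Real Set
open scoped ContDiff ENNReal NNReal

namespace Pool.Agent.T6.H85.NL

noncomputable section

namespace JDS

theorem lip_mul {f h : E → ℝ} {A B K L : ℝ≥0} (hf : LipschitzWith K f) (hh : LipschitzWith L h)
    (hA : ∀ x, |f x| ≤ A) (hB : ∀ x, |h x| ≤ B) :
    LipschitzWith (A * L + B * K) (fun x => f x * h x) := by
  refine LipschitzWith.of_dist_le_mul fun x y => ?_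
  rw [Real.dist_eq]
  have h1 := hf.dist_le_mul x y
  have h2 := hh.dist_le_mul x y
  rw [Real.dist_eq] at h1 h2
  have : f x * h x - f y * h y = f x * (h x - h y) + h y * (f x - f y) := by ring
  rw [this]
  calc _ ≤ |f x * (h x - h y)| + |h y * (f x - f y)| := abs_add_le _ _
    _ = |f x| * |h x - h y| + |h y| * |f x - f y| := by rw [abs_mul, abs_mul]
    _ ≤ A * (L * dist x y) + B * (K * dist x y) := by
        have := hA x
        have := hB y
        gcongr
    _ = _ := by push_cast; ring

/-- the slope of `sin m` -/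
theorem slope {m : E → ℝ} {K : ℝ≥0} (hm : LipschitzWith K m) (h0 : ∀ x, 0 ≤ m x)
    (h1 : ∀ x, m x ≤ π / 2) (x : E) :
    ‖fderiv ℝ (fun y => Real.sin (m y)) x‖ ≤ K * Real.cos (m x) := by
  have hc : 0 ≤ Real.cos (m x) :=
    Real.cos_nonneg_of_mem_Icc ⟨by linarith [h0 x, pi_pos], h1 x⟩
  apply le_of_forall_pos_le_add
  intro ε hε
  have hK0 : (0 : ℝ) ≤ K := K.coe_nonneg
  obtain ⟨η, hηd⟩ : ∃ η : ℝ, η = ε / (K + 1) := ⟨_, rfl⟩
  have hη : 0 < η := by rw [hηd]; positivity
  have hK : (K : ℝ) * η ≤ ε := by
    have : η * (K + 1) = ε := by rw [hηd]; field_simp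
    nlinarith
  have h2 : ∀ᶠ y in 𝓝 x, |Real.cos ((m y + m x) / 2)| < Real.cos (m x) + η := by
    have hcont : Continuous (fun y => |Real.cos ((m y + m x) / 2)|) := by
      have := hm.continuous
      fun_prop
    have h3 := hcont.tendsto x
    refine h3.eventually_lt_const ?_
    rw [add_self_div_two, abs_of_nonneg hc]
    linarith
  refine le_trans ?_ (show (K : ℝ) * (Real.cos (m x) + η) ≤ K * Real.cos (m x) + ε by nlinarith)
  apply norm_fderiv_le_of_lip' ℝ (by positivity)
  filter_upwards [h2] with y hy
  rw [Real.norm_eq_abs, Real.sin_sub_sin, abs_mul, abs_mul, abs_two]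
  have h3 : |Real.sin ((m y - m x) / 2)| ≤ |m y - m x| / 2 := by
    have := abs_sin_sub_sin_le ((m y - m x) / 2) 0
    simp only [Real.sin_zero, sub_zero] at this
    rwa [abs_div, abs_two] at this
  have h4 : |m y - m x| ≤ K * ‖y - x‖ := by
    have := hm.dist_le_mul y x
    rwa [Real.dist_eq, dist_eq_norm] at this
  calc 2 * |Real.sin ((m y - m x) / 2)| * |Real.cos ((m y + m x) / 2)|
      ≤ 2 * (|m y - m x| / 2) * (Real.cos (m x) + η) := by
        gcongr
    _ = |m y - m x| * (Real.cos (m x) + η) := by ring
    _ ≤ (K * ‖y - x‖) * (Real.cos (m x) + η) := by gcongr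
    _ = _ := by ring

theorem vol_annulus (c : E) {R : ℝ} (hR : 2 ≤ R) :
    (volume (closedBall c (R - 1) \ ball c (R - 2))).toReal = π * (2 * R - 3) := by
  have hsub : ball c (R - 2) ⊆ closedBall c (R - 1) :=
    ball_subset_closedBall.trans (closedBall_subset_closedBall (by linarith))
  rw [measure_sdiff hsub measurableSet_ball.nullMeasurableSet measure_ball_lt_top.ne,
    ENNReal.toReal_sub_of_le (measure_mono hsub) measure_closedBall_lt_top.ne,
    EuclideanSpace.volume_closedBall_fin_two, EuclideanSpace.volume_ball_fin_two,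
    ENNReal.toReal_mul, ENNReal.toReal_mul, ENNReal.toReal_pow, ENNReal.toReal_pow,
    ENNReal.toReal_ofReal (by linarith : (0 : ℝ) ≤ R - 1),
    ENNReal.toReal_ofReal (by linarith : (0 : ℝ) ≤ R - 2),
    ENNReal.toReal_ofReal pi_pos.le]
  ring

/-- the truncated rescaled distance -/
def mm (a δ : ℝ) (Z : Set E) (x : E) : ℝ := min (√a * max (infDist x Z - δ) 0) (π / 2)

theorem mm_nonneg (a δ : ℝ) (Z : Set E) (x : E) : 0 ≤ mm a δ Z x := by
  unfold mm
  have := pi_pos
  refine le_min ?_ (by positivity)
  positivity

theorem mm_le (a δ : ℝ) (Z : Set E) (x : E) : mm a δ Z x ≤ π / 2 := min_le_right _ _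

theorem mm_lip (a δ : ℝ) (Z : Set E) : LipschitzWith (NNReal.sqrt a.toNNReal) (mm a δ Z) := by
  unfold mm
  refine LipschitzWith.min_const ?_ _
  have h1 : LipschitzWith 1 (fun x : E => infDist x Z - δ) :=
    LipschitzWith.of_le_add fun x y => by
      have := infDist_le_infDist_add_dist (s := Z) (x := x) (y := y)
      linarith
  have h2 := h1.max_const 0
  refine LipschitzWith.of_dist_le_mul fun x y => ?_
  have h3 := h2.dist_le_mul x y
  rw [Real.dist_eq] at h3 ⊢
  rw [← mul_sub, abs_mul, abs_of_nonneg (Real.sqrt_nonneg a)]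
  have h4 : ((NNReal.sqrt a.toNNReal : ℝ≥0) : ℝ) = √a := by
    rw [Real.sqrt]
  rw [h4]
  refine mul_le_mul_of_nonneg_left ?_ (Real.sqrt_nonneg a)
  simpa using h3

theorem coe_sqrt (a : ℝ) : ((NNReal.sqrt a.toNNReal : ℝ≥0) : ℝ) = √a := by
  rw [Real.sqrt]

/-- the cutoff function -/
def chi (c : E) (R : ℝ) (x : E) : ℝ := max (min (R - 1 - dist x c) 1) 0

theorem chi_lip (c : E) (R : ℝ) : LipschitzWith 1 (chi c R) := by
  unfold chi
  refine LipschitzWith.max_const (LipschitzWith.min_const ?_ _) _
  refine LipschitzWith.of_le_add fun x y => ?_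
  have := dist_triangle y x c
  rw [dist_comm y x] at this
  linarith

theorem chi_nonneg (c : E) (R : ℝ) (x : E) : 0 ≤ chi c R x := le_max_right _ _

theorem chi_le (c : E) (R : ℝ) (x : E) : chi c R x ≤ 1 :=
  max_le (min_le_right _ _) zero_le_one

theorem chi_eq_one {c : E} {R : ℝ} {x : E} (hx : x ∈ ball c (R - 2)) : chi c R x = 1 := by
  rw [mem_ball] at hx
  unfold chi
  rw [min_eq_right (by linarith), max_eq_left zero_le_one]

theorem chi_eq_zero {c : E} {R : ℝ} {x : E} (hx : x ∉ closedBall c (R - 1)) : chi c R x = 0 := by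
  rw [mem_closedBall, not_le] at hx
  unfold chi
  apply max_eq_right
  exact (min_le_left _ _).trans (by linarith)

theorem main_delta (hJ : JACStm) (c : E) {R a : ℝ} (hR : 2 ≤ R) (ha : 0 < a) {κ u : E → ℝ}
    (hu : Sol (ball c R) κ u) (hκ : ∀ x ∈ ball c R, a ≤ κ x) {δ : ℝ} (hδ : 0 < δ) :
    -(2 * π * R * (1 + 1 / √a) ^ 2) ≤
      ∫ x in ball c (R - 2), Real.cos (2 * mm a δ (nodc (ball c R) u) x) := by
  set Z := nodc (ball c R) u with hZ
  set m := mm a δ Z with hm
  have hmL : LipschitzWith (NNReal.sqrt a.toNNReal) m := mm_lip a δ Z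
  set B := ball c (R - 2) with hB
  set g : E → ℝ := fun x => chi c R x * Real.sin (m x) with hg
  have hsinL : LipschitzWith (1 * NNReal.sqrt a.toNNReal) (fun x => Real.sin (m x)) :=
    Real.lipschitzWith_sin.comp hmL
  have hgL : LipschitzWith (1 * (1 * NNReal.sqrt a.toNNReal) + 1 * 1) g := by
    refine lip_mul (A := 1) (B := 1) (chi_lip c R) hsinL ?_ ?_
    · intro x
      rw [abs_of_nonneg (chi_nonneg c R x)]
      exact chi_le c R x
    · intro x
      exact Real.abs_sin_le_one _
  have hg0 : ∀ x, x ∉ closedBall c (R - 1) → g x = 0 := by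
    intro x hx
    rw [hg]
    simp only
    rw [chi_eq_zero hx, zero_mul]
  have hgc : HasCompactSupport g := HasCompactSupport.intro (isCompact_closedBall c (R - 1)) hg0
  have hts1 : tsupport g ⊆ closedBall c (R - 1) := by
    refine closure_minimal ?_ isClosed_closedBall
    intro x hx
    by_contra h
    exact hx (hg0 x h)
  have hts2 : tsupport g ⊆ {x | δ ≤ infDist x Z} := by
    refine closure_minimal ?_ (isClosed_le continuous_const (continuous_infDist_pt Z))
    intro x hx
    by_contra h
    apply hx
    have h1 : max (infDist x Z - δ) 0 = 0 := by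
      apply max_eq_right
      simp only [Set.mem_ofPred_eq, not_le] at h
      linarith
    have h2 : m x = 0 := by
      rw [hm]
      unfold mm
      rw [h1, mul_zero]
      exact min_eq_left (by positivity)
    rw [hg]
    simp only
    rw [h2, Real.sin_zero, mul_zero]
  have hclB : closedBall c (R - 1) ⊆ ball c R := closedBall_subset_ball (by linarith)
  have hgs : tsupport g ⊆ ball c R := hts1.trans hclB
  have hgu : ∀ x ∈ tsupport g, u x ≠ 0 := by
    intro x hx h0
    have h1 : x ∈ Z := fun _ => h0
    have h2 := hts2 hx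
    simp only [Set.mem_ofPred_eq] at h2
    rw [infDist_zero_of_mem h1] at h2
    linarith
  have hJac := hJ c R κ u hu g _ hgL hgc hgs hgu
  -- the lower bound
  have hint : Integrable (fun x => κ x * g x ^ 2) := by
    have hsub : Function.support (fun x => κ x * g x ^ 2) ⊆ tsupport g := by
      intro x hx
      by_contra h
      apply hx
      simp only
      rw [image_eq_zero_of_notMem_tsupport h]
      ring
    rw [← integrableOn_iff_integrable_of_support_subset hsub]
    apply ContinuousOn.integrableOn_compact hgc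
    exact (hu.pot.continuousOn.mono hgs).mul (hgL.continuous.continuousOn.pow 2)
  have hBR : B ⊆ ball c R := ball_subset_ball (by linarith)
  have hmc : Continuous m := hmL.continuous
  have intB : ∀ f : E → ℝ, Continuous f → IntegrableOn f B volume := by
    intro f hf
    exact (hf.continuousOn.integrableOn_compact (isCompact_closedBall c (R - 2))).mono_set
      ball_subset_closedBall
  have low : ∫ x in B, a * Real.sin (m x) ^ 2 ≤ ∫ x, κ x * g x ^ 2 := by
    rw [← integral_indicator measurableSet_ball]
    apply integral_mono_of_nonneg _ hint _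
    · refine Eventually.of_forall fun x => ?_
      simp only [Pi.zero_apply]
      exact indicator_nonneg (fun y _ => by positivity) x
    · refine Eventually.of_forall fun x => ?_
      by_cases hx : x ∈ B
      · simp only
        rw [indicator_of_mem hx]
        have : g x = Real.sin (m x) := by
          rw [hg]
          simp only
          rw [chi_eq_one hx, one_mul]
        rw [this]
        exact mul_le_mul_of_nonneg_right (hκ x (hBR hx)) (sq_nonneg _)
      · simp only
        rw [indicator_of_notMem hx]
        by_cases hxs : x ∈ tsupport g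
        · have := hκ x (hgs hxs)
          have : 0 ≤ κ x := by linarith
          positivity
        · rw [image_eq_zero_of_notMem_tsupport hxs]
          simp
  -- the upper bound
  set A := closedBall c (R - 1) \ ball c (R - 2) with hA
  have hAm : MeasurableSet A := measurableSet_closedBall.diff measurableSet_ball
  have hAf : volume A ≠ ⊤ := ((measure_mono sdiff_subset).trans_lt measure_closedBall_lt_top).ne
  have hcosm : Continuous (fun x => a * Real.cos (m x) ^ 2) := by fun_prop
  have up : ∫ x, ‖fderiv ℝ g x‖ ^ 2 ≤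
      (∫ x in B, a * Real.cos (m x) ^ 2) + (√a + 1) ^ 2 * (π * (2 * R - 3)) := by
    have iB : Integrable (B.indicator (fun x => a * Real.cos (m x) ^ 2)) :=
      (intB _ hcosm).integrable_indicator measurableSet_ball
    have iA : Integrable (A.indicator (fun _ : E => (√a + 1) ^ 2)) :=
      (integrableOn_const hAf).integrable_indicator hAm
    have e1 : (∫ x in B, a * Real.cos (m x) ^ 2) + (√a + 1) ^ 2 * (π * (2 * R - 3)) =
        ∫ x, (B.indicator (fun x => a * Real.cos (m x) ^ 2) x +
          A.indicator (fun _ => (√a + 1) ^ 2) x) := by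
      rw [integral_add iB iA, integral_indicator measurableSet_ball, integral_indicator hAm,
        setIntegral_const, smul_eq_mul, measureReal_def, vol_annulus c hR]
      ring
    rw [e1]
    apply integral_mono_of_nonneg _ (iB.add iA) _
    · exact Eventually.of_forall fun x => by
        simp only [Pi.zero_apply]
        positivity
    · refine Eventually.of_forall fun x => ?_
      simp only [Pi.add_apply]
      by_cases hxB : x ∈ B
      · have hxA : x ∉ A := fun h => h.2 hxB
        rw [indicator_of_mem hxB, indicator_of_notMem hxA, add_zero]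
        have hge : g =ᶠ[𝓝 x] fun y => Real.sin (m y) := by
          filter_upwards [isOpen_ball.mem_nhds hxB] with y hy
          rw [hg]
          simp only
          rw [chi_eq_one hy, one_mul]
        rw [hge.fderiv_eq]
        have h1 := slope hmL (mm_nonneg a δ Z) (mm_le a δ Z) x
        rw [coe_sqrt] at h1
        calc ‖fderiv ℝ (fun y => Real.sin (m y)) x‖ ^ 2 ≤ (√a * Real.cos (m x)) ^ 2 :=
              pow_le_pow_left₀ (norm_nonneg _) h1 2
          _ = a * Real.cos (m x) ^ 2 := by rw [mul_pow, Real.sq_sqrt ha.le]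
      · rw [indicator_of_notMem hxB]
        by_cases hxA : x ∈ A
        · rw [indicator_of_mem hxA, zero_add]
          have h1 : ‖fderiv ℝ g x‖ ≤ √a + 1 := by
            have := norm_fderiv_le_of_lipschitz ℝ (x₀ := x) hgL
            push_cast at this
            rw [Real.coe_toNNReal a ha.le] at this
            linarith
          exact pow_le_pow_left₀ (norm_nonneg _) h1 2
        · rw [indicator_of_notMem hxA]
          have h2 : x ∉ tsupport g := by
            intro h
            exact hxA ⟨hts1 h, hxB⟩
          have h3 : g =ᶠ[𝓝 x] fun _ => 0 := notMem_tsupport_iff_eventuallyEq.mp h2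
          rw [h3.fderiv_eq]
          simp
  have e2 : ∫ x in B, Real.cos (2 * m x) =
      (∫ x in B, Real.cos (m x) ^ 2) - ∫ x in B, Real.sin (m x) ^ 2 := by
    rw [← integral_sub (intB _ (by fun_prop)) (intB _ (by fun_prop))]
    congr 1
    funext x
    rw [Real.cos_two_mul']
  rw [integral_const_mul] at low up
  have h1 : -((√a + 1) ^ 2 * (π * (2 * R - 3))) ≤ a * ∫ x in B, Real.cos (2 * m x) := by
    rw [e2]
    linarith
  have hsa : 0 < √a := Real.sqrt_pos.mpr ha
  have h2 : 2 * π * R * (1 + 1 / √a) ^ 2 = (√a + 1) ^ 2 * (π * (2 * R)) / a := by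
    have : a = √a ^ 2 := (Real.sq_sqrt ha.le).symm
    rw [this, Real.sqrt_sq hsa.le]
    field_simp
  rw [h2, neg_le, ← mul_le_mul_iff_right₀ ha, mul_div_cancel₀ _ ha.ne']
  have h3 : (√a + 1) ^ 2 * (π * (2 * R - 3)) ≤ (√a + 1) ^ 2 * (π * (2 * R)) := by
    have := pi_pos
    gcongr
    linarith
  linarith

end JDS

open JDS in
theorem jds (hJ : JACStm) : JDSStm := by
  intro c R a hR ha κ u hu hκ
  set Z := nodc (ball c R) u with hZ
  have hlim : Tendsto (fun n : ℕ => ∫ x in ball c (R - 2),
      Real.cos (2 * mm a (1 / ((n : ℝ) + 1)) Z x)) atTop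
      (𝓝 (∫ x in ball c (R - 2), Real.cos (2 * min (√a * infDist x Z) (π / 2)))) := by
    apply tendsto_integral_of_dominated_convergence (fun _ => (1 : ℝ))
    · intro n
      have : Continuous (mm a (1 / ((n : ℝ) + 1)) Z) := (mm_lip _ _ _).continuous
      exact (by fun_prop : Continuous fun x =>
        Real.cos (2 * mm a (1 / ((n : ℝ) + 1)) Z x)).aestronglyMeasurable
    · exact integrableOn_const measure_ball_lt_top.ne
    · intro n
      exact Eventually.of_forall fun x => Real.abs_cos_le_one _
    · refine Eventually.of_forall fun x => ?_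
      have h1 : Tendsto (fun n : ℕ => 1 / ((n : ℝ) + 1)) atTop (𝓝 0) :=
        tendsto_one_div_add_atTop_nhds_zero_nat
      have h2 : Continuous (fun δ : ℝ => Real.cos (2 * mm a δ Z x)) := by
        unfold mm
        fun_prop
      have h3 := (h2.tendsto 0).comp h1
      have h4 : Real.cos (2 * mm a 0 Z x) = Real.cos (2 * min (√a * infDist x Z) (π / 2)) := by
        unfold mm
        rw [sub_zero, max_eq_left infDist_nonneg]
      rw [← h4]
      exact h3
  refine ge_of_tendsto' hlim fun n => ?_
  exact main_delta hJ c hR ha hu hκ (by positivity)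

end

end Pool.Agent.T6.H85.NL
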