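import Pool.Agent.T6.H85.NL.Stm

set_option autoImplicit false
open MeasureTheory Metric Filter Topology Real
open scoped ContDiff ENNReal NNReal

namespace Pool.Agent.T6.H85.NL

theorem larea (hC : CAREAStm) : LAREAStm := by
  intro t ht V hV u hu z hz hz0 hd η hη
  obtain ⟨θ, hθ, hθ2⟩ := hC t ht η hη
  set g : E := (InnerProductSpace.toDual ℝ E).symm (fderiv ℝ u z) with hg
  have hgy : ∀ y : E, inner ℝ g y = fderiv ℝ u z y := by
    intro y
    rw [hg, InnerProductSpace.toDual_symm_apply]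
  have hgn : ‖g‖ = ‖fderiv ℝ u z‖ := by
    rw [hg, LinearIsometryEquiv.norm_map]
  have hg0 : 0 < ‖g‖ := by rw [hgn]; exact norm_pos_iff.2 hd
  have hcont : ContinuousAt (fderiv ℝ u) z :=
    (hu.continuousOn_fderiv_of_isOpen hV le_rfl).continuousAt (hV.mem_nhds hz)
  have hev : ∀ᶠ x in 𝓝 z, ‖fderiv ℝ u x - fderiv ℝ u z‖ < θ * ‖g‖ := by
    have := Metric.continuousAt_iff'.1 hcont (θ * ‖g‖) (by positivity)
    simpa [dist_eq_norm] using this
  obtain ⟨r, hr, hrs⟩ := Metric.mem_nhds_iff.1 (hev.and (hV.mem_nhds hz))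
  refine ⟨min r (θ / 2), lt_min hr (by positivity), fun A hA hA0 => ?_⟩
  have hAr : A ⊆ ball z r := hA.trans (ball_subset_ball (min_le_left _ _))
  refine hθ2 ((1 / ‖g‖) • g) ?_ A ?_ ?_
  · rw [norm_smul, Real.norm_of_nonneg (by positivity)]
    field_simp
  · calc ediam A ≤ ediam (ball z (min r (θ / 2))) := ediam_mono hA
      _ ≤ 2 * ENNReal.ofReal (min r (θ / 2)) := by
          rw [← Metric.eball_ofReal]
          exact ediam_eball_le
      _ ≤ 2 * ENNReal.ofReal (θ / 2) := by gcongr; exact min_le_right _ _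
      _ = ENNReal.ofReal θ := by
          rw [show (2 : ℝ≥0∞) = ENNReal.ofReal 2 by simp, ← ENNReal.ofReal_mul (by norm_num)]
          congr 1; ring
  · intro p hp q hq
    have hu' : ∀ x ∈ ball z r, HasFDerivWithinAt (fun y => u y - fderiv ℝ u z y)
        (fderiv ℝ u x - fderiv ℝ u z) (ball z r) x := by
      intro x hx
      have hxV : x ∈ V := (hrs hx).2
      have h1 : DifferentiableAt ℝ u x :=
        ((hu x hxV).contDiffAt (hV.mem_nhds hxV)).differentiableAt (by norm_num)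
      exact (h1.hasFDerivAt.sub (fderiv ℝ u z).hasFDerivAt).hasFDerivWithinAt
    have key := (convex_ball z r).norm_image_sub_le_of_norm_hasFDerivWithin_le hu'
      (fun x hx => (hrs hx).1.le) (hAr hq) (hAr hp)
    rw [hA0 p hp, hA0 q hq] at key
    have h2 : inner ℝ (p - q) ((1 / ‖g‖) • g) = (1 / ‖g‖) * fderiv ℝ u z (p - q) := by
      rw [inner_smul_right, real_inner_comm, hgy]
    rw [h2, abs_mul, abs_of_pos (by positivity)]
    have h3 : |fderiv ℝ u z (p - q)| ≤ θ * ‖g‖ * ‖p - q‖ := by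
      have : (0 - fderiv ℝ u z p - (0 - fderiv ℝ u z q)) = - fderiv ℝ u z (p - q) := by
        rw [map_sub]; ring
      rw [this, norm_neg, Real.norm_eq_abs] at key
      exact key
    rw [dist_eq_norm]
    calc 1 / ‖g‖ * |fderiv ℝ u z (p - q)| ≤ 1 / ‖g‖ * (θ * ‖g‖ * ‖p - q‖) := by gcongr
      _ = θ * ‖p - q‖ := by field_simp

end Pool.Agent.T6.H85.NL
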