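import Pool.Agent.T6.H85.NL.Stm

set_option autoImplicit false
open MeasureTheory Metric Filter Topology Real
open scoped ContDiff ENNReal NNReal

namespace Pool.Agent.T6.H85.NL

namespace LOC

/-- a set with finite `μH[1]` contains no ball -/
theorem no_ball {N : Set E} (hN : μH[1] N ≠ ⊤) {x : E} {s : ℝ} (hs : 0 < s)
    (hsub : ball x s ⊆ N) : False := by
  have h1 : dimH (ball x s) = 2 := by
    have := Real.dimH_of_nonempty_interior (E := E) (s := ball x s)
      (by rw [isOpen_ball.interior_eq]; exact nonempty_ball.2 hs)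
    rw [this]; simp
  have h2 : μH[((1 : ℝ≥0) : ℝ)] (ball x s) = ⊤ := by
    apply hausdorffMeasure_of_lt_dimH
    rw [h1]; norm_num
  have h3 : μH[1] (ball x s) = ⊤ := by simpa using h2
  exact hN (top_le_iff.1 (h3 ▸ measure_mono hsub))

theorem dl_append (l : List (Fin 2)) (i : Fin 2) (f : E → ℝ) :
    dl l (pd i f) = dl (l ++ [i]) f := by
  induction l with
  | nil => rfl
  | cons j l ih => simp only [dl, List.cons_append]; rw [ih]

theorem pd_smooth {V : Set E} (hV : IsOpen V) {f : E → ℝ} (hf : ContDiffOn ℝ ∞ f V) (i : Fin 2) :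
    ContDiffOn ℝ ∞ (pd i f) V := by
  have h1 : ContDiffOn ℝ ∞ (fderiv ℝ f) V := hf.fderiv_of_isOpen hV (by simp)
  exact h1.clm_apply contDiffOn_const

end LOC

open LOC

theorem loc (hF : FLATStm) (hSU : SUCStm) (hSI : SINGStm) (hCi : CIRCStm) (hJ : JDSStm)
    (hT : TUBEStm) (hLa : LAYStm) : LOCStm := by
  intro c R a b hR ha hab κ u h hκ
  by_cases hN : μH[1] (nod (ball c R) u) = ⊤
  · rw [hN]; exact le_top
  have hsa : 0 < √a := lt_of_lt_of_le (by positivity) ha
  have ha0 : 0 < a := Real.sqrt_pos.1 hsa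
  have hb0 : 0 < b := ha0.trans_le hab
  have hsab : √a ≤ √b := Real.sqrt_le_sqrt hab
  -- no open set of zeros
  have nob : ∀ (x : E) (s : ℝ), 0 < s → ball x s ⊆ ball c R → ¬ ∀ y ∈ ball x s, u y = 0 := by
    intro x s hs hsub hz
    exact no_ball hN hs (fun y hy => ⟨hsub hy, hz y hy⟩)
  -- finite order
  have hnf : ∀ z ∈ ball c R, ∃ l : List (Fin 2), dl l u z ≠ 0 := by
    intro z hz
    by_contra hcon
    push Not at hcon
    obtain ⟨r, hr, hrsub⟩ := Metric.isOpen_ball.mem_nhds hz |> Metric.mem_nhds_iff.1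
    have hus : ContDiffOn ℝ ∞ u (ball z r) := h.smooth.mono hrsub
    have hb1 := hF z r (r / 2) (by linarith) (by linarith) u hus hcon
    have hb2 : ∀ i, ∀ N : ℕ, ∃ C : ℝ, ∀ x ∈ closedBall z (r / 2), |pd i u x| ≤ C * ‖x - z‖ ^ N :=
      fun i => hF z r (r / 2) (by linarith) (by linarith) (pd i u) (pd_smooth isOpen_ball hus i)
        (fun l => by rw [dl_append]; exact hcon _)
    obtain ⟨s, hs, hs0⟩ := hSU z r b hr u hus (by
      intro x hx
      have h1 := h.eq x (hrsub hx)
      have h2 := hκ x (hrsub hx)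
      have h3 : lap u x = -(κ x * u x) := by linarith
      rw [h3, abs_neg, abs_mul, abs_of_pos (ha0.trans_le h2.1)]
      gcongr
      exact h2.2) (by
      intro N
      obtain ⟨C0, h0⟩ := hb1 N
      obtain ⟨C1, h1⟩ := hb2 0 N
      obtain ⟨C2, h2⟩ := hb2 1 N
      refine ⟨max C0 (max C1 C2), fun x hx => ?_⟩
      have hx' := ball_subset_closedBall hx
      have hp : 0 ≤ ‖x - z‖ ^ N := by positivity
      refine ⟨(h0 x hx').trans (by gcongr; exact le_max_left _ _), fun i => ?_⟩
      fin_cases i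
      · exact (h1 x hx').trans (by gcongr; exact (le_max_left _ _).trans (le_max_right _ _))
      · exact (h2 x hx').trans (by gcongr; exact (le_max_right _ _).trans (le_max_right _ _)))
    refine nob z (min s r) (lt_min hs hr) ?_ ?_
    · exact (ball_subset_ball (min_le_right _ _)).trans hrsub
    · intro y hy
      exact hs0 y (ball_subset_ball (min_le_left _ _) hy)
  have hcount := hSI c R κ u h hnf
  -- tube inequality
  set N := nod (ball c R) u with hNdef
  set L : ℝ := (μH[1] N).toReal with hL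
  have hL0 : 0 ≤ L := ENNReal.toReal_nonneg
  set d : E → ℝ := fun x => infDist x (nodc (ball c R) u) with hd
  have hne : (nodc (ball c R) u).Nonempty := by
    have : ∃ y : E, y ∉ ball c R := by
      obtain ⟨v, hv⟩ := exists_norm_eq E (show (0:ℝ) ≤ R by linarith)
      refine ⟨c + v, ?_⟩
      simp [hv]
    obtain ⟨y, hy⟩ := this
    exact ⟨y, fun h => absurd h hy⟩
  have htube : ∀ t : ℝ, 0 < t → √b * t < π / 2 →
      volume {x | x ∈ ball c (R - 2) ∧ d x < t} ≤ ENNReal.ofReal (2 * t * L) := by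
    intro t ht hbt
    have ht2 : t < 2 := by
      by_contra hcon
      push Not at hcon
      have h1 : √b * t ≥ π / 4 * 2 := mul_le_mul (ha.trans hsab) hcon (by norm_num) (by positivity)
      linarith
    have key : 2 * volume {x | x ∈ ball c (R - 2) ∧ d x < t} ≤
        ENNReal.ofReal (4 * t) * μH[1] N := by
      refine hT t ht (ball c R) isOpen_ball u (h.smooth.of_le (by norm_cast)) hcount _ ?_
      rintro x ⟨hx1, hx2⟩
      rw [mem_ball] at hx1
      obtain ⟨z, hz, hzt⟩ := (Metric.infDist_lt_iff hne).1 hx2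
      have hzR : z ∈ ball c R := by
        rw [mem_ball]
        calc dist z c ≤ dist z x + dist x c := dist_triangle _ _ _
          _ < t + (R - 2) := by rw [dist_comm z x]; linarith
          _ ≤ R := by linarith
      have hz0 : u z = 0 := hz hzR
      have hsub : ball x (R - dist x c) ⊆ ball c R := by
        intro y hy
        rw [mem_ball] at hy ⊢
        calc dist y c ≤ dist y x + dist x c := dist_triangle _ _ _
          _ < (R - dist x c) + dist x c := by linarith
          _ = R := by ring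
      have htr : t < R - dist x c := by linarith
      rcases hCi x t (R - dist x c) b ht htr hb0 hbt κ u
        ⟨h.smooth.mono hsub, h.pot.mono hsub, fun y hy => h.eq y (hsub hy)⟩
        (fun y hy => ⟨(ha0.trans_le (hκ y (hsub hy)).1).le, (hκ y (hsub hy)).2⟩) z
        (by rw [mem_ball, dist_comm]; exact hzt) hz0 with hall | ⟨p, q, hpq, hp, hq, hp0, hq0⟩
      · exact absurd hall (nob x t ht ((ball_subset_ball htr.le).trans hsub))
      · refine ⟨p, ⟨hsub ?_, hp0⟩, q, ⟨hsub ?_, hq0⟩, hpq, hp, hq⟩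
        · rw [mem_ball, hp]; exact htr
        · rw [mem_ball, hq]; exact htr
    have h2 : ENNReal.ofReal (4 * t) * μH[1] N = 2 * ENNReal.ofReal (2 * t * L) := by
      rw [← ENNReal.ofReal_toReal hN, ← hL, ← ENNReal.ofReal_mul (by positivity),
        show (2 : ℝ≥0∞) = ENNReal.ofReal 2 by simp, ← ENNReal.ofReal_mul (by norm_num)]
      congr 1; ring
    rw [h2] at key
    exact (ENNReal.mul_le_mul_iff_right (by norm_num) (by norm_num)).1 key
  have hvol : volume (ball c (R - 2)) = ENNReal.ofReal (π * (R - 2) ^ 2) := by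
    rw [EuclideanSpace.volume_ball_fin_two, ← ENNReal.ofReal_pow (by linarith), mul_comm,
      ENNReal.ofReal_mul Real.pi_pos.le]
  have h1 := hJ c R a hR ha0 κ u h (fun x hx => (hκ x hx).1)
  have h2 := hLa (ball c (R - 2)) measurableSet_ball (by rw [hvol]; exact ENNReal.ofReal_ne_top) d
    (continuous_infDist_pt _).measurable (fun x => infDist_nonneg) L a b hL0 ha0 hab htube
  have h3 := h1.trans h2
  rw [hvol, ENNReal.toReal_ofReal (by positivity)] at h3
  rw [← ENNReal.ofReal_toReal hN]
  apply ENNReal.ofReal_le_ofReal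
  rw [← hL]
  have h4 : √a * (2 * π * R * (1 + 1 / √a) ^ 2 + π * (R - 2) ^ 2 * Real.cos (π * √(a / b)))
      ≥ - (π * L) := by
    have h5 : √a * (π * L / √a) = π * L := by field_simp
    have h6 : 0 ≤ √a * (π * L / √a + π * (R - 2) ^ 2 * Real.cos (π * √(a / b)) +
        2 * π * R * (1 + 1 / √a) ^ 2) := by
      apply mul_nonneg hsa.le
      linarith
    have : √a * (π * L / √a + π * (R - 2) ^ 2 * Real.cos (π * √(a / b)) +
        2 * π * R * (1 + 1 / √a) ^ 2) = √a * (π * L / √a) +
        √a * (2 * π * R * (1 + 1 / √a) ^ 2 + π * (R - 2) ^ 2 * Real.cos (π * √(a / b))) := by ring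
    rw [this, h5] at h6
    linarith
  have hpi := Real.pi_pos
  have h7 : π * (√a * ((R - 2) ^ 2 * (-Real.cos (π * √(a / b))) - 2 * R * (1 + 1 / √a) ^ 2))
      ≤ π * L := by
    have : π * (√a * ((R - 2) ^ 2 * (-Real.cos (π * √(a / b))) - 2 * R * (1 + 1 / √a) ^ 2)) =
      -(√a * (2 * π * R * (1 + 1 / √a) ^ 2 + π * (R - 2) ^ 2 * Real.cos (π * √(a / b)))) := by
      ring
    rw [this]; linarith
  exact le_of_mul_le_mul_left h7 hpi

end Pool.Agent.T6.H85.NL
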