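import Pool.Agent.T6.H85.NL.Stm

/-!
# Nodal length of planar waves: sharpness (module SHARP)
-/

set_option autoImplicit false
open MeasureTheory Metric Filter Topology Real
open scoped ContDiff ENNReal NNReal

namespace Pool.Agent.T6.H85.NL

namespace SHARP

/-- a vertical chord -/
lemma chord (c : E) (R t : ℝ) :
    μH[1] {x : E | x ∈ ball c R ∧ x 0 = t} ≤ ENNReal.ofReal (2 * √(R ^ 2 - (t - c 0) ^ 2)) := by
  set h := √(R ^ 2 - (t - c 0) ^ 2) with hh
  have hlip : LipschitzWith 1 (fun y : ℝ => (!₂[t, y] : E)) := by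
    apply LipschitzWith.of_dist_le_mul
    intro y z
    rw [EuclideanSpace.dist_eq, Fin.sum_univ_two]
    simp [Real.sqrt_sq_eq_abs, Real.dist_eq]
  have hsub : {x : E | x ∈ ball c R ∧ x 0 = t} ⊆
      (fun y : ℝ => (!₂[t, y] : E)) '' Set.Icc (c 1 - h) (c 1 + h) := by
    rintro x ⟨hx, hxt⟩
    refine ⟨x 1, ?_, ?_⟩
    · rw [mem_ball, EuclideanSpace.dist_eq, Fin.sum_univ_two, Real.dist_eq, Real.dist_eq, sq_abs,
        sq_abs, hxt] at hx
      have h0 : 0 < R := (Real.sqrt_nonneg _).trans_lt hx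
      have h1 : (t - c 0) ^ 2 + (x 1 - c 1) ^ 2 < R ^ 2 := (Real.sqrt_lt' h0).1 hx
      have h2 : |x 1 - c 1| ≤ h := Real.abs_le_sqrt (by linarith)
      rw [abs_le] at h2
      exact ⟨by linarith [h2.1], by linarith [h2.2]⟩
    · ext i
      fin_cases i
      · exact hxt.symm
      · rfl
  calc μH[1] {x : E | x ∈ ball c R ∧ x 0 = t}
      ≤ μH[1] ((fun y : ℝ => (!₂[t, y] : E)) '' Set.Icc (c 1 - h) (c 1 + h)) := measure_mono hsub
    _ ≤ ((1 : ℝ≥0) : ℝ≥0∞) ^ (1 : ℝ) * μH[1] (Set.Icc (c 1 - h) (c 1 + h)) :=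
        hlip.hausdorffMeasure_image_le zero_le_one _
    _ = ENNReal.ofReal (2 * h) := by
        rw [hausdorffMeasure_real, Real.volume_Icc, ENNReal.coe_one, ENNReal.one_rpow, one_mul]
        congr 1
        ring

/-- the length of a chord -/
noncomputable def g (R x : ℝ) : ℝ := 2 * √(R ^ 2 - (π * x) ^ 2)

lemma g_nonneg (R x : ℝ) : 0 ≤ g R x := by unfold g; positivity

lemma g_neg (R x : ℝ) : g R (-x) = g R x := by
  unfold g
  congr 2
  ring

lemma g_le {R : ℝ} (hR : 0 ≤ R) (x : ℝ) : g R x ≤ 2 * R := by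
  unfold g
  have h1 : √(R ^ 2 - (π * x) ^ 2) ≤ R := by
    rw [Real.sqrt_le_left hR]
    nlinarith [sq_nonneg (π * x)]
  linarith

lemma g_anti (R : ℝ) : AntitoneOn (g R) (Set.Ici 0) := by
  intro x hx y hy hxy
  rw [Set.mem_Ici] at hx hy
  unfold g
  have h1 := Real.pi_pos
  have h2 : (π * x) ^ 2 ≤ (π * y) ^ 2 := by gcongr
  gcongr

lemma g_cont (R : ℝ) : Continuous (g R) := by
  unfold g
  fun_prop

lemma sqrt_int : ∫ x in (0 : ℝ)..1, √(1 - x ^ 2) = π / 4 := by
  have h1 := integral_sqrt_one_sub_sq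
  have hc : Continuous fun x : ℝ => √(1 - x ^ 2) := by fun_prop
  have h2 : ∫ x in (-1 : ℝ)..0, √(1 - x ^ 2) = ∫ x in (0 : ℝ)..1, √(1 - x ^ 2) := by
    have h3 := intervalIntegral.integral_comp_neg (a := 0) (b := 1) (fun x : ℝ => √(1 - x ^ 2))
    rw [neg_zero] at h3
    rw [← h3]
    apply intervalIntegral.integral_congr
    intro x _
    simp only [neg_sq]
  have h4 := intervalIntegral.integral_add_adjacent_intervals (hc.intervalIntegrable (-1) 0)
    (hc.intervalIntegrable 0 1) (μ := volume)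
  rw [h1, h2] at h4
  linarith

lemma sqrt_int_le {B : ℝ} (hB : 0 ≤ B) : ∫ x in (0 : ℝ)..B, √(1 - x ^ 2) ≤ π / 4 := by
  have hc : Continuous fun x : ℝ => √(1 - x ^ 2) := by fun_prop
  have h1 : ∫ x in (0 : ℝ)..B, √(1 - x ^ 2) ≤ ∫ x in (0 : ℝ)..(max 1 B), √(1 - x ^ 2) := by
    apply intervalIntegral.integral_mono_interval le_rfl hB (le_max_right _ _)
    · exact ae_of_all _ fun x => Real.sqrt_nonneg _
    · exact hc.intervalIntegrable _ _
  have h2 : ∫ x in (1 : ℝ)..(max 1 B), √(1 - x ^ 2) = 0 := by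
    have h3 : ∫ x in (1 : ℝ)..(max 1 B), √(1 - x ^ 2) = ∫ x in (1 : ℝ)..(max 1 B), (0 : ℝ) := by
      apply intervalIntegral.integral_congr
      intro x hx
      rw [Set.uIcc_of_le (le_max_left _ _)] at hx
      apply Real.sqrt_eq_zero_of_nonpos
      nlinarith [hx.1]
    rw [h3, intervalIntegral.integral_zero]
  have h4 := intervalIntegral.integral_add_adjacent_intervals (hc.intervalIntegrable 0 1)
    (hc.intervalIntegrable 1 (max 1 B)) (μ := volume)
  rw [h2, sqrt_int, add_zero] at h4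
  rw [h4]
  exact h1

lemma g_int_le {R : ℝ} (hR : 0 < R) {B : ℝ} (hB : 0 ≤ B) :
    ∫ x in (0 : ℝ)..B, g R x ≤ R ^ 2 / 2 := by
  have hpi := Real.pi_pos
  have h1 : ∀ x, g R x = 2 * R * √(1 - ((π / R) * x) ^ 2) := by
    intro x
    unfold g
    have h2 : R ^ 2 - (π * x) ^ 2 = R ^ 2 * (1 - ((π / R) * x) ^ 2) := by
      field_simp
    rw [h2, Real.sqrt_mul (sq_nonneg R), Real.sqrt_sq hR.le]
    ring
  have h3 : ∫ x in (0 : ℝ)..B, g R x =
      2 * R * ((π / R)⁻¹ * ∫ x in (0 : ℝ)..(π / R * B), √(1 - x ^ 2)) := by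
    simp only [h1]
    rw [intervalIntegral.integral_const_mul]
    congr 1
    have h4 := intervalIntegral.integral_comp_mul_left (a := 0) (b := B)
      (fun x : ℝ => √(1 - x ^ 2)) (show π / R ≠ 0 by positivity)
    rw [mul_zero, smul_eq_mul] at h4
    exact h4
  rw [h3]
  have h5 := sqrt_int_le (show 0 ≤ π / R * B by positivity)
  calc 2 * R * ((π / R)⁻¹ * ∫ x in (0 : ℝ)..(π / R * B), √(1 - x ^ 2))
      ≤ 2 * R * ((π / R)⁻¹ * (π / 4)) := by gcongr
    _ = R ^ 2 / 2 := by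
      field_simp
      norm_num

/-- half of the chords -/
lemma half {R : ℝ} (hR : 0 < R) {p : ℝ} (hp : 0 ≤ p) :
    ∑' n : ℕ, ENNReal.ofReal (g R (n + p)) ≤
      ENNReal.ofReal (g R p + (R ^ 2 / 2 - ∫ x in (0 : ℝ)..p, g R x)) := by
  have hI := g_int_le hR hp
  rw [tsum_eq_zero_add' ENNReal.summable]
  rw [ENNReal.ofReal_add (g_nonneg R p) (by linarith)]
  apply add_le_add
  · rw [Nat.cast_zero, zero_add]
  rw [ENNReal.tsum_eq_iSup_nat]
  apply iSup_le
  intro N
  rw [← ENNReal.ofReal_sum_of_nonneg (fun i _ => g_nonneg R _)]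
  apply ENNReal.ofReal_le_ofReal
  have h1 : ∑ i ∈ Finset.range N, g R (p + ((i + 1 : ℕ) : ℝ)) ≤ ∫ x in p..(p + N), g R x := by
    apply AntitoneOn.sum_le_integral
    apply (g_anti R).mono
    intro x hx
    exact hp.trans hx.1
  have h2 := intervalIntegral.integral_add_adjacent_intervals
    ((g_cont R).intervalIntegrable 0 p) ((g_cont R).intervalIntegrable p (p + N)) (μ := volume)
  have h3 := g_int_le hR (show 0 ≤ p + N by positivity)
  have h4 : ∑ i ∈ Finset.range N, g R (((i + 1 : ℕ) : ℝ) + p) =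
      ∑ i ∈ Finset.range N, g R (p + ((i + 1 : ℕ) : ℝ)) :=
    Finset.sum_congr rfl fun i _ => by rw [add_comm]
  rw [h4]
  linarith

lemma int_ge {R : ℝ} {p q : ℝ} (hp : 0 ≤ p) (hpq : p ≤ q) :
    p * g R q ≤ ∫ x in (0 : ℝ)..p, g R x := by
  have h1 : ∫ _x in (0 : ℝ)..p, g R q ≤ ∫ x in (0 : ℝ)..p, g R x := by
    apply intervalIntegral.integral_mono_on hp intervalIntegrable_const
      ((g_cont R).intervalIntegrable _ _)
    intro x hx
    exact g_anti R (Set.mem_Ici.2 hx.1) (Set.mem_Ici.2 (hp.trans hpq)) (hx.2.trans hpq)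
  rwa [intervalIntegral.integral_const, sub_zero, smul_eq_mul] at h1

lemma two {R : ℝ} (hR : 0 ≤ R) {p q : ℝ} (hp : 0 ≤ p) (hq : 0 ≤ q) (hpq : p + q = 1) :
    g R p + g R q ≤ 2 * R + (∫ x in (0 : ℝ)..p, g R x) + ∫ x in (0 : ℝ)..q, g R x := by
  wlog h : p ≤ q generalizing p q
  · have := this hq hp (by linarith) (by linarith)
    linarith
  have h1 := int_ge (R := R) hp h
  have h2 := int_ge (R := R) hq le_rfl
  have h3 := g_le hR p
  have h4 : p * g R q + q * g R q = g R q := by rw [← add_mul, hpq, one_mul]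
  linarith

lemma sum_le {R : ℝ} (hR : 0 < R) (β : ℝ) :
    ∑' k : ℤ, ENNReal.ofReal (g R (k + β)) ≤ ENNReal.ofReal (R ^ 2 + 2 * R) := by
  set p := Int.fract β with hp
  have hp0 : 0 ≤ p := Int.fract_nonneg β
  have hp1 : p ≤ 1 := (Int.fract_lt_one β).le
  have h1 : ∑' k : ℤ, ENNReal.ofReal (g R (k + β)) = ∑' k : ℤ, ENNReal.ofReal (g R (k + p)) := by
    rw [← (Equiv.addRight ⌊β⌋).tsum_eq (fun k : ℤ => ENNReal.ofReal (g R (k + p)))]
    refine tsum_congr fun k => ?_
    congr 2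
    rw [Equiv.coe_addRight, Int.cast_add, hp]
    have := Int.floor_add_fract β
    linarith
  have h2 : HasSum (fun k : ℤ => ENNReal.ofReal (g R (k + p)))
      (∑' n : ℕ, ENNReal.ofReal (g R (n + p)) + ∑' n : ℕ, ENNReal.ofReal (g R (n + (1 - p)))) := by
    apply HasSum.of_nat_of_neg_add_one
    · exact ENNReal.summable.hasSum
    · have h3 : (fun n : ℕ => ENNReal.ofReal (g R (((-((n : ℤ) + 1) : ℤ) : ℝ) + p))) =
          fun n : ℕ => ENNReal.ofReal (g R (n + (1 - p))) := by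
        funext n
        congr 1
        rw [← g_neg]
        congr 1
        push_cast
        ring
      rw [h3]
      exact ENNReal.summable.hasSum
  rw [h1, h2.tsum_eq]
  have hq0 : 0 ≤ 1 - p := by linarith
  refine (add_le_add (half hR hp0) (half hR hq0)).trans ?_
  have hI1 := g_int_le hR hp0
  have hI2 := g_int_le hR hq0
  have hg1 := g_nonneg R p
  have hg2 := g_nonneg R (1 - p)
  rw [← ENNReal.ofReal_add (by linarith) (by linarith)]
  apply ENNReal.ofReal_le_ofReal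
  have := two hR.le hp0 hq0 (by ring)
  linarith

end SHARP

open SHARP in
theorem sharp : SHARPStm := by
  intro c R hR
  rcases hR.eq_or_lt with h0 | hR0
  · rw [← h0]
    have : {x : E | x ∈ ball c 0 ∧ Real.cos (x 0) = 0} = ∅ := by
      rw [Set.eq_empty_iff_forall_notMem]
      rintro x ⟨hx, -⟩
      rw [ball_zero] at hx
      exact hx
    rw [this, measure_empty]
    exact zero_le
  have hpi := Real.pi_pos
  have hsub : {x : E | x ∈ ball c R ∧ Real.cos (x 0) = 0} ⊆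
      ⋃ k : ℤ, {x : E | x ∈ ball c R ∧ x 0 = (2 * k + 1) * π / 2} := by
    rintro x ⟨hx, hx0⟩
    obtain ⟨k, hk⟩ := Real.cos_eq_zero_iff.1 hx0
    exact Set.mem_iUnion.2 ⟨k, hx, hk⟩
  refine (measure_mono hsub).trans ((measure_iUnion_le _).trans ?_)
  refine le_trans (ENNReal.tsum_le_tsum fun k => ?_) (sum_le hR0 (1 / 2 - c 0 / π))
  refine (chord c R _).trans (le_of_eq ?_)
  unfold g
  congr 3
  have : (2 * (k : ℝ) + 1) * π / 2 - c 0 = π * (k + (1 / 2 - c 0 / π)) := by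
    field_simp
    ring
  rw [this]

end Pool.Agent.T6.H85.NL
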