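import Pool.Agent.T6.H85.NL.Stm

set_option autoImplicit false
open MeasureTheory Metric Filter Topology Real
open scoped ContDiff ENNReal NNReal

namespace Pool.Agent.T6.H85.NL

namespace SMP

/-- second derivative test in dimension one -/
theorem one_dim (g g' : ℝ → ℝ) (a : ℝ) (hloc : IsLocalMin g 0)
    (h1 : ∀ᶠ t in 𝓝 (0 : ℝ), HasDerivAt g (g' t) t) (h2 : HasDerivAt g' a 0) : 0 ≤ a := by
  by_contra hneg
  push Not at hneg
  have hd : deriv g =ᶠ[𝓝 0] g' := h1.mono (fun t ht => ht.deriv)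
  have hdd : deriv (deriv g) 0 = a := by
    rw [hd.deriv_eq]; exact h2.deriv
  have h0 : deriv g 0 = 0 := hloc.deriv_eq_zero
  have hc : ContinuousAt g 0 := h1.self_of_nhds.continuousAt
  have hmax : IsLocalMax g 0 := isLocalMax_of_deriv_deriv_neg (by rw [hdd]; exact hneg) h0 hc
  have hconst : g =ᶠ[𝓝 0] fun _ => g 0 := by
    filter_upwards [hloc, hmax] with t h3 h4
    exact le_antisymm h4 h3
  have h5 : deriv g =ᶠ[𝓝 0] fun _ => 0 := by
    have := hconst.deriv
    simpa using this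
  have h6 : deriv (deriv g) 0 = 0 := by
    rw [h5.deriv_eq]; simp
  linarith

/-- basis vectors -/
noncomputable abbrev e (i : Fin 2) : E := EuclideanSpace.single i 1

theorem line_deriv {f : E → ℝ} {x : E} {i : Fin 2} {t : ℝ}
    (hf : DifferentiableAt ℝ f (x + t • e i)) :
    HasDerivAt (fun s : ℝ => f (x + s • e i)) (pd i f (x + t • e i)) t := by
  have h1 : HasDerivAt (fun s : ℝ => x + s • e i) (e i) t := by
    have := ((hasDerivAt_id t).smul_const (e i)).const_add x
    simpa using this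
  have h2 := hf.hasFDerivAt.comp_hasDerivAt t h1
  exact h2

theorem nsq (x y : E) (t : ℝ) (i : Fin 2) :
    ‖x + t • e i - y‖ ^ 2 = ‖x - y‖ ^ 2 + 2 * t * (x i - y i) + t ^ 2 := by
  rw [EuclideanSpace.norm_sq_eq, EuclideanSpace.norm_sq_eq, Fin.sum_univ_two, Fin.sum_univ_two]
  simp only [Real.norm_eq_abs, sq_abs, e]
  fin_cases i <;> simp <;> ring

/-- the minimum principle at an interior local minimum of `h - ε w` -/
theorem no_min {c : E} {r : ℝ} {h : E → ℝ} (hh : ContDiffOn ℝ 2 h (ball c r))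
    (hl : ∀ x ∈ ball c r, lap h x ≤ 0) {y : E} {α ε : ℝ} (hε : 0 < ε) (hα : 0 < α)
    {x : E} (hx : x ∈ ball c r) (hd : 1 < α * ‖x - y‖ ^ 2)
    (hmin : IsLocalMin (fun z => h z - ε * Real.exp (-α * ‖z - y‖ ^ 2)) x) : False := by
  have hdiff : ∀ z ∈ ball c r, DifferentiableAt ℝ h z := fun z hz =>
    (hh.contDiffAt (isOpen_ball.mem_nhds hz)).differentiableAt (by norm_num)
  have hfd : ContDiffOn ℝ 1 (fderiv ℝ h) (ball c r) := hh.fderiv_of_isOpen isOpen_ball (by norm_num)
  have key : ∀ i : Fin 2, 0 ≤ pd i (pd i h) x -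
      ε * ((4 * α ^ 2 * (x i - y i) ^ 2 - 2 * α) * Real.exp (-α * ‖x - y‖ ^ 2)) := by
    intro i
    have hcont : Continuous (fun s : ℝ => x + s • e i) := by fun_prop
    have htend : Tendsto (fun s : ℝ => x + s • e i) (𝓝 0) (𝓝 x) := by
      have := hcont.tendsto 0
      simpa using this
    refine one_dim (fun s => h (x + s • e i) -
        ε * Real.exp (-α * (‖x - y‖ ^ 2 + 2 * s * (x i - y i) + s ^ 2)))
      (fun s => pd i h (x + s • e i) - ε * (Real.exp (-α * (‖x - y‖ ^ 2 + 2 * s * (x i - y i) + s ^ 2)) *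
        (-α * (2 * (x i - y i) + 2 * s)))) _ ?_ ?_ ?_
    · have h1 : ∀ᶠ s in 𝓝 (0 : ℝ), h x - ε * Real.exp (-α * ‖x - y‖ ^ 2) ≤
          h (x + s • e i) - ε * Real.exp (-α * ‖x + s • e i - y‖ ^ 2) := htend.eventually hmin
      unfold IsLocalMin IsMinFilter
      filter_upwards [h1] with s hs
      rw [nsq] at hs
      simpa using hs
    · have h1 : ∀ᶠ s in 𝓝 (0 : ℝ), x + s • e i ∈ ball c r :=
        htend.eventually (isOpen_ball.mem_nhds hx)
      filter_upwards [h1] with s hs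
      have h2 := line_deriv (hdiff _ hs)
      have h3 : HasDerivAt (fun s : ℝ => -α * (‖x - y‖ ^ 2 + 2 * s * (x i - y i) + s ^ 2))
          (-α * (2 * (x i - y i) + 2 * s)) s := by
        have h4 : HasDerivAt (fun s : ℝ => ‖x - y‖ ^ 2 + 2 * s * (x i - y i) + s ^ 2)
            (0 + 2 * 1 * (x i - y i) + 2 * s) s := by
          have h5 := (((hasDerivAt_id s).const_mul 2).mul_const (x i - y i)).const_add (‖x - y‖ ^ 2)
          have h6 := h5.add ((hasDerivAt_id s).pow 2)
          refine h6.congr_deriv ?_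
          simp
        refine (h4.const_mul (-α)).congr_deriv ?_
        ring
      exact h2.sub (h3.exp.const_mul ε)
    · have hp : DifferentiableAt ℝ (pd i h) x := by
        have h1 : DifferentiableAt ℝ (fderiv ℝ h) x :=
          (hfd.contDiffAt (isOpen_ball.mem_nhds hx)).differentiableAt (by norm_num)
        exact h1.clm_apply (differentiableAt_const _)
      have hp' : DifferentiableAt ℝ (pd i h) (x + (0 : ℝ) • e i) := by simpa using hp
      have h2 := line_deriv hp'
      have h3 : HasDerivAt (fun s : ℝ => -α * (‖x - y‖ ^ 2 + 2 * s * (x i - y i) + s ^ 2))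
          (-α * (2 * (x i - y i))) 0 := by
        have h4 : HasDerivAt (fun s : ℝ => ‖x - y‖ ^ 2 + 2 * s * (x i - y i) + s ^ 2)
            (2 * (x i - y i)) 0 := by
          have h5 := (((hasDerivAt_id (0:ℝ)).const_mul 2).mul_const (x i - y i)).const_add (‖x - y‖ ^ 2)
          have h6 := h5.add ((hasDerivAt_id (0:ℝ)).pow 2)
          refine h6.congr_deriv ?_
          simp
        exact h4.const_mul (-α)
      have h7 : HasDerivAt (fun s : ℝ => -α * (2 * (x i - y i) + 2 * s)) (-α * 2) 0 := by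
        have h5 := (((hasDerivAt_id (0:ℝ)).const_mul 2).const_add (2 * (x i - y i))).const_mul (-α)
        refine h5.congr_deriv ?_
        simp
      have h8 := h2.sub ((h3.exp.mul h7).const_mul ε)
      refine h8.congr_deriv ?_
      have e1 : -α * (‖x - y‖ ^ 2 + 2 * 0 * (x i - y i) + 0 ^ 2) = -α * ‖x - y‖ ^ 2 := by ring
      have e2 : x + (0 : ℝ) • e i = x := by simp
      rw [e1, e2]
      ring
  have k0 := key 0
  have k1 := key 1
  have h1 := hl x hx
  unfold lap at h1
  have hn : ‖x - y‖ ^ 2 = (x 0 - y 0) ^ 2 + (x 1 - y 1) ^ 2 := by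
    rw [EuclideanSpace.norm_sq_eq, Fin.sum_univ_two]
    simp
  have hexp := Real.exp_pos (-α * ‖x - y‖ ^ 2)
  have h2 : 0 < (4 * α ^ 2 * ‖x - y‖ ^ 2 - 4 * α) * Real.exp (-α * ‖x - y‖ ^ 2) := by
    apply mul_pos _ hexp
    nlinarith
  have h3 : (4 * α ^ 2 * ‖x - y‖ ^ 2 - 4 * α) * Real.exp (-α * ‖x - y‖ ^ 2) =
      ((4 * α ^ 2 * (x 0 - y 0) ^ 2 - 2 * α) * Real.exp (-α * ‖x - y‖ ^ 2)) +
      ((4 * α ^ 2 * (x 1 - y 1) ^ 2 - 2 * α) * Real.exp (-α * ‖x - y‖ ^ 2)) := by
    rw [← add_mul]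
    congr 1
    rw [hn]
    ring
  have h4 := mul_pos hε h2
  rw [h3] at h4
  nlinarith

/-- local form -/
theorem locz {c : E} {r : ℝ} {h : E → ℝ} (hh : ContDiffOn ℝ 2 h (ball c r))
    (h0 : ∀ x ∈ ball c r, 0 ≤ h x)
    (hl : ∀ x ∈ ball c r, lap h x ≤ 0) {z : E} (hz : z ∈ ball c r) (hz0 : h z = 0) :
    ∀ᶠ x in 𝓝 z, h x = 0 := by
  obtain ⟨D, hD, hsub⟩ := Metric.isOpen_iff.1 isOpen_ball z hz
  filter_upwards [ball_mem_nhds z (show 0 < D / 3 by positivity)] with y hy
  by_contra hne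
  have hcont : ContinuousOn h (ball c r) := hh.continuousOn
  have hdy : dist y z < D / 3 := hy
  have hyB : y ∈ ball c r := hsub (by rw [mem_ball]; linarith)
  -- the nearest zero
  set K : Set E := closedBall z (2 * D / 3) ∩ {x | h x = 0} with hK
  have hKB : closedBall z (2 * D / 3) ⊆ ball c r := fun x hx => hsub (by
    rw [mem_closedBall] at hx; rw [mem_ball]; linarith)
  have hKc : IsCompact K := by
    have h1 : IsCompact (closedBall z (2 * D / 3)) := isCompact_closedBall z _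
    have h2 : IsClosed K := by
      have h3 := (hcont.mono hKB).preimage_isClosed_of_isClosed isClosed_closedBall
        (isClosed_singleton (x := (0 : ℝ)))
      exact h3
    exact h1.of_isClosed_subset h2 Set.inter_subset_left
  have hKn : K.Nonempty := ⟨z, by rw [mem_closedBall, dist_self]; positivity, hz0⟩
  obtain ⟨q, hqK, hq⟩ := hKc.exists_isMinOn hKn (f := fun x => dist x y) (by fun_prop)
  have hq' : ∀ x ∈ K, dist q y ≤ dist x y := fun x hx => hq hx
  set ρ := dist q y with hρ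
  have hρz : ρ ≤ dist z y := hq' z ⟨by rw [mem_closedBall, dist_self]; positivity, hz0⟩
  have hρD : ρ < D / 3 := by rw [dist_comm] at hρz; linarith
  have hq0 : h q = 0 := hqK.2
  have hρ0 : 0 < ρ := by
    rw [hρ, dist_pos]
    rintro rfl
    exact hne hq0
  have hpos : ∀ x, dist x y < ρ → 0 < h x := by
    intro x hx
    have hx1 : x ∈ closedBall z (2 * D / 3) := by
      rw [mem_closedBall]
      have := dist_triangle x y z
      linarith
    have hx2 := h0 x (hKB hx1)
    refine lt_of_le_of_ne hx2 ?_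
    intro hx3
    have := hq' x ⟨hx1, hx3.symm⟩
    linarith
  -- the midpoint
  set m : E := (1 / 2 : ℝ) • (y + q) with hm
  have par : ∀ x : E, dist x y ^ 2 + dist x q ^ 2 = 2 * ‖x - m‖ ^ 2 + ρ ^ 2 / 2 := by
    intro x
    rw [hρ, dist_eq_norm, dist_eq_norm, dist_eq_norm]
    simp only [EuclideanSpace.norm_sq_eq, Fin.sum_univ_two, hm]
    simp
    ring
  have hqm : ‖q - m‖ ^ 2 = ρ ^ 2 / 4 := by
    have := par q
    rw [dist_self] at this
    rw [← hρ] at this
    nlinarith
  -- the set where h is positive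
  have hqB : q ∈ ball c r := hKB hqK.1
  obtain ⟨s₀, hs₀, hs₀sub⟩ := Metric.isOpen_iff.1 isOpen_ball q hqB
  set s := min (s₀ / 2) (ρ / 4) with hs
  have hspos : 0 < s := lt_min (by positivity) (by positivity)
  have hs1 : s ≤ s₀ / 2 := min_le_left _ _
  have hs2 : s ≤ ρ / 4 := min_le_right _ _
  have hsB : closedBall q s ⊆ ball c r := fun x hx => hs₀sub (by
    rw [mem_closedBall] at hx; rw [mem_ball]; linarith)
  set A : Set E := sphere q s ∩ {x | ‖x - m‖ ^ 2 ≤ ρ ^ 2 / 4} with hA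
  have hAc : IsCompact A := by
    apply (isCompact_sphere q s).inter_right
    exact isClosed_le (by fun_prop) continuous_const
  have hApos : ∀ x ∈ A, 0 < h x := by
    rintro x ⟨hx1, hx2⟩
    apply hpos
    have h1 := par x
    have h2 : dist x q = s := hx1
    have h3 : ‖x - m‖ ^ 2 ≤ ρ ^ 2 / 4 := hx2
    rw [h2] at h1
    have h4 : dist x y ^ 2 < ρ ^ 2 := by nlinarith
    exact lt_of_pow_lt_pow_left₀ 2 hρ0.le h4
  obtain ⟨μ, hμ, hμA⟩ : ∃ μ : ℝ, 0 < μ ∧ ∀ x ∈ A, μ ≤ h x := by
    rcases A.eq_empty_or_nonempty with hAe | hAn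
    · exact ⟨1, one_pos, fun x hx => by rw [hAe] at hx; exact absurd hx (Set.notMem_empty _)⟩
    · have hAB : A ⊆ ball c r := fun x hx => hsB (sphere_subset_closedBall hx.1)
      obtain ⟨a, ha, ha'⟩ := hAc.exists_isMinOn hAn (hcont.mono hAB)
      exact ⟨h a, hApos a ha, fun x hx => ha' hx⟩
  -- the barrier
  set α : ℝ := 32 / ρ ^ 2 with hα
  have hαpos : 0 < α := by positivity
  set ε : ℝ := μ / 2 with hε
  have hεpos : 0 < ε := by positivity
  set f : E → ℝ := fun x => h x - ε * Real.exp (-α * ‖x - m‖ ^ 2) with hf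
  have hfc : ContinuousOn f (closedBall q s) := by
    apply (hcont.mono hsB).sub
    fun_prop
  have hfq : f q = -(ε * Real.exp (-α * (ρ ^ 2 / 4))) := by
    rw [hf]
    simp only [hq0, hqm]
    ring
  have hfs : ∀ x ∈ sphere q s, f q < f x := by
    intro x hx
    rw [hfq, hf]
    simp only
    have hxB : x ∈ ball c r := hsB (sphere_subset_closedBall hx)
    by_cases hxA : ‖x - m‖ ^ 2 ≤ ρ ^ 2 / 4
    · have h1 := hμA x ⟨hx, hxA⟩
      have h2 : Real.exp (-α * ‖x - m‖ ^ 2) ≤ 1 := by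
        rw [Real.exp_le_one_iff]
        have := mul_nonneg hαpos.le (sq_nonneg ‖x - m‖)
        linarith
      have h3 := Real.exp_pos (-α * (ρ ^ 2 / 4))
      nlinarith
    · push Not at hxA
      have h1 := h0 x hxB
      have h2 : Real.exp (-α * ‖x - m‖ ^ 2) < Real.exp (-α * (ρ ^ 2 / 4)) := by
        rw [Real.exp_lt_exp]
        nlinarith
      nlinarith
  obtain ⟨p, hp, hpmin⟩ := (isCompact_closedBall q s).exists_isMinOn
    ⟨q, mem_closedBall_self hspos.le⟩ hfc
  have hps : p ∈ ball q s := by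
    rw [mem_ball]
    refine lt_of_le_of_ne hp ?_
    intro heq
    have h1 := hfs p heq
    have h2 : f p ≤ f q := hpmin (mem_closedBall_self hspos.le)
    linarith
  have hlocal : IsLocalMin f p := hpmin.isLocalMin (Filter.mem_of_superset
    (isOpen_ball.mem_nhds hps) ball_subset_closedBall)
  refine no_min hh hl hεpos hαpos (hsB hp) ?_ hlocal
  -- lower bound for the distance to the midpoint
  have h1 : ρ / 2 = ‖q - m‖ := by
    have h2 : ‖q - m‖ ^ 2 = (ρ / 2) ^ 2 := by rw [hqm]; ring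
    exact ((pow_left_inj₀ (norm_nonneg _) (by positivity) two_ne_zero).1 h2).symm
  have h3 : ρ / 4 ≤ ‖p - m‖ := by
    have h4 : ‖q - m‖ ≤ ‖q - p‖ + ‖p - m‖ := by
      have := norm_add_le (q - p) (p - m)
      simpa using this
    have h5 : ‖q - p‖ < s := by rw [← dist_eq_norm, dist_comm]; exact hps
    linarith
  have h6 : (ρ / 4) ^ 2 ≤ ‖p - m‖ ^ 2 := by gcongr
  calc (1 : ℝ) < α * (ρ / 4) ^ 2 := by
        rw [hα]
        field_simp
        norm_num
    _ ≤ α * ‖p - m‖ ^ 2 := by gcongr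

end SMP

open SMP

theorem smp : SMPStm := by
  intro c r h hh h0 hl p hp hp0
  have hcont : ContinuousOn h (ball c r) := hh.continuousOn
  set U : Set E := {x | x ∈ ball c r ∧ h x = 0} with hU
  have hUo : IsOpen U := by
    rw [isOpen_iff_mem_nhds]
    rintro x ⟨hx1, hx2⟩
    filter_upwards [isOpen_ball.mem_nhds hx1, locz hh h0 hl hx1 hx2] with y h1 h2
    exact ⟨h1, h2⟩
  have hcl : closure U ∩ ball c r ⊆ U := by
    rintro x ⟨hx1, hx2⟩
    refine ⟨hx2, ?_⟩
    have hca : ContinuousAt h x := hcont.continuousAt (isOpen_ball.mem_nhds hx2)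
    by_contra hne
    have h1 : ∀ᶠ y in 𝓝 x, h y ≠ 0 := hca.eventually_ne hne
    rw [mem_closure_iff_frequently] at hx1
    obtain ⟨y, hy1, hy2⟩ := (hx1.and_eventually h1).exists
    exact hy2 hy1.2
  have hsub := (convex_ball c r).isPreconnected.subset_of_closure_inter_subset hUo
    ⟨p, hp, hp, hp0⟩ hcl
  exact fun x hx => (hsub hx).2

end Pool.Agent.T6.H85.NL
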