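import Pool.Agent.T6.H85.NL.Stm

/-!
# Nodal length of planar waves: globalisation (module SURF)
-/

set_option autoImplicit false
open MeasureTheory Metric Filter Topology Real
open scoped ContDiff ENNReal NNReal

namespace Pool.Agent.T6.H85.NL

namespace SURF

lemma nod_meas {c : E} {r : ℝ} {u : E → ℝ} (hu : ContinuousOn u (ball c r)) :
    MeasurableSet (nod (ball c r) u) := by
  have h1 : IsOpen (ball c r ∩ u ⁻¹' {0}ᶜ) :=
    hu.isOpen_inter_preimage isOpen_ball isClosed_singleton.isOpen_compl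
  have h2 : nod (ball c r) u = ball c r \ (ball c r ∩ u ⁻¹' {0}ᶜ) := by
    ext y
    simp only [nod, Set.mem_ofPred_eq, Set.mem_sdiff, Set.mem_inter_iff, Set.mem_preimage,
      Set.mem_compl_iff, Set.mem_singleton_iff, not_and, not_not]
    exact ⟨fun h => ⟨h.1, fun _ => h.2⟩, fun h => ⟨h.1, h.2 h.1⟩⟩
  rw [h2]
  exact measurableSet_ball.diff h1.measurableSet

/-- radii for the covering -/
lemma radius {Ω U : Set E} (hU : IsOpen U) (hUΩ : U ⊆ Ω) {ρ : E → ℝ} (hΩ : IsOpen Ω)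
    (hρ : ContinuousOn ρ Ω) (hpos : ∀ x ∈ Ω, 0 < ρ x) {δ : ℝ} (hδ : 0 < δ) {x : E} (hx : x ∈ U) :
    ∃ R > 0, closedBall x R ⊆ U ∧ ∀ y ∈ closedBall x R, |ρ y - ρ x| ≤ δ * ρ x := by
  have h1 : ContinuousAt ρ x := hρ.continuousAt (hΩ.mem_nhds (hUΩ hx))
  have h2 : ∀ᶠ y in 𝓝 x, dist (ρ y) (ρ x) < δ * ρ x :=
    Metric.tendsto_nhds.1 h1 _ (mul_pos hδ (hpos x (hUΩ hx)))
  have h3 : ∀ᶠ y in 𝓝 x, y ∈ U := hU.mem_nhds hx
  obtain ⟨R, hR, hR2⟩ := Metric.nhds_basis_closedBall.eventually_iff.1 (h2.and h3)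
  refine ⟨R, hR, fun y hy => (hR2 hy).2, fun y hy => ?_⟩
  have := (hR2 hy).1
  rw [Real.dist_eq] at this
  exact this.le

lemma key (hB : BALLStm) {Ω : Set E} (hΩ : IsOpen Ω) {ρ : E → ℝ} (hρ : ContDiffOn ℝ ∞ ρ Ω)
    (hpos : ∀ x ∈ Ω, 0 < ρ x) {lam : ℕ → ℝ} (hlam : Tendsto lam atTop atTop) {u : ℕ → E → ℝ}
    (hu : ∀ n, ContDiffOn ℝ ∞ (u n) Ω)
    (heq : ∀ n, ∀ x ∈ Ω, lap (u n) x + lam n * ρ x * u n x = 0)
    {U : Set E} (hU : IsOpen U) (hUΩ : U ⊆ Ω) {ε : ℝ} (hε : 0 < ε) (hε1 : ε < 1) :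
    ENNReal.ofReal (1 / π * ((1 - ε) * √(1 - ε) / (1 + ε))) *
      ∫⁻ x in U, ENNReal.ofReal (ρ x) ≤
      liminf (fun n => ENNReal.ofReal (1 / √(lam n)) *
        ∫⁻ x in {x | x ∈ U ∧ u n x = 0}, ENNReal.ofReal (√(ρ x)) ∂μH[1]) atTop := by
  obtain ⟨δ0, hδ0, hB⟩ := hB ε hε
  set δ := min δ0 ε with hδdef
  have hδ : 0 < δ := lt_min hδ0 hε
  have hδε : δ ≤ ε := min_le_right _ _
  have hδ1 : δ < 1 := hδε.trans_lt hε1
  have hpi := Real.pi_pos
  -- the covering
  have hrad : ∀ x : E, ∃ R > 0, x ∈ U → closedBall x R ⊆ U ∧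
      ∀ y ∈ closedBall x R, |ρ y - ρ x| ≤ δ * ρ x := by
    intro x
    by_cases hx : x ∈ U
    · obtain ⟨R, hR, h1, h2⟩ := radius hU hUΩ hΩ hρ.continuousOn hpos hδ hx
      exact ⟨R, hR, fun _ => ⟨h1, h2⟩⟩
    · exact ⟨1, one_pos, fun h => absurd h hx⟩
  choose R hR0 hR using hrad
  obtain ⟨t, r, htc, htU, hr, hcov, hdisj⟩ := Besicovitch.exists_disjoint_closedBall_covering_ae
    (volume : Measure E) (fun _ => Set.univ) U (by
      intro x _ s hs
      rw [Set.univ_inter]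
      exact ⟨s / 2, by constructor <;> linarith⟩) R (fun x _ => hR0 x)
  have hr0 : ∀ x ∈ t, 0 < r x := fun x hx => (hr x hx).2.1
  have hrR : ∀ x ∈ t, r x ≤ R x := fun x hx => (hr x hx).2.2.le
  have hsub : ∀ x ∈ t, closedBall x (r x) ⊆ U := fun x hx =>
    (closedBall_subset_closedBall (hrR x hx)).trans (hR x (htU hx)).1
  have hnear : ∀ x ∈ t, ∀ y ∈ closedBall x (r x), |ρ y - ρ x| ≤ δ * ρ x := fun x hx y hy =>
    (hR x (htU hx)).2 y (closedBall_subset_closedBall (hrR x hx) hy)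
  have hρ0 : ∀ x ∈ t, 0 < ρ x := fun x hx => hpos x (hUΩ (htU hx))
  have : Countable t := htc.to_subtype
  set w : t → ℝ≥0∞ := fun x => ENNReal.ofReal ((1 - ε) * √(1 - δ) * (ρ x * (r x) ^ 2)) with hw
  -- upper bound for the area
  have hup : ∫⁻ x in U, ENNReal.ofReal (ρ x) ≤
      ∑' x : t, ENNReal.ofReal ((1 + δ) * π * (ρ x * (r x) ^ 2)) := by
    have h1 : ∫⁻ x in U, ENNReal.ofReal (ρ x) ≤
        ∫⁻ x in ⋃ y : t, closedBall (y : E) (r y), ENNReal.ofReal (ρ x) := by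
      apply lintegral_mono_set'
      rw [ae_le_set]
      rw [Set.biUnion_eq_iUnion] at hcov
      exact hcov
    refine h1.trans ((lintegral_iUnion_le _ _).trans (ENNReal.tsum_le_tsum fun x => ?_))
    have h2 : ∫⁻ y in closedBall (x : E) (r x), ENNReal.ofReal (ρ y) ≤
        ∫⁻ y in closedBall (x : E) (r x), ENNReal.ofReal ((1 + δ) * ρ x) := by
      apply setLIntegral_mono' measurableSet_closedBall
      intro y hy
      apply ENNReal.ofReal_le_ofReal
      have := (abs_le.1 (hnear x x.2 y hy)).2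
      linarith
    refine h2.trans (le_of_eq ?_)
    rw [setLIntegral_const, EuclideanSpace.volume_closedBall_fin_two,
      ← ENNReal.ofReal_pow (hr0 x x.2).le, ← ENNReal.ofReal_mul (by positivity),
      ← ENNReal.ofReal_mul (by
        have := hρ0 x x.2
        positivity)]
    congr 1
    ring
  -- lower bound for the liminf
  have hlow : ∑' x : t, w x ≤
      liminf (fun n => ENNReal.ofReal (1 / √(lam n)) *
        ∫⁻ x in {x | x ∈ U ∧ u n x = 0}, ENNReal.ofReal (√(ρ x)) ∂μH[1]) atTop := by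
    rw [ENNReal.tsum_eq_iSup_sum]
    apply iSup_le
    intro F
    apply Filter.le_liminf_of_le
    · isBoundedDefault
    have hev : ∀ᶠ n in atTop, ∀ x ∈ F, ENNReal.ofReal ((1 - ε) * √(lam n * ρ x) * (r x) ^ 2) ≤
        μH[1] (nod (ball (x : E) (r x)) (u n)) := by
      rw [Filter.eventually_all_finset]
      intro x _
      have hbU : ball (x : E) (r x) ⊆ Ω :=
        (ball_subset_closedBall.trans (hsub x x.2)).trans hUΩ
      refine hB x (r x) (ρ x) (hr0 x x.2) (hρ0 x x.2) ρ (hρ.mono hbU) ?_ lam hlam u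
        (fun n => (hu n).mono hbU) (fun n y hy => heq n y (hbU hy))
      intro y hy
      refine (hnear x x.2 y (ball_subset_closedBall hy)).trans ?_
      exact mul_le_mul_of_nonneg_right (min_le_left _ _) (hρ0 x x.2).le
    filter_upwards [hev, hlam.eventually_gt_atTop 0] with n hn hln
    have hmeas : ∀ x ∈ F, MeasurableSet (nod (ball (x : E) (r x)) (u n)) := by
      intro x _
      apply nod_meas
      exact (hu n).continuousOn.mono ((ball_subset_closedBall.trans (hsub x x.2)).trans hUΩ)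
    have hdis : (↑F : Set t).PairwiseDisjoint fun x => nod (ball (x : E) (r x)) (u n) := by
      intro x _ y _ hxy
      have h1 : Disjoint (closedBall (x : E) (r x)) (closedBall (y : E) (r y)) :=
        hdisj x.2 y.2 (fun h => hxy (Subtype.ext h))
      exact h1.mono (fun z hz => ball_subset_closedBall hz.1)
        (fun z hz => ball_subset_closedBall hz.1)
    have h1 : ∑ x ∈ F, ∫⁻ y in nod (ball (x : E) (r x)) (u n), ENNReal.ofReal (√(ρ y)) ∂μH[1] ≤
        ∫⁻ x in {x | x ∈ U ∧ u n x = 0}, ENNReal.ofReal (√(ρ x)) ∂μH[1] := by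
      rw [← lintegral_biUnion_finset hdis hmeas]
      apply lintegral_mono_set
      intro y hy
      rw [Set.mem_iUnion₂] at hy
      obtain ⟨x, _, hyx⟩ := hy
      exact ⟨hsub x x.2 (ball_subset_closedBall hyx.1), hyx.2⟩
    refine le_trans ?_ (mul_le_mul_right h1 _)
    rw [Finset.mul_sum]
    apply Finset.sum_le_sum
    intro x hx
    have hρx := hρ0 x x.2
    have h2 : ENNReal.ofReal (√((1 - δ) * ρ x)) * μH[1] (nod (ball (x : E) (r x)) (u n)) ≤
        ∫⁻ y in nod (ball (x : E) (r x)) (u n), ENNReal.ofReal (√(ρ y)) ∂μH[1] := by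
      rw [← setLIntegral_const]
      apply setLIntegral_mono' (hmeas x hx)
      intro y hy
      apply ENNReal.ofReal_le_ofReal
      apply Real.sqrt_le_sqrt
      have := (abs_le.1 (hnear x x.2 y (ball_subset_closedBall hy.1))).1
      linarith
    refine le_trans ?_ (mul_le_mul_right (le_trans (mul_le_mul_right (hn x hx) _) h2) _)
    rw [← ENNReal.ofReal_mul (Real.sqrt_nonneg _), ← ENNReal.ofReal_mul (by positivity)]
    apply ENNReal.ofReal_le_ofReal
    apply le_of_eq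
    rw [Real.sqrt_mul (by linarith), Real.sqrt_mul hln.le]
    have h3 : √(ρ x) * √(ρ x) = ρ x := Real.mul_self_sqrt hρx.le
    have h4 : √(lam n) ≠ 0 := (Real.sqrt_pos.2 hln).ne'
    calc (1 - ε) * √(1 - δ) * (ρ x * r x ^ 2)
        = (1 - ε) * √(1 - δ) * ((√(ρ x) * √(ρ x)) * r x ^ 2) := by rw [h3]
      _ = 1 / √(lam n) * (√(1 - δ) * √(ρ x) * ((1 - ε) * (√(lam n) * √(ρ x)) * r x ^ 2)) := by
        field_simp
  -- comparison of the sums
  have hcmp : ENNReal.ofReal (1 / π * ((1 - ε) * √(1 - ε) / (1 + ε))) *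
      ∑' x : t, ENNReal.ofReal ((1 + δ) * π * (ρ x * (r x) ^ 2)) ≤ ∑' x : t, w x := by
    rw [← ENNReal.tsum_mul_left]
    apply ENNReal.tsum_le_tsum
    intro x
    have hρx := hρ0 x x.2
    have he1 : 0 ≤ 1 - ε := by linarith
    rw [hw, ← ENNReal.ofReal_mul (by positivity)]
    apply ENNReal.ofReal_le_ofReal
    have h1 : √(1 - ε) ≤ √(1 - δ) := Real.sqrt_le_sqrt (by linarith)
    have h2 : (1 + δ) / (1 + ε) ≤ 1 := by
      rw [div_le_one (by linarith)]
      linarith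
    calc 1 / π * ((1 - ε) * √(1 - ε) / (1 + ε)) * ((1 + δ) * π * (ρ x * r x ^ 2))
        = (1 - ε) * √(1 - ε) * (ρ x * r x ^ 2) * ((1 + δ) / (1 + ε)) := by
          field_simp
      _ ≤ (1 - ε) * √(1 - ε) * (ρ x * r x ^ 2) * 1 := by gcongr
      _ ≤ (1 - ε) * √(1 - δ) * (ρ x * r x ^ 2) := by
          rw [mul_one]
          gcongr
  exact (mul_le_mul_right hup _).trans (hcmp.trans hlow)

end SURF

theorem surf (hB : BALLStm) : SURFStm := by
  intro Ω hΩ ρ hρ hpos lam hlam u hu heq U hU hUΩ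
  have h1 : Tendsto (fun ε : ℝ => ENNReal.ofReal (1 / π * ((1 - ε) * √(1 - ε) / (1 + ε))) *
      ∫⁻ x in U, ENNReal.ofReal (ρ x)) (𝓝[>] 0)
      (𝓝 (ENNReal.ofReal (1 / π) * ∫⁻ x in U, ENNReal.ofReal (ρ x))) := by
    apply ENNReal.Tendsto.mul_const
    · apply ENNReal.tendsto_ofReal
      have h2 : ContinuousAt (fun ε : ℝ => 1 / π * ((1 - ε) * √(1 - ε) / (1 + ε))) 0 := by
        apply ContinuousAt.mul continuousAt_const
        apply ContinuousAt.div
        · fun_prop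
        · fun_prop
        · norm_num
      have h3 := h2.tendsto
      simp only [sub_zero, add_zero, Real.sqrt_one, mul_one, div_one] at h3
      exact h3.mono_left nhdsWithin_le_nhds
    · left
      have := Real.pi_pos
      rw [ne_eq, ENNReal.ofReal_eq_zero, not_le]
      positivity
  refine le_of_tendsto h1 ?_
  filter_upwards [Ioo_mem_nhdsGT (show (0 : ℝ) < 1 by norm_num)] with ε hε
  exact SURF.key hB hΩ hρ hpos hlam hu heq hU hUΩ hε.1 hε.2

end Pool.Agent.T6.H85.NL
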