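import Pool.Agent.T6.H85.NL.Stm

set_option autoImplicit false
open MeasureTheory Metric Filter Topology Real
open scoped ContDiff ENNReal NNReal

namespace Pool.Agent.T6.H85.NL

theorem tube (hA : LAREAStm) (hC : COVStm) : TUBEStm := by
  intro t ht V hV u hu hS X hX
  set S : Set E := {x | x ∈ V ∧ u x = 0 ∧ fderiv ℝ u x = 0} with hSdef
  have hnull : volume (⋃ s ∈ S, sphere s t) = 0 := by
    rw [measure_biUnion_null_iff hS]
    intro s _
    exact Measure.addHaar_sphere_of_ne_zero _ _ ht.ne'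
  have h1 : volume X ≤ volume (X \ ⋃ s ∈ S, sphere s t) := by
    calc volume X ≤ volume ((X \ ⋃ s ∈ S, sphere s t) ∪ ⋃ s ∈ S, sphere s t) :=
          measure_mono (by intro x hx; by_cases h : x ∈ ⋃ s ∈ S, sphere s t
                           · exact Or.inr h
                           · exact Or.inl ⟨hx, h⟩)
      _ ≤ volume (X \ ⋃ s ∈ S, sphere s t) + volume (⋃ s ∈ S, sphere s t) := measure_union_le _ _
      _ = _ := by rw [hnull, add_zero]
  have h2 : 2 * volume (X \ ⋃ s ∈ S, sphere s t) ≤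
      ENNReal.ofReal (4 * t) * μH[1] (nod V u \ S) := by
    refine hC t ht (nod V u \ S) ?_ _ ?_
    · intro η hη z hz
      have hd : fderiv ℝ u z ≠ 0 := by
        intro h0
        exact hz.2 ⟨hz.1.1, hz.1.2, h0⟩
      obtain ⟨r, hr, hr2⟩ := hA t ht V hV u hu z hz.1.1 hz.1.2 hd η hη
      exact ⟨r, hr, fun A hA1 hA2 => hr2 A hA1 (fun p hp => (hA2 hp).1.2)⟩
    · intro x hx
      obtain ⟨p, hp, q, hq, hpq, hpt, hqt⟩ := hX x hx.1
      have key : ∀ y : E, dist y x = t → y ∈ nod V u → y ∈ nod V u \ S := by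
        intro y hy hyn
        refine ⟨hyn, fun hyS => hx.2 ?_⟩
        simp only [Set.mem_iUnion]
        exact ⟨y, hyS, by rw [mem_sphere, dist_comm]; exact hy⟩
      exact ⟨p, key p hpt hp, q, key q hqt hq, hpq, hpt, hqt⟩
  calc 2 * volume X ≤ 2 * volume (X \ ⋃ s ∈ S, sphere s t) := by gcongr
    _ ≤ _ := h2
    _ ≤ _ := by gcongr; exact Set.sdiff_subset

end Pool.Agent.T6.H85.NL
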