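import Mathlib

/-!
# Nodal length of planar waves: definitions
-/

set_option autoImplicit false
open MeasureTheory Metric Filter Topology
open scoped ContDiff ENNReal NNReal

namespace Pool.Agent.T6.H85.NL

noncomputable section

/-- the Euclidean plane -/
abbrev E := EuclideanSpace ℝ (Fin 2)

/-- the partial derivative `∂_i f` -/
def pd (i : Fin 2) (f : E → ℝ) (y : E) : ℝ := fderiv ℝ f y (EuclideanSpace.single i 1)

/-- the Laplacian `∂_0² + ∂_1²` -/
def lap (f : E → ℝ) (y : E) : ℝ := pd 0 (pd 0 f) y + pd 1 (pd 1 f) y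

/-- iterated partial derivatives -/
def dl : List (Fin 2) → (E → ℝ) → E → ℝ
  | [], f => f
  | i :: l, f => pd i (dl l f)

/-- `u` and `κ` are smooth on `V` and `Δu + κ u = 0` on `V` -/
structure Sol (V : Set E) (κ u : E → ℝ) : Prop where
  smooth : ContDiffOn ℝ ∞ u V
  pot : ContDiffOn ℝ ∞ κ V
  eq : ∀ y ∈ V, lap u y + κ y * u y = 0

/-- the nodal set of `u` in `V` -/
def nod (V : Set E) (u : E → ℝ) : Set E := {y | y ∈ V ∧ u y = 0}

/-- the nodal set of `u` in `V` together with the complement of `V` -/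
def nodc (V : Set E) (u : E → ℝ) : Set E := {y | y ∈ V → u y = 0}

end

end Pool.Agent.T6.H85.NL
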