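import Pool.Agent.T6.H85.NL.Stm

set_option autoImplicit false
open MeasureTheory Metric Filter Topology Real
open scoped ContDiff ENNReal NNReal

namespace Pool.Agent.T6.H85.NL

namespace LAY

theorem int_sin (x y : ℝ) : ∫ s in x..y, 2 * Real.sin (2 * s) = Real.cos (2 * x) - Real.cos (2 * y) := by
  have h : ∀ s ∈ Set.uIcc x y, HasDerivAt (fun s => - Real.cos (2 * s)) (2 * Real.sin (2 * s)) s := by
    intro s _
    have h1 : HasDerivAt (fun s : ℝ => 2 * s) 2 s := by simpa using (hasDerivAt_id s).const_mul 2
    have h2 : HasDerivAt (fun s : ℝ => -Real.cos (2 * s)) (-(-Real.sin (2 * s) * 2)) s := h1.cos.neg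
    convert h2 using 1
    ring
  rw [intervalIntegral.integral_eq_sub_of_hasDerivAt h
    (Continuous.intervalIntegrable (by fun_prop) _ _)]
  ring

theorem int_ssin : ∫ s in (0:ℝ)..(π / 2), 4 * s * Real.sin (2 * s) = π := by
  have h : ∀ s ∈ Set.uIcc (0:ℝ) (π / 2), HasDerivAt (fun s => Real.sin (2 * s) -
      2 * s * Real.cos (2 * s)) (4 * s * Real.sin (2 * s)) s := by
    intro s _
    have h1 : HasDerivAt (fun s : ℝ => 2 * s) 2 s := by simpa using (hasDerivAt_id s).const_mul 2
    have h2 : HasDerivAt (fun s : ℝ => Real.sin (2 * s) - 2 * s * Real.cos (2 * s))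
        (Real.cos (2 * s) * 2 - (2 * Real.cos (2 * s) + 2 * s * (-Real.sin (2 * s) * 2))) s :=
      (h1.sin).sub (h1.mul h1.cos)
    convert h2 using 1
    ring
  rw [intervalIntegral.integral_eq_sub_of_hasDerivAt h
    (Continuous.intervalIntegrable (by fun_prop) _ _)]
  rw [show 2 * (π / 2) = π by ring]
  simp

/-- layer cake formula for the cosine -/
theorem cake {m : ℝ} (h0 : 0 ≤ m) (h1 : m ≤ π / 2) :
    Real.cos (2 * m) = -1 + ∫ s in (0:ℝ)..(π / 2), (if m < s then 2 * Real.sin (2 * s) else 0) := by
  have hint : ∀ x y : ℝ, IntervalIntegrable (fun s => if m < s then 2 * Real.sin (2 * s) else 0)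
      volume x y := by
    intro x y
    have : (fun s => if m < s then 2 * Real.sin (2 * s) else 0) =
        (Set.Ioi m).indicator (fun s => 2 * Real.sin (2 * s)) := by
      ext s; simp [Set.indicator]
    rw [this, intervalIntegrable_iff]
    apply Integrable.indicator
    · exact (Continuous.intervalIntegrable (by fun_prop) x y).def'
    · exact measurableSet_Ioi
  rw [← intervalIntegral.integral_add_adjacent_intervals (hint 0 m) (hint m (π / 2))]
  have e1 : ∫ s in (0:ℝ)..m, (if m < s then 2 * Real.sin (2 * s) else 0) = 0 := by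
    rw [intervalIntegral.integral_congr (g := fun _ => 0)]
    · simp
    · intro s hs
      rw [Set.uIcc_of_le h0] at hs
      simp only
      rw [if_neg (not_lt.2 hs.2)]
  have e2 : ∫ s in m..(π / 2), (if m < s then 2 * Real.sin (2 * s) else 0) =
      ∫ s in m..(π / 2), 2 * Real.sin (2 * s) := by
    apply intervalIntegral.integral_congr_ae
    filter_upwards with s hs
    rw [Set.uIoc_of_le h1] at hs
    rw [if_pos hs.1]
  rw [e1, e2, int_sin]
  rw [show 2 * (π / 2) = π by ring, Real.cos_pi]
  ring

end LAY

open LAY

theorem lay : LAYStm := by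
  intro B hB hBf d hd hd0 L a b hL ha hab hV
  have hpi := Real.pi_pos
  have hsa : 0 < √a := Real.sqrt_pos.2 ha
  have hb : 0 < b := ha.trans_le hab
  have hsb : 0 < √b := Real.sqrt_pos.2 hb
  have hsab : √a ≤ √b := Real.sqrt_le_sqrt hab
  have : IsFiniteMeasure (volume.restrict B) := ⟨by
    rw [Measure.restrict_apply_univ]; exact lt_top_iff_ne_top.2 hBf⟩
  set m : E → ℝ := fun x => min (√a * d x) (π / 2) with hm
  have hm0 : ∀ x, 0 ≤ m x := fun x => le_min (mul_nonneg hsa.le (hd0 x)) (by positivity)
  have hm1 : ∀ x, m x ≤ π / 2 := fun x => min_le_right _ _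
  have hmm : Measurable m := (hd.const_mul _).min measurable_const
  set V : ℝ → ℝ := fun s => (volume.restrict B {x | m x < s}).toReal with hVdef
  set vB : ℝ := (volume B).toReal with hvB
  have hVB : ∀ s, V s ≤ vB := by
    intro s
    rw [hVdef, hvB]
    apply ENNReal.toReal_mono hBf
    calc volume.restrict B {x | m x < s} ≤ volume.restrict B Set.univ :=
          measure_mono (Set.subset_univ _)
      _ = volume B := Measure.restrict_apply_univ _
  have hV0 : ∀ s, 0 ≤ V s := fun s => ENNReal.toReal_nonneg
  have hVm : Monotone V := by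
    intro s t hst
    apply ENNReal.toReal_mono (measure_ne_top _ _)
    apply measure_mono
    intro x hx
    exact lt_of_lt_of_le hx hst
  -- Fubini
  have step1 : ∫ x in B, Real.cos (2 * m x) =
      -vB + ∫ s in (0:ℝ)..(π / 2), 2 * Real.sin (2 * s) * V s := by
    have e1 : ∫ x in B, Real.cos (2 * m x) = ∫ x in B, (-1 + ∫ s in (0:ℝ)..(π / 2),
        (if m x < s then 2 * Real.sin (2 * s) else 0)) := by
      apply integral_congr_ae
      filter_upwards with x
      exact cake (hm0 x) (hm1 x)
    set ν : Measure ℝ := volume.restrict (Set.Ioc 0 (π / 2)) with hν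
    have hmeas : Measurable (fun p : E × ℝ => if m p.1 < p.2 then 2 * Real.sin (2 * p.2) else 0) := by
      apply Measurable.ite
      · exact measurableSet_lt (hmm.comp measurable_fst) measurable_snd
      · fun_prop
      · fun_prop
    have hint : Integrable (Function.uncurry (fun x s => if m x < s then 2 * Real.sin (2 * s) else 0))
        ((volume.restrict B).prod ν) := by
      refine Integrable.mono' (g := fun _ => 2) (integrable_const _)
        hmeas.aestronglyMeasurable ?_
      filter_upwards with p
      simp only [Function.uncurry]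
      split_ifs
      · rw [Real.norm_eq_abs, abs_mul, abs_two]
        have := Real.abs_sin_le_one (2 * p.2)
        linarith
      · simp
    have hint1 : Integrable (fun x => ∫ s, (if m x < s then 2 * Real.sin (2 * s) else 0) ∂ν)
        (volume.restrict B) := hint.integral_prod_left
    have e2 : ∫ x in B, (-1 + ∫ s in (0:ℝ)..(π / 2),
        (if m x < s then 2 * Real.sin (2 * s) else 0)) =
        -vB + ∫ x in B, ∫ s, (if m x < s then 2 * Real.sin (2 * s) else 0) ∂ν := by
      simp_rw [intervalIntegral.integral_of_le (show (0:ℝ) ≤ π / 2 by positivity)]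
      rw [integral_add (integrable_const _) hint1]
      simp [hvB, Measure.real]
    have e3 : ∫ x in B, ∫ s, (if m x < s then 2 * Real.sin (2 * s) else 0) ∂ν =
        ∫ s, (∫ x in B, (if m x < s then 2 * Real.sin (2 * s) else 0)) ∂ν :=
      integral_integral_swap hint
    rw [e1, e2, e3, intervalIntegral.integral_of_le (show (0:ℝ) ≤ π / 2 by positivity)]
    congr 1
    apply integral_congr_ae
    filter_upwards with s
    have : (fun x => if m x < s then 2 * Real.sin (2 * s) else 0) =
        {x | m x < s}.indicator (fun _ => 2 * Real.sin (2 * s)) := by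
      ext x; simp [Set.indicator]
    rw [this, integral_indicator_const _ (measurableSet_lt hmm measurable_const)]
    simp [hVdef, Measure.real, mul_comm]
  set sb : ℝ := π / 2 * √(a / b) with hsbdef
  have hq : √(a / b) ≤ 1 := by
    refine Real.sqrt_le_iff.2 ⟨zero_le_one, ?_⟩
    rw [one_pow, div_le_one hb]; exact hab
  have hq0 : 0 < √(a / b) := Real.sqrt_pos.2 (by positivity)
  have hsb0 : 0 < sb := by positivity
  have hsb1 : sb ≤ π / 2 := by
    calc sb ≤ π / 2 * 1 := by rw [hsbdef]; gcongr
      _ = π / 2 := by ring
  have hint : ∀ x y : ℝ, IntervalIntegrable (fun s => 2 * Real.sin (2 * s) * V s) volume x y := by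
    intro x y
    exact (hVm.intervalIntegrable).continuousOn_mul (by fun_prop)
  have hsin : ∀ s ∈ Set.Icc (0:ℝ) (π / 2), 0 ≤ Real.sin (2 * s) := by
    intro s hs
    exact Real.sin_nonneg_of_nonneg_of_le_pi (by linarith [hs.1]) (by linarith [hs.2])
  have b1 : ∫ s in (0:ℝ)..sb, 2 * Real.sin (2 * s) * V s ≤ π * L / √a := by
    calc ∫ s in (0:ℝ)..sb, 2 * Real.sin (2 * s) * V s
        ≤ ∫ s in (0:ℝ)..sb, (L / √a) * (4 * s * Real.sin (2 * s)) := by
          apply intervalIntegral.integral_mono_on_of_le_Ioo hsb0.le (hint _ _)
            (Continuous.intervalIntegrable (by fun_prop) _ _)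
          intro s hs
          have hs2 : s ≤ π / 2 := hs.2.le.trans hsb1
          have h1 : √b * (s / √a) < π / 2 := by
            have h2 : √(a / b) = √a / √b := Real.sqrt_div ha.le b
            have h3 : s < π / 2 * (√a / √b) := by rw [← h2]; exact hs.2
            calc √b * (s / √a) = s / (√a / √b) := by field_simp
              _ < π / 2 := by rw [div_lt_iff₀ (by positivity)]; exact h3
          have h4 := hV (s / √a) (div_pos hs.1 hsa) h1
          have h5 : V s ≤ 2 * (s / √a) * L := by
            have h6 : volume.restrict B {x | m x < s} ≤ volume {x | x ∈ B ∧ d x < s / √a} := by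
              rw [Measure.restrict_apply (measurableSet_lt hmm measurable_const)]
              apply measure_mono
              rintro x ⟨hx1, hx2⟩
              refine ⟨hx2, ?_⟩
              have hx3 : min (√a * d x) (π / 2) < s := hx1
              rcases min_lt_iff.1 hx3 with h | h
              · rw [lt_div_iff₀ hsa, mul_comm]; exact h
              · linarith
            have hs0 := hs.1
            exact ENNReal.toReal_le_of_le_ofReal (by positivity) (h6.trans h4)
          have h7 := hsin s ⟨hs.1.le, hs2⟩
          calc 2 * Real.sin (2 * s) * V s ≤ 2 * Real.sin (2 * s) * (2 * (s / √a) * L) := by gcongr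
            _ = (L / √a) * (4 * s * Real.sin (2 * s)) := by ring
      _ = (L / √a) * ∫ s in (0:ℝ)..sb, 4 * s * Real.sin (2 * s) := by
          rw [intervalIntegral.integral_const_mul]
      _ ≤ (L / √a) * ∫ s in (0:ℝ)..(π / 2), 4 * s * Real.sin (2 * s) := by
          gcongr
          apply intervalIntegral.integral_mono_interval le_rfl hsb0.le hsb1
          · filter_upwards [ae_restrict_mem measurableSet_Ioc] with s hs
            have := hsin s ⟨hs.1.le, hs.2⟩
            have := hs.1
            simp only [Pi.zero_apply]
            positivity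
          · exact Continuous.intervalIntegrable (by fun_prop) _ _
      _ = π * L / √a := by rw [int_ssin]; ring
  have b2 : ∫ s in sb..(π / 2), 2 * Real.sin (2 * s) * V s ≤ vB * (1 + Real.cos (π * √(a / b))) := by
    calc ∫ s in sb..(π / 2), 2 * Real.sin (2 * s) * V s
        ≤ ∫ s in sb..(π / 2), vB * (2 * Real.sin (2 * s)) := by
          apply intervalIntegral.integral_mono_on hsb1 (hint _ _)
            (Continuous.intervalIntegrable (by fun_prop) _ _)
          intro s hs
          have h7 := hsin s ⟨hsb0.le.trans hs.1, hs.2⟩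
          calc 2 * Real.sin (2 * s) * V s ≤ 2 * Real.sin (2 * s) * vB := by gcongr; exact hVB s
            _ = vB * (2 * Real.sin (2 * s)) := by ring
      _ = vB * (1 + Real.cos (π * √(a / b))) := by
          rw [intervalIntegral.integral_const_mul, int_sin]
          rw [show 2 * (π / 2) = π by ring, Real.cos_pi, show 2 * sb = π * √(a / b) by
            rw [hsbdef]; ring]
          ring
  rw [step1, ← intervalIntegral.integral_add_adjacent_intervals (hint 0 sb) (hint sb (π / 2))]
  linarith

end Pool.Agent.T6.H85.NL
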