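import Pool.Agent.T6.H85.NL.Stm

set_option autoImplicit false
open MeasureTheory Metric Filter Topology Real
open scoped ContDiff ENNReal NNReal

namespace Pool.Agent.T6.H85.NL

/-- explicit lower bound for entire waves -/
theorem entire (hL : LOCStm) (u : E → ℝ) (hu : ContDiff ℝ ∞ u) (he : ∀ x, lap u x + u x = 0)
    (c : E) (R : ℝ) (hR : 0 ≤ R) :
    ENNReal.ofReal (R ^ 2 - 12 * R) ≤ μH[1] (nod (ball c R) u) := by
  by_cases h2 : R < 2
  · rw [ENNReal.ofReal_of_nonpos (by nlinarith)]; exact bot_le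
  · push Not at h2
    have h := hL c R 1 1 h2 (by rw [Real.sqrt_one]; linarith [Real.pi_le_four]) le_rfl (fun _ => 1) u
      ⟨hu.contDiffOn, contDiffOn_const, fun y _ => by rw [one_mul]; exact he y⟩
      (fun x _ => ⟨le_rfl, le_rfl⟩)
    refine le_trans (ENNReal.ofReal_le_ofReal ?_) h
    simp only [div_one, Real.sqrt_one, mul_one, Real.cos_pi, neg_neg, one_mul]
    nlinarith

end Pool.Agent.T6.H85.NL
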