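import Pool.Agent.T6.H85.NL.Defs

/-!
# Nodal length of planar waves: statements of the modules
-/

set_option autoImplicit false
open MeasureTheory Metric Filter Topology Real
open scoped ContDiff ENNReal NNReal

namespace Pool.Agent.T6.H85.NL

noncomputable section

/-- SMP: strong minimum principle -/
def SMPStm : Prop := ∀ (c : E) (r : ℝ) (h : E → ℝ), ContDiffOn ℝ 2 h (ball c r) →
    (∀ x ∈ ball c r, 0 ≤ h x) → (∀ x ∈ ball c r, lap h x ≤ 0) →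
    ∀ p ∈ ball c r, h p = 0 → ∀ x ∈ ball c r, h x = 0

/-- CIRC: two zeros on circles -/
def CIRCStm : Prop := ∀ (c : E) (t r b : ℝ), 0 < t → t < r → 0 < b → √b * t < π / 2 →
    ∀ (κ u : E → ℝ), Sol (ball c r) κ u → (∀ x ∈ ball c r, 0 ≤ κ x ∧ κ x ≤ b) →
    ∀ z ∈ ball c t, u z = 0 →
    (∀ x ∈ ball c t, u x = 0) ∨
      ∃ p q : E, p ≠ q ∧ dist p c = t ∧ dist q c = t ∧ u p = 0 ∧ u q = 0

/-- JAC: Jacobi inequality -/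
def JACStm : Prop := ∀ (c : E) (R : ℝ) (κ u : E → ℝ), Sol (ball c R) κ u →
    ∀ (g : E → ℝ) (C : ℝ≥0), LipschitzWith C g → HasCompactSupport g →
    tsupport g ⊆ ball c R → (∀ x ∈ tsupport g, u x ≠ 0) →
    ∫ x, κ x * g x ^ 2 ≤ ∫ x, ‖fderiv ℝ g x‖ ^ 2

/-- JDS: Jacobi inequality for the distance to the nodal set -/
def JDSStm : Prop := ∀ (c : E) (R a : ℝ), 2 ≤ R → 0 < a → ∀ (κ u : E → ℝ),
    Sol (ball c R) κ u → (∀ x ∈ ball c R, a ≤ κ x) →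
    -(2 * π * R * (1 + 1 / √a) ^ 2) ≤
      ∫ x in ball c (R - 2), Real.cos (2 * min (√a * infDist x (nodc (ball c R) u)) (π / 2))

/-- DBAR -/
def DBARStm : Prop := ∀ (r : ℝ), 0 < r → ∀ (p q : E → ℝ), ContDiff ℝ 2 p → ContDiff ℝ 2 q →
    tsupport p ⊆ ball 0 r → tsupport q ⊆ ball 0 r →
    ∫ x, (p x ^ 2 + q x ^ 2) ≤
      4 * r ^ 2 * ∫ x, ((pd 0 p x - pd 1 q x) ^ 2 + (pd 0 q x + pd 1 p x) ^ 2)

/-- CARL: Carleman inequality -/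
def CARLStm : Prop := ∀ (r : ℝ), 0 < r → ∀ (N : ℕ) (f : E → ℝ), ContDiff ℝ ∞ f →
    tsupport f ⊆ ball 0 r → (0 : E) ∉ tsupport f →
    ∫ x, f x ^ 2 / ‖x‖ ^ (2 * N) ≤ (4 * r ^ 2) ^ 2 * ∫ x, lap f x ^ 2 / ‖x‖ ^ (2 * N)

/-- SUC: strong unique continuation -/
def SUCStm : Prop := ∀ (c : E) (r M : ℝ), 0 < r → ∀ (u : E → ℝ),
    ContDiffOn ℝ ∞ u (ball c r) → (∀ x ∈ ball c r, |lap u x| ≤ M * |u x|) →
    (∀ N : ℕ, ∃ C : ℝ, ∀ x ∈ ball c (r / 2), |u x| ≤ C * ‖x - c‖ ^ N ∧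
      ∀ i, |pd i u x| ≤ C * ‖x - c‖ ^ N) →
    ∃ s > 0, ∀ x ∈ ball c s, u x = 0

/-- FLAT: flat functions -/
def FLATStm : Prop := ∀ (c : E) (r s : ℝ), 0 < s → s < r → ∀ (f : E → ℝ),
    ContDiffOn ℝ ∞ f (ball c r) → (∀ l : List (Fin 2), dl l f c = 0) →
    ∀ N : ℕ, ∃ C : ℝ, ∀ x ∈ closedBall c s, |f x| ≤ C * ‖x - c‖ ^ N

/-- SING: countability of singular zeros -/
def SINGStm : Prop := ∀ (c : E) (R : ℝ) (κ u : E → ℝ), Sol (ball c R) κ u →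
    (∀ z ∈ ball c R, ∃ l : List (Fin 2), dl l u z ≠ 0) →
    {x | x ∈ ball c R ∧ u x = 0 ∧ fderiv ℝ u x = 0}.Countable

/-- CAREA: area of a union of circles with centres in a thin set -/
def CAREAStm : Prop := ∀ (t : ℝ), 0 < t → ∀ (η : ℝ), 0 < η →
    ∃ θ > 0, ∀ n : E, ‖n‖ = 1 → ∀ A : Set E, ediam A ≤ ENNReal.ofReal θ →
      (∀ p ∈ A, ∀ q ∈ A, |inner ℝ (p - q) n| ≤ θ * dist p q) →
      volume (⋃ p ∈ A, sphere p t) ≤ ENNReal.ofReal (4 * t + η) * ediam A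

/-- LAREA: local area bound at a regular zero -/
def LAREAStm : Prop := ∀ (t : ℝ), 0 < t → ∀ (V : Set E), IsOpen V → ∀ (u : E → ℝ),
    ContDiffOn ℝ 1 u V → ∀ z ∈ V, u z = 0 → fderiv ℝ u z ≠ 0 → ∀ η : ℝ, 0 < η →
    ∃ r > 0, ∀ A : Set E, A ⊆ ball z r → (∀ p ∈ A, u p = 0) →
      volume (⋃ p ∈ A, sphere p t) ≤ ENNReal.ofReal (4 * t + η) * ediam A

/-- COV: covering -/
def COVStm : Prop := ∀ (t : ℝ), 0 < t → ∀ (Zr : Set E),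
    (∀ η : ℝ, 0 < η → ∀ z ∈ Zr, ∃ r > 0, ∀ A : Set E, A ⊆ ball z r → A ⊆ Zr →
      volume (⋃ p ∈ A, sphere p t) ≤ ENNReal.ofReal (4 * t + η) * ediam A) →
    ∀ X : Set E, (∀ x ∈ X, ∃ p ∈ Zr, ∃ q ∈ Zr, p ≠ q ∧ dist p x = t ∧ dist q x = t) →
    2 * volume X ≤ ENNReal.ofReal (4 * t) * μH[1] Zr

/-- TUBE -/
def TUBEStm : Prop := ∀ (t : ℝ), 0 < t → ∀ (V : Set E), IsOpen V → ∀ (u : E → ℝ),
    ContDiffOn ℝ 1 u V → {x | x ∈ V ∧ u x = 0 ∧ fderiv ℝ u x = 0}.Countable →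
    ∀ X : Set E, (∀ x ∈ X, ∃ p ∈ nod V u, ∃ q ∈ nod V u, p ≠ q ∧ dist p x = t ∧ dist q x = t) →
    2 * volume X ≤ ENNReal.ofReal (4 * t) * μH[1] (nod V u)

/-- LAY: layer cake -/
def LAYStm : Prop := ∀ (B : Set E), MeasurableSet B → volume B ≠ ⊤ → ∀ (d : E → ℝ),
    Measurable d → (∀ x, 0 ≤ d x) → ∀ (L a b : ℝ), 0 ≤ L → 0 < a → a ≤ b →
    (∀ t : ℝ, 0 < t → √b * t < π / 2 →
      volume {x | x ∈ B ∧ d x < t} ≤ ENNReal.ofReal (2 * t * L)) →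
    ∫ x in B, Real.cos (2 * min (√a * d x) (π / 2)) ≤
      π * L / √a + (volume B).toReal * Real.cos (π * √(a / b))

/-- LOC: local lower bound -/
def LOCStm : Prop := ∀ (c : E) (R a b : ℝ), 2 ≤ R → π / 4 ≤ √a → a ≤ b →
    ∀ (κ u : E → ℝ), Sol (ball c R) κ u → (∀ x ∈ ball c R, a ≤ κ x ∧ κ x ≤ b) →
    ENNReal.ofReal (√a * ((R - 2) ^ 2 * (-Real.cos (π * √(a / b))) -
      2 * R * (1 + 1 / √a) ^ 2)) ≤ μH[1] (nod (ball c R) u)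

/-- BALL: asymptotic lower bound in a ball where the metric is nearly constant -/
def BALLStm : Prop := ∀ (ε : ℝ), 0 < ε → ∃ δ > 0, ∀ (x₀ : E) (r ρ₀ : ℝ), 0 < r → 0 < ρ₀ →
    ∀ (ρ : E → ℝ), ContDiffOn ℝ ∞ ρ (ball x₀ r) → (∀ x ∈ ball x₀ r, |ρ x - ρ₀| ≤ δ * ρ₀) →
    ∀ (lam : ℕ → ℝ), Tendsto lam atTop atTop → ∀ (u : ℕ → E → ℝ),
    (∀ n, ContDiffOn ℝ ∞ (u n) (ball x₀ r)) →
    (∀ n, ∀ x ∈ ball x₀ r, lap (u n) x + lam n * ρ x * u n x = 0) →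
    ∀ᶠ n in atTop, ENNReal.ofReal ((1 - ε) * √(lam n * ρ₀) * r ^ 2) ≤
      μH[1] (nod (ball x₀ r) (u n))

/-- SURF: surfaces -/
def SURFStm : Prop := ∀ (Ω : Set E), IsOpen Ω → ∀ (ρ : E → ℝ), ContDiffOn ℝ ∞ ρ Ω →
    (∀ x ∈ Ω, 0 < ρ x) → ∀ (lam : ℕ → ℝ), Tendsto lam atTop atTop → ∀ (u : ℕ → E → ℝ),
    (∀ n, ContDiffOn ℝ ∞ (u n) Ω) →
    (∀ n, ∀ x ∈ Ω, lap (u n) x + lam n * ρ x * u n x = 0) →
    ∀ (U : Set E), IsOpen U → U ⊆ Ω →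
    ENNReal.ofReal (1 / π) * ∫⁻ x in U, ENNReal.ofReal (ρ x) ≤
      liminf (fun n => ENNReal.ofReal (1 / √(lam n)) *
        ∫⁻ x in {x | x ∈ U ∧ u n x = 0}, ENNReal.ofReal (√(ρ x)) ∂μH[1]) atTop

/-- SHARP: sharpness -/
def SHARPStm : Prop := ∀ (c : E) (R : ℝ), 0 ≤ R →
    μH[1] {x : E | x ∈ ball c R ∧ Real.cos (x 0) = 0} ≤ ENNReal.ofReal (R ^ 2 + 2 * R)

end

end Pool.Agent.T6.H85.NL
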